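import Pool.Agent.H83.G.BroC

/-! Theorem G: the broad part, assembly. -/

set_option autoImplicit false

namespace Pool.Agent.H83.G.BRO

open Pool.Agent.H83.G Pool.Agent.H83.G.TEN MeasureTheory Set
open scoped ENNReal NNReal RealInnerProductSpace

theorem small1 {b₀ A H CD R : ℝ} (hR : 0 < R) (hb₀ : 0 < b₀) (hA : 0 < A) (hAH : b₀ * A ≤ H)
    (hCD : 0 < CD) (h : 2 * CD / b₀ ≤ R) : CD * A * R ^ (-1 : ℝ) ≤ H / 2 := by
  rw [div_le_iff₀ hb₀] at h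
  rw [Real.rpow_neg_one, ← div_eq_mul_inv, div_le_iff₀ hR]
  have h1 : (2 * CD) * A ≤ (R * b₀) * A := mul_le_mul_of_nonneg_right h hA.le
  have h2 : R * (b₀ * A) ≤ R * H := mul_le_mul_of_nonneg_left hAH hR.le
  linarith

theorem small2 {b₀ A H C7 C9 R δ n : ℝ} (hR : 1 ≤ R) (hb₀ : 0 < b₀) (hA : 0 < A)
    (hAH : b₀ * A ≤ H) (hC7 : 0 < C7) (h : 16 * C9 * C7 / b₀ ≤ R ^ (1 - δ / 2)) (hn : 1 ≤ n)
    (hn2 : (n + 1) ^ 25 ≤ C9 * R ^ (δ / 2)) :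
    C7 * A * R ^ (-1 : ℝ) ≤ H / 2 / (4 * n ^ 2) / 2 := by
  have hR0 : 0 < R := by linarith
  rw [div_le_iff₀ hb₀] at h
  have e1 : n ^ 2 ≤ (n + 1) ^ 25 := by
    calc n ^ 2 ≤ (n + 1) ^ 2 := by gcongr; linarith
      _ ≤ (n + 1) ^ 25 := pow_le_pow_right₀ (by linarith) (by norm_num)
  have e2 : H / 2 / (4 * n ^ 2) / 2 = H / (16 * n ^ 2) := by field_simp; ring
  have hn0 : 0 < n := by linarith
  rw [e2, le_div_iff₀ (by positivity), Real.rpow_neg_one]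
  have e3 : C7 * A * R⁻¹ * (16 * n ^ 2) ≤ C7 * A * R⁻¹ * (16 * (C9 * R ^ (δ / 2))) := by
    gcongr
    exact e1.trans hn2
  refine e3.trans ?_
  have e4 : C7 * A * R⁻¹ * (16 * (C9 * R ^ (δ / 2))) = (16 * C9 * C7) * (R⁻¹ * R ^ (δ / 2)) * A := by
    ring
  rw [e4]
  have e5 : (16 * C9 * C7) * (R⁻¹ * R ^ (δ / 2)) ≤ b₀ := by
    calc (16 * C9 * C7) * (R⁻¹ * R ^ (δ / 2)) ≤
          (R ^ (1 - δ / 2) * b₀) * (R⁻¹ * R ^ (δ / 2)) :=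
          mul_le_mul_of_nonneg_right h (by positivity)
      _ = (R ^ (1 - δ / 2) * (R⁻¹ * R ^ (δ / 2))) * b₀ := by ring
      _ = 1 * b₀ := by
          rw [← Real.rpow_neg_one R, ← Real.rpow_add hR0, ← Real.rpow_add hR0]
          rw [show 1 - δ / 2 + (-1 + δ / 2) = 0 by ring, Real.rpow_zero]
      _ = b₀ := one_mul _
  calc (16 * C9 * C7) * (R⁻¹ * R ^ (δ / 2)) * A ≤ b₀ * A := mul_le_mul_of_nonneg_right e5 hA.le
    _ ≤ H := hAH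

theorem small3 {b₀ A H D C9 R δ n : ℝ} (hR : 1 ≤ R) (hb₀ : 0 < b₀) (hA : 0 < A)
    (hAH : b₀ * A ≤ H) (hD : 1 ≤ D) (h : 16 * D * C9 ≤ R ^ (δ / 2)) (hn : 0 ≤ n) (hH : 0 < H)
    (hn2 : (n + 1) ^ 25 ≤ C9 * R ^ (δ / 2)) :
    b₀ * (D * A) ≤ R ^ δ * (H / (16 * (n + 1) ^ 4)) := by
  have hR0 : 0 < R := by linarith
  have e1 : (n + 1) ^ 4 ≤ (n + 1) ^ 25 := pow_le_pow_right₀ (by linarith) (by norm_num)
  have e0 : 0 ≤ C9 * R ^ (δ / 2) := le_trans (by positivity) hn2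
  rw [← mul_div_assoc, le_div_iff₀ (by positivity)]
  calc b₀ * (D * A) * (16 * (n + 1) ^ 4) = (16 * D * (n + 1) ^ 4) * (b₀ * A) := by ring
    _ ≤ (16 * D * (C9 * R ^ (δ / 2))) * H := by
        have := e1.trans hn2
        gcongr
    _ = (16 * D * C9) * R ^ (δ / 2) * H := by ring
    _ ≤ R ^ (δ / 2) * R ^ (δ / 2) * H := by gcongr
    _ = R ^ δ * H := by rw [← Real.rpow_add hR0]; congr 2; ring

theorem small4 {m : ℕ} {b₀ A C7 H R a₀ : ℝ} (hR : 1 ≤ R) (hb₀ : 0 < b₀)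
    (hAH : b₀ * A ≤ H) (hC7 : 0 < C7)
    (ha : a₀ = b₀ / (4 * C7) * A * R ^ (-((m : ℝ) + 2))) :
    C7 * R ^ ((m : ℝ) + 2) * a₀ ≤ H / 2 / 2 := by
  have hR0 : 0 < R := by linarith
  have e1 : R ^ ((m : ℝ) + 2) * R ^ (-((m : ℝ) + 2)) = 1 := by
    rw [← Real.rpow_add hR0]; simp
  have e2 : C7 * R ^ ((m : ℝ) + 2) * a₀ =
      (b₀ * A) / 4 * (R ^ ((m : ℝ) + 2) * R ^ (-((m : ℝ) + 2))) := by
    rw [ha]; field_simp
  rw [e2, e1]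
  linarith

theorem small5 {m : ℕ} {b₀ A C7 C8 R a₀ B' P : ℝ} (hR : 1 ≤ R) (hA : 0 < A)
    (hb₀ : 0 < b₀) (hC7 : 0 < C7) (hC8 : 0 < C8)
    (ha : a₀ = b₀ / (4 * C7) * A * R ^ (-((m : ℝ) + 2))) (hB : C8 / (b₀ / (4 * C7)) ≤ B')
    (hn : B' * R ^ (2 * ((m : ℝ) + 2)) ≤ P) : C8 * A ≤ P * a₀ := by
  have hR0 : 0 < R := by linarith
  have hb : 0 < b₀ / (4 * C7) := by positivity
  have ha0 : 0 < a₀ := by rw [ha]; positivity
  rw [div_le_iff₀ hb] at hB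
  have e1 : R ^ (2 * ((m : ℝ) + 2)) * R ^ (-((m : ℝ) + 2)) = R ^ ((m : ℝ) + 2) := by
    rw [← Real.rpow_add hR0]; congr 1; ring
  have e2 : 1 ≤ R ^ ((m : ℝ) + 2) := Real.one_le_rpow hR (by positivity)
  have hB0 : 0 ≤ B' * (b₀ / (4 * C7)) := hC8.le.trans hB
  calc C8 * A ≤ (B' * (b₀ / (4 * C7))) * A := mul_le_mul_of_nonneg_right hB hA.le
    _ ≤ (B' * (b₀ / (4 * C7))) * A * R ^ ((m : ℝ) + 2) :=
        le_mul_of_one_le_right (by positivity) e2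
    _ = (B' * R ^ (2 * ((m : ℝ) + 2))) * a₀ := by rw [ha, ← e1]; ring
    _ ≤ P * a₀ := mul_le_mul_of_nonneg_right hn ha0.le

theorem small6 {m : ℕ} {R δ A D CA CE e B : ℝ} (hR : 0 < R) (hCA : 0 ≤ CA) (hCE : 0 ≤ CE)
    (hD : 1 ≤ D) (hD2 : 3 * CA * CE ≤ D) (hB : 1 ≤ B)
    (he : e ≤ 3 * (CE * R ^ (lo m * δ) * (A ^ 2 * R ^ ((m : ℝ) + 2)))) :
    CA * e ≤ B * R ^ (lo m * δ) * ((D * A) ^ 2 * R ^ ((m : ℝ) + 2)) := by
  have e1 : D ≤ B * D ^ 2 := by nlinarith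
  calc CA * e ≤ CA * (3 * (CE * R ^ (lo m * δ) * (A ^ 2 * R ^ ((m : ℝ) + 2)))) := by gcongr
    _ = (3 * CA * CE) * (R ^ (lo m * δ) * (A ^ 2 * R ^ ((m : ℝ) + 2))) := by ring
    _ ≤ (B * D ^ 2) * (R ^ (lo m * δ) * (A ^ 2 * R ^ ((m : ℝ) + 2))) :=
        mul_le_mul_of_nonneg_right (hD2.trans e1) (by positivity)
    _ = _ := by ring

theorem small7 {R δ D C9 n x : ℝ} (hR : 1 ≤ R) (hC9 : 1 ≤ C9) (hD : 1 ≤ D)
    (h : 16 * D * C9 ≤ R ^ (δ / 2)) (hn : 0 ≤ n) (hx : 0 ≤ x)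
    (hn2 : (n + 1) ^ 25 ≤ C9 * R ^ (δ / 2)) : (n + 1) ^ 6 * x ≤ R ^ δ * x := by
  have hR0 : 0 < R := by linarith
  have e1 : (n + 1) ^ 6 ≤ (n + 1) ^ 25 := pow_le_pow_right₀ (by linarith) (by norm_num)
  have e2 : C9 ≤ R ^ (δ / 2) := by nlinarith
  have e3 : R ^ δ = R ^ (δ / 2) * R ^ (δ / 2) := by rw [← Real.rpow_add hR0]; congr 1; ring
  refine mul_le_mul_of_nonneg_right ?_ hx
  rw [e3]
  refine (e1.trans hn2).trans ?_
  gcongr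

theorem small8 {m : ℕ} {R : ℝ} {z z₀ q : Z m} (hR : 1 ≤ R)
    (h1 : ‖z - q‖ ≤ ((m : ℝ) + 1) * Real.sqrt R) (h2 : ‖z - z₀‖ ≤ R) :
    ‖q - z₀‖ ≤ ((m : ℝ) + 2) * R := by
  have e1 : Real.sqrt R ≤ R := by
    rw [Real.sqrt_le_left (by linarith)]
    nlinarith
  have e2 : q - z₀ = -(z - q) + (z - z₀) := by abel
  rw [e2]
  refine (norm_add_le _ _).trans ?_
  rw [norm_neg]
  have e3 : ((m : ℝ) + 1) * Real.sqrt R ≤ ((m : ℝ) + 1) * R := by gcongr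
  linarith

theorem sum3 (f : Fin 3 → ℝ≥0∞) (c : ℝ) (h : ∀ i, f i ≤ ENNReal.ofReal c) :
    ∑ i, f i ≤ ENNReal.ofReal (3 * c) := by
  calc ∑ i, f i ≤ ∑ _i : Fin 3, ENNReal.ofReal c := Finset.sum_le_sum (fun i _ => h i)
    _ = ENNReal.ofReal (3 * c) := by
        rw [Finset.sum_const, Finset.card_univ, Fintype.card_fin, nsmul_eq_mul,
          ENNReal.ofReal_mul (by norm_num)]
        norm_num

open Classical in
theorem pf_BRO (hDCP : T_DCP) (hTLS : T_TLS) (hAMU : T_AMU) (hAEN : T_AEN) (hENB : T_ENB)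
    (hPG1 : T_PG1) (hPG2 : T_PG2) (hPG3 : T_PG3) (hOEN : T_OEN) (hTEN : T_TEN2) (hPSX : T_PSX)
    (hLWX : T_LWX) (hCBN : T_CBN) (hWT3 : T_WT3) : T_BRO := by
  intro m L β K δ ε₀ ε₁ b₀ hm hL hβ hK hδ hδ' hε hε' hε₁ hb₀
  have hδ4 : δ ≤ 1 / 4 := by linarith
  obtain ⟨Ψ, ψ, hΨ⟩ := hPSX m
  obtain ⟨Ξ, χ, hΞ⟩ := hLWX m
  obtain ⟨CD, hCD, hD⟩ := hDCP m L β Ψ ψ δ 1 hβ hΨ hδ hδ4
  obtain ⟨CE, hCE, hE⟩ := hENB m L (m + 3) β δ hβ hδ le_rfl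
  obtain ⟨N₀, hN₀⟩ := hTEN m L β Ψ ψ K δ ε₀ b₀ (max CD 1) hm hβ hΨ hK hδ hδ' hε hε' hb₀
    (le_max_right _ _)
  obtain ⟨N, hN1, hN2⟩ : ∃ N : ℕ, N₀ ≤ N ∧ 2 * m + 6 ≤ N := ⟨_, le_max_left _ _, le_max_right _ _⟩
  obtain ⟨CT, hCT, hT⟩ := hN₀ N hN1
  clear hN₀
  obtain ⟨CO, hCO, hO⟩ := hOEN m L N β Ψ Ξ ψ χ δ ε₀ (by omega) hβ hΨ hΞ hδ hδ4 hε (by linarith)
    hL hN2
  obtain ⟨CA, hA'⟩ := hAEN m N (m + 3) β δ hβ hδ.le (by omega)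
  obtain ⟨C7, hC7, h7⟩ := hTLS m L N β Ψ ψ δ 1 hβ hΨ hδ hδ4 (by omega)
  obtain ⟨C8, hC8, h8⟩ := hAMU m L N β δ hβ hδ.le (by omega)
  obtain ⟨CS, hCS, hS⟩ := card_sep (m := m) hWT3
  have hb₁ : 0 < b₀ / (4 * C7) := by positivity
  have hB1 : 0 < C8 / (b₀ / (4 * C7)) := by positivity
  obtain ⟨B', hB'1, hB'2, hB'3, hB'4, hB'5⟩ : ∃ B' : ℝ, 1 ≤ B' ∧ CD ≤ B' ∧
      C8 / (b₀ / (4 * C7)) ≤ B' ∧ CS ≤ B' ∧ 2 ≤ B' :=
    ⟨CD + C8 / (b₀ / (4 * C7)) + CS + 2, by linarith, by linarith, by linarith, by linarith,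
      by linarith⟩
  obtain ⟨C9, hC9, h9⟩ := logn (2 * ((m : ℝ) + 2)) B' (δ / 2) (by positivity) hB'1
    (by linarith) 25
  obtain ⟨D, hD1, hD2⟩ : ∃ D : ℝ, 1 ≤ D ∧ 3 * (CA : ℝ) * CE ≤ D := by
    have : 0 ≤ 3 * (CA : ℝ) * CE := by positivity
    exact ⟨3 * (CA : ℝ) * CE + 1, by linarith, by linarith⟩
  obtain ⟨C, hC1, hCOC, hCC1, hCC2, hCR⟩ := constsB δ ε₀ b₀ CD CT CO CA C7 C9 D hδ hδ' hε hb₀ hCD
    hCT hCO CA.2 hC7 hC9 hD1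
  obtain ⟨hcb, hinc, -⟩ := hCBN m
  clear hDCP hTLS hAMU hAEN hENB hOEN hTEN hPSX hLWX hCBN hWT3
  refine ⟨C, hC1, ?_⟩
  intro κ R A H g G c z₀ X hκ0 hκ hRC hA hH hAH hg hG hc hGc hsep hX hXz hXH hBd
  obtain ⟨hR1, r1, r2, r3, r4, r5, r6⟩ := hCR R hRC
  have hR0 : 0 < R := by linarith
  have hκ' : κ ≤ 1 / 2 := by linarith
  -- planks
  have hfam : ∀ i, ∃ S : Finset (Pk m),
      (∀ W ∈ S, W.1 ∈ Ks m (sR R) ∧ (∃ z, ‖z - z₀‖ ≤ R ∧ near R δ W z) ∧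
        ‖ctr (sR R) W.1‖ ≤ 3 ∧ ‖ctr (sR R) W.1 - c i‖ ≤ 1 / K + sR R) ∧
      (S.card : ℝ) ≤ CD * R ^ (2 * ((m : ℝ) + 2)) ∧
      ∀ z ∈ X, H / 2 ≤ ‖∑ W ∈ S, Fp β ψ R δ (G i) W z‖ := fun i =>
    famA hβ hκ hR1 (hG i) (hGc i) hXz (fun z hz => hXH z hz i) (small1 hR0 hb₀ hA hAH hCD r2)
      (hD κ R A (G i) z₀ hκ0 hκ' hR1 hA (hG i))
  choose S0 hS0 hS0c hS0X using hfam
  obtain ⟨n, hn1, hn2⟩ := h9 R hR1
  have hP1 : 1 ≤ R ^ (2 * ((m : ℝ) + 2)) := Real.one_le_rpow hR1 (by positivity)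
  have hn : 1 ≤ n := by
    by_contra h
    have h0 : n = 0 := by omega
    rw [h0, pow_zero] at hn1
    nlinarith
  have hn1' : (1 : ℝ) ≤ n := by exact_mod_cast hn
  obtain ⟨a₀, ha₀⟩ : ∃ a₀ : ℝ, a₀ = b₀ / (4 * C7) * A * R ^ (-((m : ℝ) + 2)) := ⟨_, rfl⟩
  have ha₀0 : 0 < a₀ := by rw [ha₀]; positivity
  have hSn : ∀ i, (S0 i).card ≤ 2 ^ n := by
    intro i
    have h1 : ((S0 i).card : ℝ) ≤ 2 ^ n := by
      refine ((hS0c i).trans ?_).trans hn1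
      gcongr
    exact_mod_cast h1
  have hXn : X.card ≤ 2 ^ n := by
    have h1 : (X.card : ℝ) ≤ 2 ^ n := by
      refine ((hS R z₀ X hR1 hX hXz).trans ?_).trans hn1
      gcongr
    exact_mod_cast h1
  have hal : ∀ i, ∀ W : Pk m, al N β R δ (G i) W ≤ 2 ^ n * a₀ := fun i W =>
    (h8 κ R A (G i) W hκ0 hκ' hR1 hA (hG i)).1.trans
      (small5 hR1 hA hb₀ hC7 hC8 ha₀ hB'3 hn1)
  obtain ⟨S', a, b, l, k, ν, QQ, X', hX'X, hQQ, hXc, hX'H, hS', hν, hνQ, hνX, hX'Q⟩ :=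
    pigeon hPG1 hPG2 hPG3 (N := N) (β := β) (ψ := ψ) (R := R) (r := R ^ (1 - ε₀)) (δ := δ)
      (G := G) S0 n a₀ (H / 2) X ha₀0 (by positivity) hn hSn hXn (fun i W _ => hal i W)
      (fun i z _ T hT hTa => ((h7 κ R A (G i) T z hκ0 hκ' hR1 hA (hG i)
        (fun W hW => (hS0 i W (hT hW)).1)).2 a₀ ha₀0.le hTa).trans
          (small4 hR1 hb₀ hAH hC7 ha₀))
      (fun i z _ T hT hTa => ((h7 κ R A (G i) T z hκ0 hκ' hR1 hA (hG i)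
        (fun W hW => (hS0 i W (hT hW)).1)).1
          (fun W hW hnear => hTa W hW (hinc R δ W z hR1 hδ.le hnear))).trans
          (small2 hR1 hb₀ hA hAH hC7 r3 hn1' hn2))
      (fun i z hz => hS0X i z hz)
  obtain ⟨H', hH'⟩ : ∃ H' : ℝ, H' = H / (16 * ((n : ℝ) + 1) ^ 4) := ⟨_, rfl⟩
  have hH'0 : 0 < H' := by rw [hH']; positivity
  have hHH' : H = 16 * ((n : ℝ) + 1) ^ 4 * H' := by rw [hH']; field_simp
  have hX'H' : ∀ z ∈ X', ∀ i, H' ≤ ‖∑ W ∈ SB QQ R (R ^ (1 - ε₀)) δ (l i) (k i) (S' i)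
      (bl R (R ^ (1 - ε₀)) (cb (Real.sqrt R) z)), Fp β ψ R δ (G i) W z‖ := by
    intro z hz i
    have h1 := hX'H z hz i
    rw [hH', div_le_iff₀ (by positivity)]
    linarith
  have hX's : Sep X' := fun z hz z' hz' => hX z (hX'X hz) z' (hX'X hz')
  clear hal hX'H h7 hS0X hSn hXn h9 hPG1 hPG2 hPG3
  -- energies
  have hEi : ∀ i, Er (m + 3) β R δ (G i) z₀ ≤
      ENNReal.ofReal (CE * R ^ (lo m * δ) * (A ^ 2 * R ^ ((m : ℝ) + 2))) := fun i =>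
    hE κ R A (G i) z₀ hκ0 hκ' hR1 hA (hG i)
  have hEs : ∑ i, Er (m + 3) β R δ (G i) z₀ ≤
      ENNReal.ofReal (3 * (CE * R ^ (lo m * δ) * (A ^ 2 * R ^ ((m : ℝ) + 2)))) :=
    sum3 _ _ hEi
  have hfin : ∑ i, Er (m + 3) β R δ (G i) z₀ ≠ ⊤ :=
    ne_top_of_le_ne_top ENNReal.ofReal_ne_top hEs
  obtain ⟨e, he⟩ : ∃ e : ℝ, e = (∑ i, Er (m + 3) β R δ (G i) z₀).toReal := ⟨_, rfl⟩
  have he0 : 0 ≤ e := by rw [he]; exact ENNReal.toReal_nonneg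
  have heE : e ≤ 3 * (CE * R ^ (lo m * δ) * (A ^ 2 * R ^ ((m : ℝ) + 2))) := by
    rw [he]
    exact ENNReal.toReal_le_of_le_ofReal (by positivity) hEs
  have hGr : ∀ i, ∀ ζ, G i ζ ≠ 0 → ζ ∈ Rg m (1 / 2) R⁻¹ := fun i ζ hζ =>
    Rg_mono hκ' (by positivity) hκ' ((hG i).2.1 ζ hζ)
  have hEn : ∀ i, ∑ W ∈ S' i, al N β R δ (G i) W ^ 2 * R ^ (((m : ℝ) + 2) / 2) ≤ CA * e := by
    intro i
    rw [he]
    refine energy hR0 hfin (fun W _ => (h8 κ R A (G i) W hκ0 hκ' hR1 hA (hG i)).2) ?_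
    refine (hA' R (G i) z₀ (S' i) hR1 (hG i).1 (hGr i) (fun W hW => ?_)).trans ?_
    · have := hS0 i W ((hS' i).1 hW)
      exact ⟨this.1, this.2.1⟩
    · have : Er (m + 3) β R δ (G i) z₀ ≤ ∑ i, Er (m + 3) β R δ (G i) z₀ :=
        Finset.single_le_sum (f := fun i => Er (m + 3) β R δ (G i) z₀) (fun _ _ => zero_le)
          (Finset.mem_univ i)
      gcongr
  rw [← he]
  -- the two cases
  by_cases hk : ∀ i, CT ≤ (2 : ℝ) ^ k i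
  · -- two ends
    rcases Finset.eq_empty_or_nonempty X' with hemp | ⟨z₁, hz₁⟩
    · have h0 : (X.card : ℝ) = 0 := by
        rw [hemp] at hXc
        have a1 : (0 : ℝ) ≤ X.card := Nat.cast_nonneg _
        simp only [Finset.card_empty, Nat.cast_zero, mul_zero] at hXc
        linarith
      rw [h0, zero_mul]
      positivity
    have hEnpos : 0 < (CA : ℝ) * e := by
      have h1 := hX'H' z₁ hz₁ 0
      obtain ⟨W, hW⟩ : (S' 0).Nonempty := by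
        rw [Finset.nonempty_iff_ne_empty]
        intro h2
        have h3 : SB QQ R (R ^ (1 - ε₀)) δ (l 0) (k 0) (S' 0)
            (bl R (R ^ (1 - ε₀)) (cb (Real.sqrt R) z₁)) = ∅ := by
          rw [Finset.eq_empty_iff_forall_notMem]
          intro W hW
          have := (mem_SB.1 hW).1
          rw [h2] at this
          simp at this
        rw [h3] at h1
        simp only [Finset.sum_empty, norm_zero] at h1
        linarith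
      refine lt_of_lt_of_le ?_ (hEn 0)
      have h4 : 0 < al N β R δ (G 0) W :=
        lt_of_lt_of_le ha₀0 ((hS' 0).2.1.trans ((hS' 0).2.2.2.1 W hW).1)
      refine lt_of_lt_of_le (by positivity : 0 < al N β R δ (G 0) W ^ 2 * R ^ (((m : ℝ) + 2) / 2))
        (Finset.single_le_sum (f := fun W => al N β R δ (G 0) W ^ 2 * R ^ (((m : ℝ) + 2) / 2))
          (fun W _ => by positivity) hW)
    have key := hT κ R (D * A) H' (CA * e) G c z₀ S' a (fun i => (b i : ℝ)) l k QQ (ν : ℝ) X' hκ0 hκ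
      hR1 r4 (by positivity) hH'0 ?_ hEnpos
      (fun i => Cls_monoA hR0 hA.le (le_mul_of_one_le_left hA.le hD1) (hG i)) hc hsep hX's
      (fun z hz => hXz z (hX'X hz)) ?_ ?_ ?_ ?_ hEn ?_ ?_ ?_ ?_ hX'Q ?_ hk hX'H'
    · refine (numX m hm X.card X'.card H H' C9 R δ _ n (by positivity) hH'0 (Nat.cast_nonneg _) hR0
        (by linarith) hXc hHH' hn2 key).trans ?_
      exact caseT m hm R δ ε₀ ε₁ C C9 CT CA D g A e hR1 hδ hε (by linarith) hA he0 (by linarith)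
        (by linarith) CA.2 hD1 hCC2 (by linarith)
    · rw [hH']
      exact small3 hR1 hb₀ hA hAH hD1 r6 (by positivity) hH hn2
    · intro i W hW
      have h1 := hS0 i W ((hS' i).1 hW)
      have h2 := (hS' i).2.2.2.1 W hW
      exact ⟨h1.1, h1.2.1, h1.2.2.1, h1.2.2.2, h2.1, h2.2⟩
    · intro i
      have h1 : ((S' i).card : ℝ) ≤ (S0 i).card := by
        exact_mod_cast Finset.card_le_card (hS' i).1
      exact (h1.trans (hS0c i)).trans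
        (mul_le_mul_of_nonneg_right (le_max_left _ _) (by positivity))
    · intro i
      exact ⟨lt_of_lt_of_le ha₀0 (hS' i).2.1, by exact_mod_cast (hS' i).2.2.1⟩
    · intro i W hW
      have h1 := (hS' i).2.2.2.2 W hW
      exact ⟨by exact_mod_cast h1.1, by exact_mod_cast h1.2⟩
    · exact small6 hR0 CA.2 hCE.le hD1 hD2 (le_max_right _ _) heE
    · exact lt_of_lt_of_le one_pos (by exact_mod_cast hν)
    · exact hνQ.trans (small7 hR1 hC9 hD1 r6 (Nat.cast_nonneg _) (Nat.cast_nonneg _) hn2)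
    · intro q
      exact_mod_cast hνX q
    · intro q hq
      obtain ⟨z, hz, rfl⟩ := Finset.mem_image.1 (hQQ hq)
      exact small8 hR1 (hcb (Real.sqrt R) z (by positivity)) (hXz z hz)
  · -- one end
    push Not at hk
    obtain ⟨i, hi⟩ := hk
    have hRδ0 : 0 < R ^ δ := by positivity
    have hκO : κ + CO * R ^ (-δ) ≤ 1 / 2 := by
      have h1 : CO * R ^ (-δ) ≤ 1 / 8 := by
        rw [Real.rpow_neg hR0.le, ← div_eq_mul_inv, div_le_iff₀ hRδ0]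
        linarith
      linarith
    have hκO' : κ + CO * R ^ (-δ) ≤ κ + C * R ^ (-δ) := by gcongr
    have key := hO κ R A H' g (G i) (S' i) QQ (l i) (k i) X' hκ0 hκ hR1 (by linarith) r1 hA hH'0
      (by linarith) (Bd_mono hκO' (by positivity) hκO hBd) (hG i) hX's
      (fun W hW => (hS0 i W ((hS' i).1 hW)).1)
      (fun z hz => ⟨hX'Q z hz, hX'H' z hz i⟩)
    refine (numX m hm X.card X'.card H H' C9 R δ _ n (by positivity) hH'0 (Nat.cast_nonneg _) hR0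
        (by linarith) hXc hHH' hn2 key).trans ?_
    exact caseO m R δ ε₀ ε₁ C C9 CO CT CA (2 ^ k i) g A _ e hR1 hδ hε₁ (by linarith) hA he0
      (by linarith) (by linarith) (by positivity) hi.le CA.2
      (Finset.sum_nonneg (fun W _ => by positivity)) (hEn i) hCC1 (by linarith)

end Pool.Agent.H83.G.BRO
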