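import Pool.Agent.H83.G.BroB

/-! Theorem G: the broad part, numerical lemmas. -/

set_option autoImplicit false

namespace Pool.Agent.H83.G.BRO

open Pool.Agent.H83.G Pool.Agent.H83.G.TEN MeasureTheory Set
open scoped ENNReal NNReal RealInnerProductSpace

theorem Cls_monoA {m L : ℕ} {κ R A A' : ℝ} {G : Z m → ℂ} (hR : 0 < R) (hA : 0 ≤ A) (h : A ≤ A')
    (hG : Cls L κ R A G) : Cls L κ R A' G := by
  refine ⟨hG.1, hG.2.1, fun φ hφ η s r z₀ hs hs1 hr hrR => (hG.2.2 φ hφ η s r z₀ hs hs1 hr hrR).trans ?_⟩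
  apply ENNReal.ofReal_le_ofReal
  have hr0 : 0 < r := by linarith
  gcongr

theorem energy {m N : ℕ} {β : E m → ℂ} {R δ : ℝ} {G : Z m → ℂ} {S : Finset (Pk m)} {CA : ℝ≥0}
    {e₀ : ℝ≥0∞} (hR : 0 < R) (hfin : e₀ ≠ ⊤)
    (hal : ∀ W ∈ S, al2 N β R δ G W = ENNReal.ofReal (al N β R δ G W ^ 2))
    (h : ∑ W ∈ S, al2 N β R δ G W * ENNReal.ofReal (R ^ (((m : ℝ) + 2) / 2)) ≤ CA * e₀) :
    ∑ W ∈ S, al N β R δ G W ^ 2 * R ^ (((m : ℝ) + 2) / 2) ≤ CA * e₀.toReal := by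
  have hRp : 0 ≤ R ^ (((m : ℝ) + 2) / 2) := by positivity
  have h1 : ∑ W ∈ S, al2 N β R δ G W * ENNReal.ofReal (R ^ (((m : ℝ) + 2) / 2)) =
      ENNReal.ofReal (∑ W ∈ S, al N β R δ G W ^ 2 * R ^ (((m : ℝ) + 2) / 2)) := by
    rw [ENNReal.ofReal_sum_of_nonneg (fun W _ => by positivity)]
    refine Finset.sum_congr rfl (fun W hW => ?_)
    rw [hal W hW, ENNReal.ofReal_mul (by positivity)]
  rw [h1] at h
  have h2 := ENNReal.toReal_mono (ENNReal.mul_ne_top ENNReal.coe_ne_top hfin) h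
  rw [ENNReal.toReal_ofReal (Finset.sum_nonneg (fun W _ => by positivity)), ENNReal.toReal_mul,
    ENNReal.coe_toReal] at h2
  exact h2

theorem numX (m : ℕ) (hm : 4 ≤ m) (x N H H' C9 R δ Y n : ℝ) (hn : 0 ≤ n) (hH' : 0 < H')
    (hN : 0 ≤ N) (hR : 0 < R) (hC9 : 0 ≤ C9)
    (h1 : x ≤ 64 * (n + 1) ^ 13 * N) (hH : H = 16 * (n + 1) ^ 4 * H')
    (hn2 : (n + 1) ^ 25 ≤ C9 * R ^ (δ / 2)) (hY : N * H' ^ (2 + xm m) ≤ Y) :
    x * H ^ (2 + xm m) ≤ 262144 * C9 * R ^ (δ / 2) * Y := by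
  have hm' : (4 : ℝ) ≤ m := by exact_mod_cast hm
  have hxm : xm m ≤ 1 := by
    unfold xm
    rw [div_le_one (by positivity)]
    linarith
  have hxm0 : 0 < xm m := by unfold xm; positivity
  have hb : 1 ≤ 16 * (n + 1) ^ 4 := by
    have : 1 ≤ (n + 1) ^ 4 := one_le_pow₀ (by linarith)
    linarith
  have h2 : H ^ (2 + xm m) ≤ (16 * (n + 1) ^ 4) ^ 3 * H' ^ (2 + xm m) := by
    rw [hH, Real.mul_rpow (by positivity) hH'.le]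
    have h3 : (16 * (n + 1) ^ 4) ^ (2 + xm m) ≤ (16 * (n + 1) ^ 4) ^ (3 : ℝ) :=
      Real.rpow_le_rpow_of_exponent_le hb (by linarith)
    have h4 : (16 * (n + 1) ^ 4) ^ (3 : ℝ) = (16 * (n + 1) ^ 4) ^ 3 := by
      rw [← Real.rpow_natCast]; norm_num
    rw [h4] at h3
    gcongr
  calc x * H ^ (2 + xm m) ≤ (64 * (n + 1) ^ 13 * N) * ((16 * (n + 1) ^ 4) ^ 3 * H' ^ (2 + xm m)) := by
        have hHp : 0 ≤ H ^ (2 + xm m) := by rw [hH]; positivity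
        exact mul_le_mul h1 h2 hHp (by positivity)
    _ = 262144 * (n + 1) ^ 25 * (N * H' ^ (2 + xm m)) := by ring
    _ ≤ 262144 * (C9 * R ^ (δ / 2)) * Y := by gcongr
    _ = _ := by ring

theorem caseO (m : ℕ) (R δ ε₀ ε₁ C C9 CO CT CA T g A S e : ℝ) (hR1 : 1 ≤ R) (hδ : 0 < δ)
    (hε₁ : 0 < ε₁) (hg : 0 ≤ g) (hA : 0 < A) (he : 0 ≤ e) (hC9 : 0 ≤ C9) (hCO : 0 ≤ CO)
    (hT0 : 0 ≤ T) (hT : T ≤ CT) (hCA : 0 ≤ CA) (hS0 : 0 ≤ S) (hS : S ≤ CA * e)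
    (hC : 262144 * C9 * CO * CT * CA ≤ C) (hC0 : 0 ≤ C) :
    262144 * C9 * R ^ (δ / 2) * (CO * R ^ (2 * lo m * δ) * T * g * A ^ xm m * R ^ (1 / 3 : ℝ) * S) ≤
      C * (R ^ (ε₁ + lb m * δ) * g + R ^ (lb m * (δ + ε₀))) * A ^ xm m * R ^ (1 / 3 : ℝ) * e := by
  have hR0 : 0 < R := by linarith
  have hCT : 0 ≤ CT := hT0.trans hT
  have h1 : R ^ (δ / 2) * R ^ (2 * lo m * δ) ≤ R ^ (ε₁ + lb m * δ) := by
    rw [← Real.rpow_add hR0]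
    refine Real.rpow_le_rpow_of_exponent_le hR1 ?_
    have h2 : 1 + 2 * lo m ≤ lb m := by
      unfold lo lb
      have : (0 : ℝ) ≤ m := by positivity
      nlinarith
    nlinarith
  calc 262144 * C9 * R ^ (δ / 2) * (CO * R ^ (2 * lo m * δ) * T * g * A ^ xm m *
        R ^ (1 / 3 : ℝ) * S)
      ≤ 262144 * C9 * R ^ (δ / 2) * (CO * R ^ (2 * lo m * δ) * CT * g * A ^ xm m *
        R ^ (1 / 3 : ℝ) * (CA * e)) := by gcongr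
    _ = (262144 * C9 * CO * CT * CA) * ((R ^ (δ / 2) * R ^ (2 * lo m * δ)) * g) * A ^ xm m *
        R ^ (1 / 3 : ℝ) * e := by ring
    _ ≤ C * (R ^ (ε₁ + lb m * δ) * g) * A ^ xm m * R ^ (1 / 3 : ℝ) * e := by gcongr
    _ ≤ _ := by
        gcongr
        have : 0 ≤ R ^ (lb m * (δ + ε₀)) := by positivity
        linarith

theorem caseT (m : ℕ) (hm : 4 ≤ m) (R δ ε₀ ε₁ C C9 CT CA D g A e : ℝ) (hR1 : 1 ≤ R) (hδ : 0 < δ)
    (hε₀ : 0 < ε₀) (hg : 0 ≤ g) (hA : 0 < A) (he : 0 ≤ e) (hC9 : 0 ≤ C9) (hCT : 0 ≤ CT)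
    (hCA : 0 ≤ CA) (hD : 1 ≤ D) (hC : 262144 * C9 * CT * CA * D ≤ C) (hC0 : 0 ≤ C) :
    262144 * C9 * R ^ (δ / 2) * (CT * R ^ ((lb m - 1) * (δ + ε₀)) * (D * A) ^ xm m *
        R ^ (1 / 3 : ℝ) * (CA * e)) ≤
      C * (R ^ (ε₁ + lb m * δ) * g + R ^ (lb m * (δ + ε₀))) * A ^ xm m * R ^ (1 / 3 : ℝ) * e := by
  have hR0 : 0 < R := by linarith
  have hm' : (4 : ℝ) ≤ m := by exact_mod_cast hm
  have hxm : xm m ≤ 1 := by
    unfold xm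
    rw [div_le_one (by positivity)]
    linarith
  have h1 : R ^ (δ / 2) * R ^ ((lb m - 1) * (δ + ε₀)) ≤ R ^ (lb m * (δ + ε₀)) := by
    rw [← Real.rpow_add hR0]
    refine Real.rpow_le_rpow_of_exponent_le hR1 ?_
    nlinarith
  have h2 : (D * A) ^ xm m ≤ D * A ^ xm m := by
    rw [Real.mul_rpow (by linarith) hA.le]
    have h3 : D ^ xm m ≤ D ^ (1 : ℝ) := Real.rpow_le_rpow_of_exponent_le hD hxm
    rw [Real.rpow_one] at h3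
    gcongr
  calc 262144 * C9 * R ^ (δ / 2) * (CT * R ^ ((lb m - 1) * (δ + ε₀)) * (D * A) ^ xm m *
        R ^ (1 / 3 : ℝ) * (CA * e))
      ≤ 262144 * C9 * R ^ (δ / 2) * (CT * R ^ ((lb m - 1) * (δ + ε₀)) * (D * A ^ xm m) *
        R ^ (1 / 3 : ℝ) * (CA * e)) := by gcongr
    _ = (262144 * C9 * CT * CA * D) * (R ^ (δ / 2) * R ^ ((lb m - 1) * (δ + ε₀))) * A ^ xm m *
        R ^ (1 / 3 : ℝ) * e := by ring
    _ ≤ C * R ^ (lb m * (δ + ε₀)) * A ^ xm m * R ^ (1 / 3 : ℝ) * e := by gcongr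
    _ ≤ _ := by
        gcongr
        have : 0 ≤ R ^ (ε₁ + lb m * δ) * g := by positivity
        linarith

/-- choice of the constants -/
theorem constsB (δ ε₀ b₀ CD CT CO CA C7 C9 D : ℝ) (hδ : 0 < δ) (hδ' : δ ≤ 1 / 100) (hε₀ : 0 < ε₀)
    (hb₀ : 0 < b₀) (hCD : 0 < CD) (hCT : 1 ≤ CT) (hCO : 1 ≤ CO) (hCA : 0 ≤ CA) (hC7 : 0 < C7)
    (hC9 : 1 ≤ C9) (hD : 1 ≤ D) : ∃ C : ℝ, 1 ≤ C ∧ CO ≤ C ∧
    262144 * C9 * CO * CT * CA ≤ C ∧ 262144 * C9 * CT * CA * D ≤ C ∧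
    ∀ R : ℝ, C ≤ R → 1 ≤ R ∧ CO ≤ R ^ ε₀ ∧ 2 * CD / b₀ ≤ R ∧ 16 * C9 * C7 / b₀ ≤ R ^ (1 - δ / 2) ∧
      CT ≤ R ^ δ ∧ 8 * CO ≤ R ^ δ ∧ 16 * D * C9 ≤ R ^ (δ / 2) := by
  set C0 : ℝ := 2 * CD / b₀ + 16 * C9 * C7 / b₀ + CT + 8 * CO + 16 * D * C9 with hC0
  have a1 : 0 < 2 * CD / b₀ := by positivity
  have a2 : 0 < 16 * C9 * C7 / b₀ := by positivity
  have a3 : 0 < 16 * D * C9 := by positivity
  have hC01 : 1 ≤ C0 := by linarith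
  have b1 : 0 < C0 ^ (2 / δ) := by positivity
  have b2 : 0 < CO ^ (1 / ε₀) := by positivity
  have b3 : 0 ≤ 262144 * C9 * CO * CT * CA := by positivity
  have b4 : 0 ≤ 262144 * C9 * CT * CA * D := by positivity
  refine ⟨C0 ^ (2 / δ) + CO ^ (1 / ε₀) + 262144 * C9 * CO * CT * CA +
    262144 * C9 * CT * CA * D + CO + 1, by linarith, by linarith, by linarith, by linarith,
    fun R hR => ?_⟩
  have hR1 : 1 ≤ R := by linarith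
  have hR0 : 0 < R := by linarith
  have h1 : C0 ≤ R ^ (δ / 2) := by
    have h2 : C0 ^ (2 / δ) ≤ R := by linarith
    have h3 : (C0 ^ (2 / δ)) ^ (δ / 2) ≤ R ^ (δ / 2) :=
      Real.rpow_le_rpow b1.le h2 (by positivity)
    rw [← Real.rpow_mul (by linarith)] at h3
    have h4 : 2 / δ * (δ / 2) = 1 := by field_simp
    rwa [h4, Real.rpow_one] at h3
  have h5 : CO ≤ R ^ ε₀ := by
    have h2 : CO ^ (1 / ε₀) ≤ R := by linarith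
    have h3 : (CO ^ (1 / ε₀)) ^ ε₀ ≤ R ^ ε₀ := Real.rpow_le_rpow b2.le h2 hε₀.le
    rw [← Real.rpow_mul (by linarith)] at h3
    have h4 : 1 / ε₀ * ε₀ = 1 := by field_simp
    rwa [h4, Real.rpow_one] at h3
  have h6 : R ^ (δ / 2) ≤ R ^ (1 : ℝ) := Real.rpow_le_rpow_of_exponent_le hR1 (by linarith)
  rw [Real.rpow_one] at h6
  have h7 : R ^ (δ / 2) ≤ R ^ δ := Real.rpow_le_rpow_of_exponent_le hR1 (by linarith)
  have h8 : R ^ (δ / 2) ≤ R ^ (1 - δ / 2) := Real.rpow_le_rpow_of_exponent_le hR1 (by linarith)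
  refine ⟨hR1, h5, by linarith, by linarith, by linarith, by linarith, by linarith⟩

end Pool.Agent.H83.G.BRO
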