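import Pool.Agent.H83.G.TEN

/-! Theorem G: the two-ends case, main part. -/

set_option autoImplicit false

namespace Pool.Agent.H83.G.TEN

open Pool.Agent.H83.G MeasureTheory Set
open scoped ENNReal NNReal RealInnerProductSpace

theorem lossle {CL R δ ε₀ c1 C' e : ℝ} (hR1 : 1 ≤ R) (h0 : 0 ≤ C') (h : C' ≤ CL)
    (he : e ≤ c1 * (δ + ε₀)) : C' * R ^ e ≤ CL * R ^ (c1 * (δ + ε₀)) := by
  have hR0 : 0 < R := by linarith
  exact mul_le_mul h (Real.rpow_le_rpow_of_exponent_le hR1 he) (by positivity) (by linarith)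

theorem ineqE {α γ : Type} [DecidableEq γ] (S : Finset α) (tb : α → γ) (al : α → ℝ)
    (m a b R En : ℝ) (hR : 1 ≤ R) (ha : 0 < a)
    (h1 : ∀ W ∈ S, b ≤ ((S.filter (fun W' => tb W' = tb W)).card : ℝ))
    (h2 : ∀ W ∈ S, a ≤ al W)
    (hE : ∑ W ∈ S, al W ^ 2 * R ^ ((m + 2) / 2) ≤ En) :
    ((S.image tb).card : ℝ) * b * a ^ 2 * R ^ (m / 2) ≤ En * R⁻¹ := by
  have hR0 : 0 < R := by linarith
  have e1 := card_tb S tb b h1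
  have e2 : (S.card : ℝ) * a ^ 2 * R ^ ((m + 2) / 2) ≤ En := by
    refine le_trans ?_ hE
    rw [mul_assoc, ← nsmul_eq_mul]
    refine Finset.card_nsmul_le_sum _ _ _ (fun W hW => ?_)
    have := h2 W hW
    gcongr
  have e3 : R ^ (m / 2) = R ^ ((m + 2) / 2) * R⁻¹ := by
    rw [← Real.rpow_neg_one R, ← Real.rpow_add hR0]; congr 1; ring
  calc ((S.image tb).card : ℝ) * b * a ^ 2 * R ^ (m / 2)
      ≤ S.card * a ^ 2 * R ^ (m / 2) := by gcongr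
    _ = (S.card * a ^ 2 * R ^ ((m + 2) / 2)) * R⁻¹ := by rw [e3]; ring
    _ ≤ En * R⁻¹ := by gcongr

/-- everything numerical is fed to the linear programme -/
theorem core (hALG : Pool.Agent.H22.G.T_ALG) (m : ℕ) (hm : 4 ≤ m)
    (δ ε₀ R CL C₁ C₂ C₃ C₄ C₅ C₆ C₈ C₉ B A En N Q H c1 : ℝ) (M₁ M t b a sc : Fin 3 → ℝ)
    (hc1 : c1 = 1000 * ((m : ℝ) + 2)) (hδ : 0 < δ) (hε : 0 < ε₀) (hR1 : 1 ≤ R) (hA : 0 < A)
    (hEn : 0 < En) (hN : 0 < N) (hQ : 0 < Q) (hH : 0 < H)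
    (k0 : 1 ≤ CL) (k1 : 2 * C₁ ≤ CL) (k2 : C₂ ≤ CL) (k3 : C₃ ≤ CL) (k4 : C₄ * (2 * C₉) ≤ CL)
    (k5 : C₅ ≤ CL) (k6 : 2 * C₆ ≤ CL) (k8 : C₈ ≤ CL) (kB : B ≤ CL)
    (p1 : 1 ≤ C₁) (p2 : 1 ≤ C₂) (p3 : 1 ≤ C₃) (p4 : 1 ≤ C₄) (p5 : 1 ≤ C₅) (p6 : 1 ≤ C₆)
    (p9 : 1 ≤ C₉) (pB : 1 ≤ B)
    (hM₁ : ∀ i, 0 < M₁ i) (hM : ∀ i, 0 < M i) (ht : ∀ i, 0 < t i) (hb : ∀ i, 0 < b i)
    (ha : ∀ i, 0 < a i)
    (e1 : ∀ i, t i * b i * a i ^ 2 * R ^ ((m : ℝ) / 2) ≤ En * R⁻¹)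
    (e2 : En ≤ B * R ^ (lo m * δ) * (A ^ 2 * R ^ ((m : ℝ) + 2)))
    (e3 : ∀ i, Q * M i ≤ C₅ * R ^ (1 / 2 + 2 * ((m : ℝ) + 1) * δ) * t i)
    (e4 : ∀ i j, i ≠ j → Q * M i * M j ^ 2 ≤ C₄ * (2 * (C₉ * R ^ (2 * δ))) *
      R ^ (6 * ((m : ℝ) + 2) * (δ + ε₀)) * t i * t j)
    (e5 : N * (M₁ 0 * M₁ 1 * M₁ 2) ≤ C₃ * R ^ (6 * δ) * Q *
      ((M 0 * b 0) * (M 1 * b 1) * (M 2 * b 2)) * R ^ (((m : ℝ) - 1) / 2))
    (e6 : ∀ i, N * H ^ 2 ≤ C₂ * R ^ (2 * lo m * δ) * Q * M i * b i * a i ^ 2 *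
      R ^ (((m : ℝ) + 1) / 2))
    (e7 : ∀ i, N * H ^ (2 * ((m : ℝ) + 2) / m) ≤ C₁ * R ^ (4 * lo m * (δ + ε₀)) *
      M₁ i ^ (2 / (m : ℝ)) * a i ^ (2 * ((m : ℝ) + 2) / m) * sc i * R ^ (((m : ℝ) + 2) / 2))
    (e7' : ∀ i, sc i ≤ t i * (2 * b i))
    (e8 : ∀ i, M₁ i ≤ 2 * M i * (C₆ * R ^ (((m : ℝ) + 2) * δ)))
    (e9 : ∀ i, a i ≤ C₈ * A) (p8 : 0 < C₈) :
    N * H ^ (2 + xm m) ≤ (CL * R ^ (c1 * (δ + ε₀))) ^ 3 * A ^ xm m * R ^ (4 / 3 : ℝ) *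
      (En * R⁻¹) := by
  have hR0 : 0 < R := by linarith
  have hm' : (4 : ℝ) ≤ m := by exact_mod_cast hm
  set L : ℝ := CL * R ^ (c1 * (δ + ε₀)) with hL
  have hde : 0 < δ + ε₀ := by linarith
  have hc0 : 0 ≤ c1 := by rw [hc1]; positivity
  have hRc : 1 ≤ R ^ (c1 * (δ + ε₀)) := Real.one_le_rpow hR1 (by positivity)
  have hL1 : 1 ≤ L := by
    have := mul_le_mul k0 hRc zero_le_one (by linarith)
    linarith
  have hCLL : CL ≤ L := by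
    have := mul_le_mul_of_nonneg_left hRc (by linarith : (0:ℝ) ≤ CL)
    linarith
  have hE0 : 0 < En * R⁻¹ := by positivity
  have hlo : lo m = 100 * ((m : ℝ) + 2) := rfl
  have key := hALG m hm N H Q (En * R⁻¹) A L R M₁ M t b a hN hH hQ hE0 hA hL1 hR1 hM₁ hM ht hb ha
    ?_ ?_ ?_ ?_ ?_ ?_ ?_ ?_ ?_
  · exact key
  · intro i
    refine (e1 i).trans ?_
    exact le_mul_of_one_le_left hE0.le hL1
  · -- E ≤ L A² R^(m+1)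
    have f1 : B * R ^ (lo m * δ) ≤ L := by
      refine lossle hR1 (by linarith) kB ?_
      rw [hlo, hc1]
      nlinarith [mul_nonneg (by positivity : (0:ℝ) ≤ (m : ℝ) + 2) hδ.le,
        mul_nonneg (by positivity : (0:ℝ) ≤ (m : ℝ) + 2) hε.le]
    have f2 : R ^ ((m : ℝ) + 2) * R⁻¹ = R ^ ((m : ℝ) + 1) := by
      rw [← Real.rpow_neg_one R, ← Real.rpow_add hR0]; congr 1; ring
    calc En * R⁻¹ ≤ B * R ^ (lo m * δ) * (A ^ 2 * R ^ ((m : ℝ) + 2)) * R⁻¹ := by gcongr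
      _ = (B * R ^ (lo m * δ)) * (A ^ 2 * (R ^ ((m : ℝ) + 2) * R⁻¹)) := by ring
      _ ≤ L * (A ^ 2 * (R ^ ((m : ℝ) + 2) * R⁻¹)) := by gcongr
      _ = L * A ^ 2 * R ^ ((m : ℝ) + 1) := by rw [f2]; ring
  · intro i
    have f1 : C₅ * R ^ (2 * ((m : ℝ) + 1) * δ) ≤ L := by
      refine lossle hR1 (by linarith) k5 ?_
      rw [hc1]
      nlinarith [mul_nonneg (by positivity : (0:ℝ) ≤ (m : ℝ) + 2) hδ.le,
        mul_nonneg (by positivity : (0:ℝ) ≤ (m : ℝ) + 2) hε.le]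
    have f2 : R ^ (1 / 2 + 2 * ((m : ℝ) + 1) * δ) =
        R ^ (2 * ((m : ℝ) + 1) * δ) * R ^ (1 / 2 : ℝ) := by
      rw [← Real.rpow_add hR0]; congr 1; ring
    calc Q * M i ≤ C₅ * R ^ (1 / 2 + 2 * ((m : ℝ) + 1) * δ) * t i := e3 i
      _ = (C₅ * R ^ (2 * ((m : ℝ) + 1) * δ)) * (t i * R ^ (1 / 2 : ℝ)) := by rw [f2]; ring
      _ ≤ L * (t i * R ^ (1 / 2 : ℝ)) := by
          have := ht i
          gcongr
      _ = L * t i * R ^ (1 / 2 : ℝ) := by ring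
  · intro i j hij
    have f1 : C₄ * (2 * C₉) * R ^ (2 * δ + 6 * ((m : ℝ) + 2) * (δ + ε₀)) ≤ L := by
      refine lossle hR1 (by positivity) k4 ?_
      rw [hc1]
      nlinarith [mul_nonneg (by positivity : (0:ℝ) ≤ (m : ℝ) + 2) hδ.le,
        mul_nonneg (by positivity : (0:ℝ) ≤ (m : ℝ) + 2) hε.le]
    have f2 : R ^ (2 * δ + 6 * ((m : ℝ) + 2) * (δ + ε₀)) =
        R ^ (2 * δ) * R ^ (6 * ((m : ℝ) + 2) * (δ + ε₀)) := by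
      rw [← Real.rpow_add hR0]
    calc Q * M i * M j ^ 2 ≤ C₄ * (2 * (C₉ * R ^ (2 * δ))) *
          R ^ (6 * ((m : ℝ) + 2) * (δ + ε₀)) * t i * t j := e4 i j hij
      _ = (C₄ * (2 * C₉) * R ^ (2 * δ + 6 * ((m : ℝ) + 2) * (δ + ε₀))) * (t i * t j) := by
          rw [f2]; ring
      _ ≤ L * (t i * t j) := by
          have h1 := ht i
          have h2 := ht j
          gcongr
      _ = L * t i * t j := by ring
  · have f1 : C₃ * R ^ (6 * δ) ≤ L := by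
      refine lossle hR1 (by linarith) k3 ?_
      rw [hc1]
      nlinarith [mul_nonneg (by positivity : (0:ℝ) ≤ (m : ℝ)) hδ.le,
        mul_nonneg (by positivity : (0:ℝ) ≤ (m : ℝ) + 2) hε.le]
    have h0 := mul_pos (mul_pos (mul_pos (hM 0) (hb 0)) (mul_pos (hM 1) (hb 1)))
      (mul_pos (hM 2) (hb 2))
    calc N * (M₁ 0 * M₁ 1 * M₁ 2) ≤ C₃ * R ^ (6 * δ) * Q *
      ((M 0 * b 0) * (M 1 * b 1) * (M 2 * b 2)) * R ^ (((m : ℝ) - 1) / 2) := e5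
      _ ≤ L * Q * ((M 0 * b 0) * (M 1 * b 1) * (M 2 * b 2)) * R ^ (((m : ℝ) - 1) / 2) := by
          gcongr
  · intro i
    have f1 : C₂ * R ^ (2 * lo m * δ) ≤ L := by
      refine lossle hR1 (by linarith) k2 ?_
      rw [hlo, hc1]
      nlinarith [mul_nonneg (by positivity : (0:ℝ) ≤ (m : ℝ) + 2) hδ.le,
        mul_nonneg (by positivity : (0:ℝ) ≤ (m : ℝ) + 2) hε.le]
    have h1 := hM i
    have h2 := hb i
    have h3 := ha i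
    calc N * H ^ 2 ≤ _ := e6 i
      _ ≤ L * Q * M i * b i * a i ^ 2 * R ^ (((m : ℝ) + 1) / 2) := by gcongr
  · intro i
    have f1 : 2 * C₁ * R ^ (4 * lo m * (δ + ε₀)) ≤ L := by
      refine lossle hR1 (by linarith) k1 ?_
      rw [hlo, hc1]
      nlinarith [mul_nonneg (by positivity : (0:ℝ) ≤ (m : ℝ) + 2) hde.le]
    have h1 := ht i
    have h2 := hb i
    have h3 := ha i
    have h4 := hM₁ i
    calc N * H ^ (2 * ((m : ℝ) + 2) / m) ≤ _ := e7 i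
      _ ≤ C₁ * R ^ (4 * lo m * (δ + ε₀)) *
          M₁ i ^ (2 / (m : ℝ)) * a i ^ (2 * ((m : ℝ) + 2) / m) * (t i * (2 * b i)) *
            R ^ (((m : ℝ) + 2) / 2) := by
          gcongr
          exact e7' i
      _ = (2 * C₁ * R ^ (4 * lo m * (δ + ε₀))) * (M₁ i ^ (2 / (m : ℝ)) *
          a i ^ (2 * ((m : ℝ) + 2) / m) * t i * b i * R ^ (((m : ℝ) + 2) / 2)) := by ring
      _ ≤ L * (M₁ i ^ (2 / (m : ℝ)) *
          a i ^ (2 * ((m : ℝ) + 2) / m) * t i * b i * R ^ (((m : ℝ) + 2) / 2)) := by gcongr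
      _ = _ := by ring
  · intro i
    have f1 : 2 * C₆ * R ^ (((m : ℝ) + 2) * δ) ≤ L := by
      refine lossle hR1 (by linarith) k6 ?_
      rw [hc1]
      nlinarith [mul_nonneg (by positivity : (0:ℝ) ≤ (m : ℝ) + 2) hδ.le,
        mul_nonneg (by positivity : (0:ℝ) ≤ (m : ℝ) + 2) hε.le]
    have h1 := hM i
    calc M₁ i ≤ 2 * M i * (C₆ * R ^ (((m : ℝ) + 2) * δ)) := e8 i
      _ = (2 * C₆ * R ^ (((m : ℝ) + 2) * δ)) * M i := by ring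
      _ ≤ L * M i := by gcongr
  · intro i
    refine (e9 i).trans ?_
    gcongr
    exact k8.trans hCLL

end Pool.Agent.H83.G.TEN
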