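import Pool.Agent.H83.G.Targets5

/-! Theorem G: auxiliary lemmas for the two-ends case. -/

set_option autoImplicit false

namespace Pool.Agent.H83.G

open MeasureTheory Set
open scoped ENNReal NNReal RealInnerProductSpace

/-- TEN2: two ends, with a slightly better exponent -/
def T_TEN2 : Prop := ∀ (m L : ℕ) (β : E m → ℂ) (Ψ : Z m → ℂ) (ψ : Z m → ℝ) (K δ ε₀ b₀ B : ℝ),
  4 ≤ m → IsPU β → IsPsi Ψ ψ → 1 ≤ K → 0 < δ → δ ≤ 1 / 100 → 0 < ε₀ → ε₀ ≤ 1 / 4 → 0 < b₀ →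
  1 ≤ B → ∃ N₀ : ℕ, ∀ N : ℕ, N₀ ≤ N → ∃ C : ℝ, 1 ≤ C ∧
  ∀ (κ R A H En : ℝ) (G : Fin 3 → Z m → ℂ) (c : Fin 3 → E m) (z₀ : Z m)
  (S : Fin 3 → Finset (Pk m)) (a b : Fin 3 → ℝ) (l k : Fin 3 → ℕ) (QQ : Finset (Zi m)) (ν : ℝ)
  (X : Finset (Z m)), 0 ≤ κ → κ ≤ 3 / 8 → 1 ≤ R → C ≤ R ^ δ → 0 < A → 0 < H → b₀ * A ≤ R ^ δ * H →
  0 < En → (∀ i, Cls L κ R A (G i)) → (∀ i, ‖c i‖ ≤ 4 * m + 4) →
  (∀ i j, i ≠ j → 4 / K ≤ ‖c i - c j‖) →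
  Sep X → (∀ z ∈ X, ‖z - z₀‖ ≤ R) →
  (∀ i, ∀ W ∈ S i, W.1 ∈ Ks m (sR R) ∧ (∃ z, ‖z - z₀‖ ≤ R ∧ near R δ W z) ∧
    ‖ctr (sR R) W.1‖ ≤ 3 ∧ ‖ctr (sR R) W.1 - c i‖ ≤ 1 / K + sR R ∧
    a i ≤ al N β R δ (G i) W ∧
    al N β R δ (G i) W ≤ 2 * a i) →
  (∀ i, ((S i).card : ℝ) ≤ B * R ^ (2 * ((m : ℝ) + 2))) →
  (∀ i, 0 < a i ∧ 1 ≤ b i) →
  (∀ i, ∀ W ∈ S i, b i ≤ (((S i).filter (fun W' => tb R W' = tb R W)).card : ℝ) ∧
    (((S i).filter (fun W' => tb R W' = tb R W)).card : ℝ) ≤ 2 * b i) →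
  (∀ i, ∑ W ∈ S i, al N β R δ (G i) W ^ 2 * R ^ (((m : ℝ) + 2) / 2) ≤ En) →
  En ≤ B * R ^ (lo m * δ) * (A ^ 2 * R ^ ((m : ℝ) + 2)) →
  0 < ν → ν * QQ.card ≤ R ^ δ * X.card →
  (∀ q, ((X.filter (fun z => cb (Real.sqrt R) z = q)).card : ℝ) ≤ 2 * ν) →
  (∀ z ∈ X, cb (Real.sqrt R) z ∈ QQ) →
  (∀ q ∈ QQ, ‖Real.sqrt R • zc q - z₀‖ ≤ ((m : ℝ) + 2) * R) →
  (∀ i, C ≤ (2 : ℝ) ^ k i) →
  (∀ z ∈ X, ∀ i, H ≤ ‖∑ W ∈ SB QQ R (R ^ (1 - ε₀)) δ (l i) (k i) (S i)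
    (bl R (R ^ (1 - ε₀)) (cb (Real.sqrt R) z)), Fp β ψ R δ (G i) W z‖) →
  (X.card : ℝ) * H ^ (2 + xm m) ≤
    C * R ^ ((lb m - 1) * (δ + ε₀)) * A ^ xm m * R ^ (1 / 3 : ℝ) * En

end Pool.Agent.H83.G

namespace Pool.Agent.H83.G.TEN

open Pool.Agent.H83.G MeasureTheory Set
open scoped ENNReal NNReal RealInnerProductSpace

/-- iterated pigeonhole -/
theorem pg (hPG4 : Pool.Agent.H22.G.T_PG4) {α : Type} (n : ℕ) :
    ∀ (j : ℕ) (X : Finset α) (v : Fin j → α → ℕ), (∀ z ∈ X, ∀ i, 1 ≤ v i z ∧ v i z ≤ 2 ^ n) →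
    ∃ (X' : Finset α) (a : Fin j → ℕ), X' ⊆ X ∧ (∀ i, 1 ≤ a i) ∧
      X.card ≤ (n + 1) ^ j * X'.card ∧ ∀ z ∈ X', ∀ i, a i ≤ v i z ∧ v i z < 2 * a i := by
  intro j
  induction j with
  | zero =>
    intro X v _
    exact ⟨X, fun i => i.elim0, Finset.Subset.refl _, fun i => i.elim0, by simp,
      fun z _ i => i.elim0⟩
  | succ j ih =>
    intro X v hv
    obtain ⟨X₁, a₁, h1, h2, h3, h4⟩ := ih X (fun i => v i.castSucc) (fun z hz i => hv z hz _)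
    obtain ⟨X₂, a₂, g1, g2, g3, g4⟩ := hPG4 α X₁ (v (Fin.last j)) n
      (fun z hz => hv z (h1 hz) _)
    refine ⟨X₂, Fin.snoc (α := fun _ => ℕ) a₁ a₂, g1.trans h1, ?_, ?_, ?_⟩
    · intro i
      refine Fin.lastCases ?_ (fun i => ?_) i
      · simpa using g2
      · simpa using h2 i
    · calc X.card ≤ (n + 1) ^ j * X₁.card := h3
        _ ≤ (n + 1) ^ j * ((n + 1) * X₂.card) := Nat.mul_le_mul_left _ g3
        _ = (n + 1) ^ (j + 1) * X₂.card := by ring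
    · intro z hz i
      refine Fin.lastCases ?_ (fun i => ?_) i
      · simpa using g4 z hz
      · simpa using h4 z (g1 hz) i

/-- logarithmic number of classes -/
theorem logn (M B δ : ℝ) (hM : 0 ≤ M) (hB : 1 ≤ B) (hδ : 0 < δ) (j : ℕ) : ∃ C : ℝ, 1 ≤ C ∧
    ∀ R : ℝ, 1 ≤ R → ∃ n : ℕ, B * R ^ M ≤ 2 ^ n ∧ ((n : ℝ) + 1) ^ j ≤ C * R ^ δ := by
  -- n = ⌈ logb 2 (B R^M) ⌉
  set θ : ℝ := δ / (j + 1) with hθ
  have hj : (0 : ℝ) < (j : ℝ) + 1 := by positivity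
  have hθ0 : 0 < θ := div_pos hδ hj
  have hl2 : 0 < Real.log 2 := Real.log_pos (by norm_num)
  set c0 : ℝ := (Real.log B / Real.log 2 + 2) + M / (Real.log 2 * θ) with hc0
  have hlogB : 0 ≤ Real.log B := Real.log_nonneg hB
  have hc0' : 1 ≤ c0 := by
    have h1 : 0 ≤ Real.log B / Real.log 2 := div_nonneg hlogB hl2.le
    have h2 : 0 ≤ M / (Real.log 2 * θ) := by positivity
    rw [hc0]; linarith
  refine ⟨c0 ^ j, one_le_pow₀ hc0', fun R hR => ?_⟩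
  have hR0 : 0 < R := by linarith
  have hBR : 1 ≤ B * R ^ M := by
    have : 1 ≤ R ^ M := Real.one_le_rpow hR hM
    nlinarith
  have hlog0 : 0 ≤ Real.log (B * R ^ M) / Real.log 2 := div_nonneg (Real.log_nonneg hBR) hl2.le
  refine ⟨⌈Real.log (B * R ^ M) / Real.log 2⌉₊, ?_, ?_⟩
  · have h1 := Nat.le_ceil (Real.log (B * R ^ M) / Real.log 2)
    rw [div_le_iff₀ hl2] at h1
    have h2 : Real.log (B * R ^ M) ≤ Real.log ((2 : ℝ) ^ ⌈Real.log (B * R ^ M) / Real.log 2⌉₊) := by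
      rw [Real.log_pow]; exact h1
    exact (Real.log_le_log_iff (by linarith) (by positivity)).1 h2
  · have h1 : ((⌈Real.log (B * R ^ M) / Real.log 2⌉₊ : ℕ) : ℝ) + 1 ≤
        Real.log (B * R ^ M) / Real.log 2 + 2 := by
      have := Nat.ceil_lt_add_one hlog0
      linarith
    have h2 : Real.log (B * R ^ M) = Real.log B + M * Real.log R := by
      rw [Real.log_mul (by positivity) (by positivity), Real.log_rpow hR0]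
    have h3 : Real.log R ≤ R ^ θ / θ := Real.log_le_rpow_div hR0.le hθ0
    have hRθ : 1 ≤ R ^ θ := Real.one_le_rpow hR hθ0.le
    have h4 : ((⌈Real.log (B * R ^ M) / Real.log 2⌉₊ : ℕ) : ℝ) + 1 ≤ c0 * R ^ θ := by
      refine h1.trans ?_
      rw [h2]
      have h5 : (Real.log B + M * Real.log R) / Real.log 2 + 2 ≤
          (Real.log B + M * (R ^ θ / θ)) / Real.log 2 + 2 := by gcongr
      refine h5.trans ?_
      have h6 : (Real.log B + M * (R ^ θ / θ)) / Real.log 2 + 2 =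
          (Real.log B / Real.log 2 + 2) * 1 + M / (Real.log 2 * θ) * R ^ θ := by
        field_simp
        ring
      rw [h6, hc0, add_mul]
      have h7 : 0 ≤ Real.log B / Real.log 2 + 2 := by
        have : 0 ≤ Real.log B / Real.log 2 := div_nonneg hlogB hl2.le
        linarith
      have h12 := mul_le_mul_of_nonneg_left hRθ h7
      linarith
    calc (((⌈Real.log (B * R ^ M) / Real.log 2⌉₊ : ℕ) : ℝ) + 1) ^ j ≤ (c0 * R ^ θ) ^ j := by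
          gcongr
      _ = c0 ^ j * (R ^ θ) ^ j := mul_pow _ _ _
      _ ≤ c0 ^ j * R ^ δ := by
          have h8 : (R ^ θ) ^ j = R ^ (θ * j) := by
            rw [Real.rpow_mul hR0.le, Real.rpow_natCast]
          rw [h8]
          have h9 : θ * j ≤ δ := by
            rw [hθ, div_mul_eq_mul_div, div_le_iff₀ hj]
            nlinarith
          have h10 : R ^ (θ * j) ≤ R ^ δ := Real.rpow_le_rpow_of_exponent_le hR h9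
          have h11 : 0 ≤ c0 ^ j := by positivity
          exact mul_le_mul_of_nonneg_left h10 h11

/-- number of planks at least number of tubes times planks per tube, and at most -/
theorem card_tb {α γ : Type} [DecidableEq γ] (S : Finset α) (tb : α → γ) (b : ℝ)
    (h1 : ∀ W ∈ S, b ≤ ((S.filter (fun W' => tb W' = tb W)).card : ℝ)) :
    ((S.image tb).card : ℝ) * b ≤ S.card := by
  classical
  have h2 : (S.card : ℝ) = ∑ T ∈ S.image tb, ((S.filter (fun W' => tb W' = T)).card : ℝ) := by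
    rw [← Nat.cast_sum, ← Finset.card_eq_sum_card_image]
  rw [h2, ← nsmul_eq_mul]
  refine Finset.card_nsmul_le_sum _ _ _ (fun T hT => ?_)
  obtain ⟨W, hW, rfl⟩ := Finset.mem_image.1 hT
  exact h1 W hW

theorem card_tb' {α γ : Type} [DecidableEq γ] (S : Finset α) (tb : α → γ) (b : ℝ)
    (h1 : ∀ W ∈ S, ((S.filter (fun W' => tb W' = tb W)).card : ℝ) ≤ b) :
    (S.card : ℝ) ≤ ((S.image tb).card : ℝ) * b := by
  classical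
  have h2 : (S.card : ℝ) = ∑ T ∈ S.image tb, ((S.filter (fun W' => tb W' = T)).card : ℝ) := by
    rw [← Nat.cast_sum, ← Finset.card_eq_sum_card_image]
  rw [h2, ← nsmul_eq_mul]
  refine Finset.sum_le_card_nsmul _ _ _ (fun T hT => ?_)
  obtain ⟨W, hW, rfl⟩ := Finset.mem_image.1 hT
  exact h1 W hW

theorem neg_contra (b₀ A R δ H C₇ : ℝ) (hb₀ : 0 < b₀) (hA : 0 < A) (hR1 : 1 ≤ R)
    (hδ' : δ ≤ 1 / 100) (hC₇ : 0 < C₇) (hAH : b₀ * A ≤ R ^ δ * H) (e9 : C₇ / b₀ < R ^ δ)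
    (e4 : H ≤ C₇ * A * R ^ (-1 : ℝ)) : False := by
  have hR0 : 0 < R := by linarith
  have hRδ : 0 < R ^ δ := Real.rpow_pos_of_pos hR0 _
  have e5 : b₀ * A ≤ R ^ δ * (C₇ * A * R ^ (-1 : ℝ)) := by
    refine hAH.trans ?_
    exact mul_le_mul_of_nonneg_left e4 hRδ.le
  have e6 : R ^ δ * (C₇ * A * R ^ (-1 : ℝ)) = C₇ * R ^ (δ - 1) * A := by
    rw [show δ - 1 = δ + (-1) by ring, Real.rpow_add hR0]; ring
  rw [e6] at e5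
  have e7 : b₀ ≤ C₇ * R ^ (δ - 1) := le_of_mul_le_mul_right e5 hA
  have e8 : R ^ (δ - 1) * R ^ δ ≤ 1 := by
    rw [← Real.rpow_add hR0]
    exact Real.rpow_le_one_of_one_le_of_nonpos hR1 (by linarith)
  have e10 : C₇ < R ^ δ * b₀ := by rwa [div_lt_iff₀ hb₀] at e9
  have e11 : R ^ δ * b₀ ≤ C₇ := by
    calc R ^ δ * b₀ ≤ R ^ δ * (C₇ * R ^ (δ - 1)) :=
          mul_le_mul_of_nonneg_left e7 hRδ.le
      _ = C₇ * (R ^ (δ - 1) * R ^ δ) := by ring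
      _ ≤ C₇ * 1 := mul_le_mul_of_nonneg_left e8 hC₇.le
      _ = C₇ := mul_one _
  linarith

theorem sep_caps {m : ℕ} (K s : ℝ) (x y c d : E m) (hK : 1 ≤ K) (hs : s ≤ 1 / (2 * K))
    (h1 : ‖x - c‖ ≤ 1 / K + s) (h2 : ‖y - d‖ ≤ 1 / K + s) (h3 : 4 / K ≤ ‖c - d‖) :
    1 / K ≤ ‖x - y‖ := by
  have e4 : ‖c - d‖ ≤ ‖x - c‖ + ‖x - y‖ + ‖y - d‖ := by
    have : c - d = -(x - c) + (x - y) + (y - d) := by abel
    rw [this]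
    refine (norm_add_le _ _).trans ?_
    gcongr
    refine (norm_add_le _ _).trans ?_
    rw [norm_neg]
  have e5 : 4 / K = 4 * (1 / K) := by ring
  have e6 : 1 / (2 * K) = (1 / K) / 2 := by field_simp
  rw [e5] at h3
  rw [e6] at hs
  linarith

/-- choice of the constants -/
theorem consts (K b₀ B C₁ C₂ C₃ C₄ C₅ C₆ C₇ C₈ C₉ : ℝ) (hK : 1 ≤ K) (hb₀ : 0 < b₀) (hB : 1 ≤ B)
    (h1 : 1 ≤ C₁) (h2 : 1 ≤ C₂) (h3 : 1 ≤ C₃) (h4 : 1 ≤ C₄) (h5 : 1 ≤ C₅) (h6 : 1 ≤ C₆)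
    (h7 : 0 < C₇) (h8 : 0 < C₈) (h9 : 1 ≤ C₉) : ∃ CL C : ℝ, 1 ≤ CL ∧ 2 * C₁ ≤ CL ∧ C₂ ≤ CL ∧
      C₃ ≤ CL ∧ C₄ * (2 * C₉) ≤ CL ∧ C₅ ≤ CL ∧ 2 * C₆ ≤ CL ∧ C₈ ≤ CL ∧ B ≤ CL ∧ 1 ≤ C ∧
      C₁ ≤ C ∧ C₂ ≤ C ∧ C₄ ≤ C ∧ C₇ / b₀ < C ∧ 2 * K ≤ C ∧ C₉ * CL ^ 3 ≤ C := by
  have a1 : 0 < C₇ / b₀ := div_pos h7 hb₀
  have a2 : 0 ≤ C₄ * (2 * C₉) := by positivity
  refine ⟨2 * C₁ + C₂ + C₃ + C₄ * (2 * C₉) + C₅ + 2 * C₆ + C₈ + B,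
    C₁ + C₂ + C₄ + C₇ / b₀ + 2 * K +
      C₉ * (2 * C₁ + C₂ + C₃ + C₄ * (2 * C₉) + C₅ + 2 * C₆ + C₈ + B) ^ 3, ?_⟩
  have a3 : 0 ≤ C₉ * (2 * C₁ + C₂ + C₃ + C₄ * (2 * C₉) + C₅ + 2 * C₆ + C₈ + B) ^ 3 := by
    positivity
  generalize C₉ * (2 * C₁ + C₂ + C₃ + C₄ * (2 * C₉) + C₅ + 2 * C₆ + C₈ + B) ^ 3 = x at a3 ⊢
  generalize C₄ * (2 * C₉) = y at a2 ⊢
  refine ⟨?_, ?_, ?_, ?_, ?_, ?_, ?_, ?_, ?_, ?_, ?_, ?_, ?_, ?_, ?_, ?_⟩ <;> linarith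

/-- final numerical step -/
theorem final_num (m : ℕ) (δ ε₀ R CL C C₉ A En x N H : ℝ) (c1 : ℝ) (hm : 4 ≤ m)
    (hδ : 0 < δ) (hε : 0 < ε₀) (hR1 : 1 ≤ R) (hA : 0 < A) (hEn : 0 < En) (hC₉ : 1 ≤ C₉)
    (hc1 : c1 = 1000 * ((m : ℝ) + 2)) (hCC : C₉ * CL ^ 3 ≤ C) (hCL : 1 ≤ CL) (hH : 0 < H)
    (hx : x ≤ C₉ * R ^ δ * N)
    (hN : N * H ^ (2 + xm m) ≤ (CL * R ^ (c1 * (δ + ε₀))) ^ 3 * A ^ xm m * R ^ (4 / 3 : ℝ) *
      (En * R⁻¹)) :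
    x * H ^ (2 + xm m) ≤ C * R ^ ((lb m - 1) * (δ + ε₀)) * A ^ xm m * R ^ (1 / 3 : ℝ) * En := by
  have hR0 : 0 < R := by linarith
  have hHp : 0 ≤ H ^ (2 + xm m) := by positivity
  have hCL0 : 0 ≤ CL := by linarith
  have hC0 : 0 ≤ C := le_trans (by positivity) hCC
  have e1 : R ^ (4 / 3 : ℝ) * (En * R⁻¹) = R ^ (1 / 3 : ℝ) * En := by
    have : R ^ (4 / 3 : ℝ) = R ^ (1 / 3 : ℝ) * R := by
      rw [show (4 / 3 : ℝ) = 1 / 3 + 1 by norm_num, Real.rpow_add hR0, Real.rpow_one]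
    rw [this]; field_simp
  have e2 : (CL * R ^ (c1 * (δ + ε₀))) ^ 3 = CL ^ 3 * R ^ (3 * c1 * (δ + ε₀)) := by
    rw [mul_pow, ← Real.rpow_natCast (R ^ (c1 * (δ + ε₀))) 3, ← Real.rpow_mul hR0.le]
    congr 2; push_cast; ring
  have e3 : R ^ δ * R ^ (3 * c1 * (δ + ε₀)) ≤ R ^ ((lb m - 1) * (δ + ε₀)) := by
    rw [← Real.rpow_add hR0]
    refine Real.rpow_le_rpow_of_exponent_le hR1 ?_
    have hm' : (4 : ℝ) ≤ m := by exact_mod_cast hm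
    have a1 : 3 * c1 + 1 ≤ lb m - 1 := by
      rw [hc1]; unfold lb; nlinarith
    have a2 : 0 < δ + ε₀ := by linarith
    nlinarith
  calc x * H ^ (2 + xm m) ≤ (C₉ * R ^ δ * N) * H ^ (2 + xm m) :=
        mul_le_mul_of_nonneg_right hx hHp
    _ = (C₉ * R ^ δ) * (N * H ^ (2 + xm m)) := by ring
    _ ≤ (C₉ * R ^ δ) * ((CL * R ^ (c1 * (δ + ε₀))) ^ 3 * A ^ xm m * R ^ (4 / 3 : ℝ) *
          (En * R⁻¹)) := mul_le_mul_of_nonneg_left hN (by positivity)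
    _ = (C₉ * CL ^ 3) * (R ^ δ * R ^ (3 * c1 * (δ + ε₀))) * A ^ xm m *
          (R ^ (4 / 3 : ℝ) * (En * R⁻¹)) := by rw [e2]; ring
    _ = (C₉ * CL ^ 3) * (R ^ δ * R ^ (3 * c1 * (δ + ε₀))) * A ^ xm m *
          (R ^ (1 / 3 : ℝ) * En) := by rw [e1]
    _ ≤ C * R ^ ((lb m - 1) * (δ + ε₀)) * A ^ xm m * (R ^ (1 / 3 : ℝ) * En) := by
        gcongr
    _ = _ := by ring

end Pool.Agent.H83.G.TEN
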