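import Pool.Agent.H83.G.Defs

/-!
Theorem G (MP_ee74d2_an): targets of group W (Fourier analysis, weights, Lorentz maps).
-/

set_option autoImplicit false

namespace Pool.Agent.H83.G

open MeasureTheory Set
open scoped ENNReal NNReal RealInnerProductSpace

/-- LOA: algebra of the Lorentz maps -/
def T_LOA : Prop := ∀ (m : ℕ),
  (∀ (η : E m) (s : ℝ) (z z' : Z m), Lo η s (z + z') = Lo η s z + Lo η s z' ∧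
    Lo η s (z - z') = Lo η s z - Lo η s z' ∧ Ld η s (z + z') = Ld η s z + Ld η s z' ∧
    Ld η s (z - z') = Ld η s z - Ld η s z') ∧
  (∀ (η : E m) (s c : ℝ) (z : Z m), Lo η s (c • z) = c • Lo η s z ∧
    Ld η s (c • z) = c • Ld η s z) ∧
  (∀ (η : E m) (s : ℝ) (z ζ : Z m), ph z (Ld η s ζ) = ph (Lo η s z) ζ) ∧
  (∀ (η η' : E m) (s s' : ℝ) (z : Z m), Lo η' s' (Lo η s z) = Lo (η + s • η') (s * s') z ∧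
    Ld η s (Ld η' s' z) = Ld (η + s • η') (s * s') z) ∧
  (∀ z : Z m, Lo 0 1 z = z ∧ Ld 0 1 z = z) ∧
  ∀ (η : E m) (s : ℝ) (ζ : Z m), ζ.1 ≠ 0 → (Ld η s ζ).1 = ζ.1 ∧
    (Ld η s ζ).1⁻¹ • (Ld η s ζ).2.1 - η = s • (ζ.1⁻¹ • ζ.2.1) ∧
    (Ld η s ζ).2.2 - ‖(Ld η s ζ).2.1‖ ^ 2 / (Ld η s ζ).1 =
      s ^ 2 * (ζ.2.2 - ‖ζ.2.1‖ ^ 2 / ζ.1)

/-- LOB: norm bounds of the Lorentz maps -/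
def T_LOB : Prop := ∀ (m : ℕ) (D : ℝ), 0 ≤ D →
  (∀ (η : E m) (s : ℝ) (z : Z m), ‖η‖ ≤ D → 0 ≤ s → s ≤ 1 →
    ‖Lo η s z‖ ≤ (1 + D) ^ 2 * ‖z‖ ∧ ‖Ld η s z‖ ≤ (1 + D) ^ 2 * ‖z‖) ∧
  (∀ (η : E m) (s : ℝ) (z : Z m), ‖η‖ ≤ D → 0 < s → s ≤ 1 →
    ‖z‖ ≤ (1 + D) ^ 2 * (s⁻¹) ^ 2 * ‖Lo η s z‖) ∧
  (∀ (η η' : E m) (s s' : ℝ) (z : Z m), 0 < s' → s' ≤ s → ‖η' - η‖ ≤ D * s →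
    ‖Lo η' s' z‖ ≤ (1 + D) ^ 2 * ‖Lo η s z‖) ∧
  (∀ (η η' : E m) (s s' r : ℝ) (z : Z m), 0 < s → 0 < s' → 1 ≤ r → s ≤ D * r * s' →
    ‖η' - η‖ ≤ D * r * s' → z.2.2 = 0 → ‖Lo η s z‖ ≤ (1 + D) * r * ‖Lo η' s' z‖)

/-- LOI: change of variables -/
def T_LOI : Prop := ∀ (m : ℕ) (η : E m) (s : ℝ), 0 < s →
  (∀ F : Z m → ℝ≥0∞, ∫⁻ z, F (Lo η s z) = ENNReal.ofReal ((s⁻¹) ^ (m + 2)) * ∫⁻ z, F z) ∧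
  (∀ F : Z m → ℝ≥0∞, ∫⁻ z, F (Ld η s z) = ENNReal.ofReal ((s⁻¹) ^ (m + 2)) * ∫⁻ z, F z) ∧
  (∀ F : Z m → ℂ, ∫ z, F (Ld η s z) = (((s⁻¹) ^ (m + 2) : ℝ) : ℂ) * ∫ z, F z) ∧
  (∀ F : Z m → ℝ, ∫ z, F (Ld η s z) = (s⁻¹) ^ (m + 2) * ∫ z, F z) ∧
  ContDiff ℝ (⊤ : ℕ∞) (Lo η s) ∧ ContDiff ℝ (⊤ : ℕ∞) (Ld η s)

/-- SCL: rescaling of `TF` -/
def T_SCL : Prop := ∀ (m : ℕ) (η : E m) (s : ℝ) (G : Z m → ℂ), 0 < s → TC G →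
  TC (fun ζ => G (Ld η s ζ)) ∧
  ∀ z, TF G z = ((s ^ (m + 2) : ℝ) : ℂ) * TF (fun ζ => G (Ld η s ζ)) (Lo η s z)

/-- Fourier integral on `ℝ × ℝ^m` -/
noncomputable def TY {m : ℕ} (M : ℝ × E m → ℂ) (u : ℝ × E m) : ℂ :=
  ∫ ζ : ℝ × E m, e (u.1 * ζ.1 + ⟪u.2, ζ.2⟫) * M ζ

/-- TRY: identification of `ℝ × ℝ^m` with a Euclidean space -/
def T_TRY : Prop := ∀ m : ℕ, ∃ Φ : EuclideanSpace ℝ (Fin (m + 1)) ≃L[ℝ] (ℝ × E m),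
  MeasurePreserving Φ volume volume ∧
  ∀ x ξ, (Φ x).1 * (Φ ξ).1 + ⟪(Φ x).2, (Φ ξ).2⟫ = ⟪x, ξ⟫

/-- TRZ: identification of `Z m` with a Euclidean space -/
def T_TRZ : Prop := ∀ m : ℕ, ∃ Φ : EuclideanSpace ℝ (Fin (m + 2)) ≃L[ℝ] Z m,
  MeasurePreserving Φ volume volume ∧ ∀ x ξ, ph (Φ x) (Φ ξ) = ⟪x, ξ⟫

/-- DCY: decay of Fourier integrals -/
def T_DCY : Prop := ∀ (m L : ℕ) (D : ℝ), ∃ C : ℝ, 0 < C ∧ ∀ (M : ℝ × E m → ℂ) (B : ℝ), 0 ≤ B →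
  ContDiff ℝ (⊤ : ℕ∞) M → (∀ ζ, M ζ ≠ 0 → ‖ζ‖ ≤ D) →
  (∀ j ≤ L, ∀ ζ, ‖iteratedFDeriv ℝ j M ζ‖ ≤ B) → ∀ u, ‖TY M u‖ ≤ C * B * ((1 + ‖u‖) ^ L)⁻¹

/-- IVY: Fourier inversion -/
def T_IVY : Prop := ∀ (m : ℕ) (M : ℝ × E m → ℂ), ContDiff ℝ (⊤ : ℕ∞) M → HasCompactSupport M →
  Integrable (TY M) ∧ ∀ ζ : ℝ × E m, ∫ u : ℝ × E m, e (-(u.1 * ζ.1 + ⟪u.2, ζ.2⟫)) * TY M u = M ζ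

/-- BPD: derivatives of the homogeneous multipliers -/
def T_BPD : Prop := ∀ (m L : ℕ) (χ : ℝ → ℝ), ContDiff ℝ (⊤ : ℕ∞) χ →
  (∀ x, χ x ≠ 0 → 1 / 8 ≤ x ∧ x ≤ 16) → ∃ C : ℝ, 0 < C ∧ ∀ φ ∈ Bp m L,
  ContDiff ℝ (⊤ : ℕ∞) (fun ζ : ℝ × E m => (χ ζ.1 : ℂ) * φ (ζ.1⁻¹ • ζ.2)) ∧
  (∀ ζ : ℝ × E m, (χ ζ.1 : ℂ) * φ (ζ.1⁻¹ • ζ.2) ≠ 0 → ‖ζ‖ ≤ 16) ∧
  ∀ j ≤ L, ∀ ζ : ℝ × E m,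
    ‖iteratedFDeriv ℝ j (fun ζ : ℝ × E m => (χ ζ.1 : ℂ) * φ (ζ.1⁻¹ • ζ.2)) ζ‖ ≤ C

/-- KER: kernels of the cap multipliers on the slices `w = const` -/
def T_KER : Prop := ∀ (m L : ℕ), ∃ C : ℝ≥0, ∀ φ ∈ Bp m L, ∀ (η : E m) (s : ℝ) (G : Z m → ℂ),
  0 < s → TC G → (∀ ζ, G ζ ≠ 0 → 1 / 4 ≤ ζ.1 ∧ ζ.1 ≤ 8) → ∀ z : Z m,
  ‖TP φ η s G z‖ₑ ≤ C * ∫⁻ u : ℝ × E m, ENNReal.ofReal (((1 + ‖u‖) ^ L)⁻¹) *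
    ‖TF G (z - (u.1 - s⁻¹ * ⟪u.2, η⟫, s⁻¹ • u.2, 0))‖ₑ

/-- WT1: elementary properties of the weights -/
def T_WT1 : Prop := ∀ (m N : ℕ),
  (∀ x : Z m, 0 < wt N x ∧ wt N x ≤ 1) ∧ Continuous (wt N : Z m → ℝ) ∧
  (∀ x y : Z m, wt N x * wt N y ≤ wt N (x + y)) ∧
  (∀ x y : Z m, ‖x‖ ≤ ‖y‖ → wt N y ≤ wt N x) ∧
  (∀ (x : Z m) (M : ℕ), N ≤ M → wt M x ≤ wt N x) ∧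
  (∀ (x : Z m) (M : ℕ), wt (N + M) x = wt N x * wt M x) ∧
  ∀ (x : Z m) (c : ℝ), 0 < c → c ≤ 1 → wt N x ≤ wt N (c • x) ∧ c ^ N * wt N (c • x) ≤ wt N x

/-- WT2: integrals of the weights -/
def T_WT2 : Prop := ∀ (m N : ℕ), m + 3 ≤ N → ∃ C : ℝ≥0,
  (∀ (c : ℝ) (x : Z m), 0 < c →
    ∫⁻ z : Z m, ENNReal.ofReal (wt N (c • z - x)) ≤ C * ENNReal.ofReal ((c⁻¹) ^ (m + 2))) ∧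
  (∀ x y : Z m, ∫⁻ z : Z m, ENNReal.ofReal (wt N (x - z) * wt N (z - y)) ≤
    C * ENNReal.ofReal (wt N (x - y))) ∧
  ∫⁻ u : ℝ × E m, ENNReal.ofReal (((1 + ‖u‖) ^ N)⁻¹) ≤ C

/-- WT3: sums of the weights -/
def T_WT3 : Prop := ∀ (m N : ℕ), m + 3 ≤ N → ∃ C : ℝ≥0,
  (∀ (c : ℝ) (x : Z m), 0 < c → c ≤ 1 →
    ∑' l : Zi m, ENNReal.ofReal (wt N (c • zc l - x)) ≤ C * ENNReal.ofReal ((c⁻¹) ^ (m + 2))) ∧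
  (∀ (x : Z m) (ρ : ℝ) (S : Set (Zi m)), 0 ≤ ρ → (∀ l ∈ S, ρ ≤ ‖x - zc l‖) →
    ∑' l : S, ENNReal.ofReal (wt N (x - zc (l : Zi m))) ≤
      C * ENNReal.ofReal ((1 + ρ) ^ (m + 3) * ((1 + ρ) ^ N)⁻¹)) ∧
  (∀ x y : Z m, ∑' l : Zi m, ENNReal.ofReal (wt N (x - zc l) * wt N (zc l - y)) ≤
    C * ENNReal.ofReal (wt N (x - y))) ∧
  (∀ (X : Finset (Z m)) (y : Z m), Sep X → ∑ z ∈ X, ENNReal.ofReal (wt N (z - y)) ≤ C) ∧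
  ∀ x : Z m, ∃ l : Zi m, ‖x - zc l‖ ≤ (m : ℝ) + 1

/-- AVG: from sharp planks to weights -/
def T_AVG : Prop := ∀ (m N : ℕ), m + 3 ≤ N → ∃ C : ℝ≥0, ∀ (F : Z m → ℝ≥0∞) (η : E m)
  (s r c : ℝ) (x : Z m) (S : ℝ≥0∞), Measurable F → 0 < s → 0 < r → 0 < c → c ≤ 1 →
  (∀ z₁, ∫⁻ z in pl η s r z₁, F z ≤ S) →
  ∫⁻ z, F z * ENNReal.ofReal (wt N (c • r⁻¹ • Lo η s z - x)) ≤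
    C * ENNReal.ofReal ((c⁻¹) ^ (m + 2)) * S

/-- SCH: `TF G` is continuous and decays -/
def T_SCH : Prop := ∀ (m : ℕ) (G : Z m → ℂ), TC G → Continuous (TF G) ∧
  ∀ N : ℕ, ∃ C : ℝ, 0 < C ∧ ∀ z, ‖TF G z‖ ≤ C * wt N z

/-- IVZ: Fourier inversion -/
def T_IVZ : Prop := ∀ (m : ℕ) (G : Z m → ℂ), TC G → Integrable (TF G) ∧
  ∀ ζ : Z m, ∫ z : Z m, e (-(ph z ζ)) * TF G z = G ζ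

/-- PLN: Plancherel -/
def T_PLN : Prop := ∀ (m : ℕ) (G : Z m → ℂ), TC G →
  ∫⁻ z, ‖TF G z‖ₑ ^ 2 = ENNReal.ofReal (∫ ζ, ‖G ζ‖ ^ 2) ∧
  ∫⁻ ζ, ‖G ζ‖ₑ ^ 2 = ENNReal.ofReal (∫ ζ, ‖G ζ‖ ^ 2)

/-- MOD: multiplication by a band limited function in rescaled coordinates -/
def T_MOD : Prop := ∀ (m : ℕ) (G Ψ : Z m → ℂ) (η : E m) (s c : ℝ) (x : Z m), TC G → TC Ψ →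
  0 < s → 0 < c → ∃ G' : Z m → ℂ, TC G' ∧
  (∀ z, TF G' z = TF G z * TF Ψ (c • Lo η s z - x)) ∧
  ∀ ζ, G' ζ ≠ 0 → ∃ ζ₁ ζ₂, G ζ₁ ≠ 0 ∧ Ψ ζ₂ ≠ 0 ∧ ζ = ζ₁ + c • Ld η s ζ₂

/-- LCN: local constancy -/
def T_LCN : Prop := ∀ (m N : ℕ) (D P : ℝ), 1 ≤ P → ∃ C : ℝ≥0, ∀ G : Z m → ℂ, TC G →
  (∀ ζ, G ζ ≠ 0 → ‖ζ‖ ≤ D) → ∀ z,
  ‖TF G z‖ₑ ^ P ≤ C * ∫⁻ z', ‖TF G z'‖ₑ ^ P * ENNReal.ofReal (wt N (z - z'))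

/-- SPW: sampling at separated points, with a slowly varying weight -/
def T_SPW : Prop := ∀ (m N₁ : ℕ) (D P C₁ : ℝ), 1 ≤ P → 0 ≤ C₁ → ∃ C : ℝ≥0,
  ∀ (G : Z m → ℂ) (X : Finset (Z m)) (ω : Z m → ℝ≥0∞), TC G → (∀ ζ, G ζ ≠ 0 → ‖ζ‖ ≤ D) →
  Sep X → Measurable ω → (∀ z z', ω z ≤ ENNReal.ofReal (C₁ * (1 + ‖z - z'‖) ^ N₁) * ω z') →
  ∑ z ∈ X, ‖TF G z‖ₑ ^ P * ω z ≤ C * ∫⁻ z, ‖TF G z‖ₑ ^ P * ω z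

/-- WM: cap multipliers on weighted `L²` -/
def T_WM : Prop := ∀ (m N L : ℕ) (D : ℝ), N + m + 3 ≤ L → 0 ≤ D → ∃ C : ℝ≥0, ∀ φ ∈ Bp m L,
  ∀ (η η₁ : E m) (s s₁ r : ℝ) (x : Z m) (G : Z m → ℂ), 0 < s → 0 < s₁ → 1 ≤ r →
  s ≤ D * r * s₁ → ‖η₁ - η‖ ≤ D * r * s₁ → TC G → (∀ ζ, G ζ ≠ 0 → 1 / 4 ≤ ζ.1 ∧ ζ.1 ≤ 8) →
  ∫⁻ z, ‖TP φ η₁ s₁ G z‖ₑ ^ 2 * ENNReal.ofReal (wt N (r⁻¹ • Lo η s z - x)) ≤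
    C * ∫⁻ z, ‖TF G z‖ₑ ^ 2 * ENNReal.ofReal (wt N (r⁻¹ • Lo η s z - x))

/-- KSP: cap multipliers on bounded functions -/
def T_KSP : Prop := ∀ (m L : ℕ), m + 3 ≤ L → ∃ C : ℝ, 0 < C ∧ ∀ φ ∈ Bp m L,
  ∀ (η : E m) (s B : ℝ) (G : Z m → ℂ), 0 < s → TC G →
  (∀ ζ, G ζ ≠ 0 → 1 / 4 ≤ ζ.1 ∧ ζ.1 ≤ 8) → (∀ z, ‖TF G z‖ ≤ B) → ∀ z, ‖TP φ η s G z‖ ≤ C * B

/-- CPS: cap multipliers are smooth -/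
def T_CPS : Prop := ∀ (m : ℕ) (φ : E m → ℂ) (η : E m) (s : ℝ) (G : Z m → ℂ),
  ContDiff ℝ (⊤ : ℕ∞) φ → 0 < s → TC G → (∀ ζ, G ζ ≠ 0 → 1 / 4 ≤ ζ.1) →
  TC (fun ζ => cp φ η s ζ * G ζ)

/-- PUX: partition functions exist -/
def T_PUX : Prop := ∀ m : ℕ, ∃ β : E m → ℂ, IsPU β

/-- PUB: they are multiples of normalized bumps -/
def T_PUB : Prop := ∀ (m L : ℕ) (β : E m → ℂ), IsPU β → ∃ C : ℝ, 1 ≤ C ∧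
  (fun x => ((C⁻¹ : ℝ) : ℂ) * β x) ∈ Bp m L

/-- PUS: partition of unity by caps, counting of caps -/
def T_PUS : Prop := ∀ m : ℕ,
  (∀ (β : E m → ℂ) (s : ℝ), IsPU β → 0 < s →
    (∀ (x : E m), HasSum (fun k => β (s⁻¹ • (x - ctr s k))) 1) ∧
    (s ≤ 1 → ∀ ζ : Z m, ‖ζ.1⁻¹ • ζ.2.1‖ ≤ 3 / 2 → ∑ k ∈ Ks m s, cp β (ctr s k) s ζ = 1)) ∧
  (∀ (s : ℝ) (k : Fin m → ℤ), 0 < s → k ∉ Ks m s → 3 < ‖ctr s k‖) ∧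
  ∃ C : ℝ, 0 < C ∧ (∀ s : ℝ, 0 < s → s ≤ 1 → ((Ks m s).card : ℝ) ≤ C * (s⁻¹) ^ m) ∧
  (∀ (s ρ : ℝ) (x : E m) (J : Finset (Fin m → ℤ)), 0 < s → 0 ≤ ρ →
    (∀ k ∈ J, ‖ctr s k - x‖ ≤ ρ) → (J.card : ℝ) ≤ C * (1 + ρ / s) ^ m) ∧
  ∀ (s : ℝ) (k : Fin m → ℤ), 0 < s → s ≤ 1 → k ∈ Ks m s → ‖ctr s k‖ ≤ C

/-- PSX: band limited partition functions exist -/
def T_PSX : Prop := ∀ m : ℕ, ∃ (Ψ : Z m → ℂ) (ψ : Z m → ℝ), IsPsi Ψ ψ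

/-- LWX: band limited functions at least `1` on a ball exist -/
def T_LWX : Prop := ∀ m : ℕ, ∃ (Ξ : Z m → ℂ) (χ : Z m → ℝ), IsLow Ξ χ

/-- LO: local orthogonality of caps -/
def T_LO : Prop := ∀ (m N N₀ : ℕ) (D : ℝ), m + 3 ≤ N → 1 ≤ D → ∃ C : ℝ≥0,
  ∀ (ι : Type) (I : Finset ι) (G : ι → Z m → ℂ) (c : ι → E m) (σ s r : ℝ) (η : E m) (x : Z m),
  0 < σ → 0 < s → 1 ≤ r → s ≤ D * r * σ → (∀ k ∈ I, ‖c k - η‖ ≤ D * r * σ) →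
  (∀ k ∈ I, TC (G k)) →
  (∀ k ∈ I, ∀ ζ, G k ζ ≠ 0 → 1 / 4 ≤ ζ.1 ∧ ζ.1 ≤ 8 ∧ ‖ζ.1⁻¹ • ζ.2.1 - c k‖ ≤ D * σ) →
  (∀ (y : E m), ∀ J ⊆ I, (∀ k ∈ J, ‖y - c k‖ ≤ 2 * D * σ) → J.card ≤ N₀) →
  ∫⁻ z, ‖∑ k ∈ I, TF (G k) z‖ₑ ^ 2 * ENNReal.ofReal (wt N (r⁻¹ • Lo η s z - x)) ≤
    C * ∑ k ∈ I, ∫⁻ z, ‖TF (G k) z‖ₑ ^ 2 * ENNReal.ofReal (wt N (r⁻¹ • Lo η s z - x))

/-- RLO: reverse local orthogonality with a loss -/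
def T_RLO : Prop := ∀ (m N' : ℕ) (D : ℝ) (β : E m → ℂ), 1 ≤ D → IsPU β → ∃ C : ℝ≥0,
  ∀ (lam σ s r : ℝ) (η : E m) (z₀ : Z m) (G : Z m → ℂ) (I : Finset (Fin m → ℤ)) (S : ℝ≥0∞),
  1 ≤ lam → 0 < σ → 0 < s → 1 ≤ r → s ≤ D * r * σ → (∀ k ∈ I, ‖ctr σ k - η‖ ≤ D * r * σ) →
  TC G → (∀ ζ, G ζ ≠ 0 → 1 / 2 ≤ ζ.1 ∧ ζ.1 ≤ 6) →
  (∀ z₁, ∫⁻ z in pl η s r z₁, ‖TF G z‖ₑ ^ 2 ≤ S) →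
  ∑ k ∈ I, ∫⁻ z in pl η s r z₀, ‖TP β (ctr σ k) σ G z‖ₑ ^ 2 ≤
    C * ENNReal.ofReal (lam ^ (m + 2) + I.card * (lam ^ N')⁻¹) * S

end Pool.Agent.H83.G
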