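import Pool.Agent.H83.G.Chain
import Pool.Agent.H93.BD.All
import Pool.Agent.H81.GT.All
import Pool.Agent.H48.G.GL2

/-! Theorem G (MP_ee74d2_an): final assembly. -/

set_option autoImplicit false

namespace Pool.Agent.H83.G.Final

open Pool.Agent.H83.G Pool.Agent.H83.G.Chain

theorem main : T_MAIN := m_MAIN Pool.Agent.H93.BD.All.main

theorem gl2 : Pool.Agent.H81.GT.T_GL2 := Pool.Agent.H48.G.pf_GL2 Pool.Agent.H56.G.COV.pf_COV

theorem q1 {n : ℕ} {p : ℝ} (hn : 4 ≤ n) (hp : 2 + 8 / (3 * (n : ℝ)) ≤ p) :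
    Pool.Agent.H81.GT.Q1at n p :=
  Pool.Agent.H81.GT.all_q1 gl2 main m_SPK m_PUX m_SCH m_WM m_AVG m_LOA m_LOB hn hp

end Pool.Agent.H83.G.Final
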