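import Pool.Agent.H83.G.Targets4
import Pool.Agent.H22.G.TargetsH

/-!
Theorem G (MP_ee74d2_an): pieces of the two-ends case (TE1, TE2, TE3) and small lemmas.
-/

set_option autoImplicit false

namespace Pool.Agent.H83.G

open MeasureTheory Set
open scoped ENNReal NNReal RealInnerProductSpace

/-- CBN: lattices, cubes and counting -/
def T_CBN : Prop := ∀ m : ℕ,
  (∀ (ρ : ℝ) (z : Z m), 0 < ρ → ‖z - ρ • zc (cb ρ z)‖ ≤ ((m : ℝ) + 1) * ρ) ∧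
  (∀ (R δ : ℝ) (W : Pk m) (z : Z m), 1 ≤ R → 0 ≤ δ → near R δ W z →
    Inc R δ (tb R W) (cb (Real.sqrt R) z)) ∧
  ∃ C : ℝ, 1 ≤ C ∧
    (∀ (ρ : ℝ) (x : Z m) (J : Finset (Zi m)), 1 ≤ ρ → (∀ j ∈ J, ‖zc j - x‖ ≤ ρ) →
      (J.card : ℝ) ≤ C * ρ ^ (m + 2)) ∧
    ∀ (R r : ℝ) (z₀ : Z m) (QQ : Finset (Zi m)), 0 < r → r ≤ R → 1 ≤ R →
      (∀ q ∈ QQ, ‖Real.sqrt R • zc q - z₀‖ ≤ ((m : ℝ) + 2) * R) →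
      ((QQ.image (bl R r)).card : ℝ) ≤ C * (R / r) ^ (m + 2)

open scoped Classical in
/-- MSB: multiplicities with weights are bounded by the number of planks near the point -/
def T_MSB : Prop := ∀ (m : ℕ) (δ : ℝ), 0 < δ → ∃ N₀ : ℕ, ∀ N : ℕ, N₀ ≤ N → ∃ C : ℝ, 1 ≤ C ∧
  ∀ (R : ℝ) (S : Finset (Pk m)) (z : Z m), 1 ≤ R → C ≤ R ^ δ → (∀ W ∈ S, W.1 ∈ Ks m (sR R)) →
  MS N R δ S z ≤ ((S.filter (fun W => near R δ W z)).card : ℝ) + 1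

open scoped Classical in
/-- TE1: refined decoupling in the two-ends case, one family -/
def T_TE1 : Prop := ∀ (m L : ℕ) (β : E m → ℂ) (Ψ : Z m → ℂ) (ψ : Z m → ℝ) (δ ε₀ B : ℝ), 4 ≤ m →
  IsPU β → IsPsi Ψ ψ → 0 < δ → δ ≤ 1 / 100 → 0 < ε₀ → ε₀ ≤ 1 / 4 → 1 ≤ B → ∃ N₀ : ℕ,
  ∀ N : ℕ, N₀ ≤ N → ∃ C : ℝ, 1 ≤ C ∧ ∀ (κ R A H a M₁ : ℝ) (G : Z m → ℂ) (z₀ : Z m)
  (S : Finset (Pk m)) (QQ : Finset (Zi m)) (l k : ℕ) (X : Finset (Z m)), 0 ≤ κ → κ ≤ 3 / 8 →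
  1 ≤ R → C ≤ R ^ δ → 0 < A → 0 < H → 0 < a → 1 ≤ M₁ → Cls L κ R A G → Sep X →
  (∀ z ∈ X, ‖z - z₀‖ ≤ R) → (∀ W ∈ S, W.1 ∈ Ks m (sR R) ∧ al N β R δ G W ≤ 2 * a) →
  (S.card : ℝ) ≤ B * R ^ (2 * ((m : ℝ) + 2)) → (∀ z ∈ X, cb (Real.sqrt R) z ∈ QQ) →
  (∀ q ∈ QQ, ‖Real.sqrt R • zc q - z₀‖ ≤ ((m : ℝ) + 2) * R) →
  (∀ z ∈ X, (((SB QQ R (R ^ (1 - ε₀)) δ l k S
    (bl R (R ^ (1 - ε₀)) (cb (Real.sqrt R) z))).filter (fun W => near R δ W z)).card : ℝ) ≤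
      2 * M₁) →
  (∀ z ∈ X, H ≤ ‖∑ W ∈ SB QQ R (R ^ (1 - ε₀)) δ l k S
    (bl R (R ^ (1 - ε₀)) (cb (Real.sqrt R) z)), Fp β ψ R δ G W z‖) →
  (X.card : ℝ) * H ^ (2 * ((m : ℝ) + 2) / m) ≤
    C * R ^ (4 * lo m * (δ + ε₀)) * M₁ ^ (2 / (m : ℝ)) * a ^ (2 * ((m : ℝ) + 2) / m) * S.card *
      R ^ (((m : ℝ) + 2) / 2)

open scoped Classical in
/-- TE2: local energy in the two-ends case, one family -/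
def T_TE2 : Prop := ∀ (m L : ℕ) (β : E m → ℂ) (Ψ : Z m → ℂ) (ψ : Z m → ℝ) (δ b₀ B : ℝ), 1 ≤ m →
  IsPU β → IsPsi Ψ ψ → 0 < δ → δ ≤ 1 / 100 → 0 < b₀ → 1 ≤ B →
  ∀ N : ℕ, m + 3 ≤ N → ∃ C : ℝ, 1 ≤ C ∧ ∀ (κ R r A H a b M : ℝ) (G : Z m → ℂ)
  (S : Finset (Pk m)) (QQ : Finset (Zi m)) (l k : ℕ) (X : Finset (Z m)), 0 ≤ κ → κ ≤ 3 / 8 →
  1 ≤ R → C ≤ R ^ δ → 0 < A → 0 < H → b₀ * A ≤ R ^ δ * H → 0 < a → 1 ≤ b → 0 < M → Cls L κ R A G →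
  Sep X → (∀ W ∈ S, W.1 ∈ Ks m (sR R) ∧ al N β R δ G W ≤ 2 * a) →
  (S.card : ℝ) ≤ B * R ^ (2 * ((m : ℝ) + 2)) →
  (∀ W ∈ S, ((S.filter (fun W' => tb R W' = tb R W)).card : ℝ) ≤ 2 * b) →
  (∀ z ∈ X, (((S.image (tb R)).filter (fun T => Inc R δ T (cb (Real.sqrt R) z) ∧
    Sh QQ R r δ l k T (bl R r (cb (Real.sqrt R) z)))).card : ℝ) ≤ 2 * M) →
  (∀ z ∈ X, H ≤ ‖∑ W ∈ SB QQ R r δ l k S (bl R r (cb (Real.sqrt R) z)), Fp β ψ R δ G W z‖) →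
  (X.card : ℝ) * H ^ 2 ≤ C * R ^ (2 * lo m * δ) * (X.image (cb (Real.sqrt R))).card * M * b *
    a ^ 2 * R ^ (((m : ℝ) + 1) / 2)

open scoped Classical in
/-- TE3: three families of planks in the cubes -/
def T_TE3 : Prop := ∀ (m : ℕ) (K : ℝ), 1 ≤ m → 1 ≤ K → ∃ C : ℝ, 1 ≤ C ∧
  ∀ (R r δ : ℝ) (S : Fin 3 → Finset (Pk m)) (b M M₁ : Fin 3 → ℝ) (QQ : Finset (Zi m))
  (l k : Fin 3 → ℕ) (X : Finset (Z m)), 1 ≤ R → 0 ≤ δ → Sep X →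
  (∀ i, ∀ W ∈ S i, ‖ctr (sR R) W.1‖ ≤ 3) →
  (∀ i j, i ≠ j → ∀ W ∈ S i, ∀ W' ∈ S j, 1 / K ≤ ‖ctr (sR R) W.1 - ctr (sR R) W'.1‖) →
  (∀ i, 0 < b i ∧ 0 < M i ∧ 0 < M₁ i) →
  (∀ i, ∀ W ∈ S i, (((S i).filter (fun W' => tb R W' = tb R W)).card : ℝ) ≤ 2 * b i) →
  (∀ z ∈ X, ∀ i, ((((S i).image (tb R)).filter (fun T => Inc R δ T (cb (Real.sqrt R) z) ∧
    Sh QQ R r δ (l i) (k i) T (bl R r (cb (Real.sqrt R) z)))).card : ℝ) ≤ 2 * M i) →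
  (∀ z ∈ X, ∀ i, M₁ i ≤ (((SB QQ R r δ (l i) (k i) (S i)
    (bl R r (cb (Real.sqrt R) z))).filter (fun W => near R δ W z)).card : ℝ)) →
  (X.card : ℝ) * (M₁ 0 * M₁ 1 * M₁ 2) ≤ C * R ^ (6 * δ) *
    (X.image (cb (Real.sqrt R))).card * ((M 0 * b 0) * (M 1 * b 1) * (M 2 * b 2)) *
      R ^ (((m : ℝ) - 1) / 2)

end Pool.Agent.H83.G
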