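import Pool.Agent.H1.G.DCY
import Pool.Agent.H1.G.ENB
import Pool.Agent.H18.G.KER
import Pool.Agent.H18.G.PSX
import Pool.Agent.H18.G.WM
import Pool.Agent.H18.G.WT3
import Pool.Agent.H19.G.LOB
import Pool.Agent.H19.G.TRZ
import Pool.Agent.H19.G.WT2
import Pool.Agent.H22.G.Geo
import Pool.Agent.H22.G.HALG
import Pool.Agent.H22.G.HB
import Pool.Agent.H22.G.LW
import Pool.Agent.H22.G.MU
import Pool.Agent.H22.G.PG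
import Pool.Agent.H22.G.PGb
import Pool.Agent.H26.G.OEN
import Pool.Agent.H26.G.RDT
import Pool.Agent.H26.G.SSC
import Pool.Agent.H27.G.CPC
import Pool.Agent.H33.G.SCH
import Pool.Agent.H33.G.TE1
import Pool.Agent.H33.G.TE2
import Pool.Agent.H33.G.WT1
import Pool.Agent.H34.G.AMU
import Pool.Agent.H34.G.AVG
import Pool.Agent.H39.G.CLR
import Pool.Agent.H39.G.LO
import Pool.Agent.H42.G.IVZ
import Pool.Agent.H49.G.BAS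
import Pool.Agent.H49.G.IVY
import Pool.Agent.H49.G.LCN
import Pool.Agent.H51.G.PKT
import Pool.Agent.H51.G.PLN
import Pool.Agent.H54.G.BRN
import Pool.Agent.H56.G.MSB
import Pool.Agent.H59.G.LOI
import Pool.Agent.H6.G.TRY
import Pool.Agent.H61.G.L2Q
import Pool.Agent.H61.G.SSB
import Pool.Agent.H63.G.BPD
import Pool.Agent.H63.G.CPS
import Pool.Agent.H63.G.ENS
import Pool.Agent.H63.G.MOD
import Pool.Agent.H63.G.PUS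
import Pool.Agent.H63.G.PUX
import Pool.Agent.H64.G.SPK
import Pool.Agent.H64.G.SPW
import Pool.Agent.H65.G.LOA
import Pool.Agent.H65.G.SCL
import Pool.Agent.H68.G.GBE
import Pool.Agent.H68.G.TE3
import Pool.Agent.H69.G.CBN
import Pool.Agent.H69.G.NAR
import Pool.Agent.H69.G.TLS
import Pool.Agent.H77.G.DRF
import Pool.Agent.H77.G.LWX
import Pool.Agent.H83.G.BRO
import Pool.Agent.H84.G.RDA
import Pool.Agent.H84.G.RDP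
import Pool.Agent.H84.G.RDS
import Pool.Agent.H88.G.MAIN
import Pool.Agent.H88.G.RSC
import Pool.Agent.H90.G.REC
import Pool.Agent.H90.G.RLO
import Pool.Agent.H91.G.PUB
import Pool.Agent.H91.G.SSA
import Pool.Agent.H92.G.AEN
import Pool.Agent.H92.G.DCP
import Pool.Agent.H93.G.BDZ

/-! Theorem G (MP_ee74d2_an): the chain. -/

set_option autoImplicit false

namespace Pool.Agent.H83.G.Chain

open Pool.Agent.H83.G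

theorem m_TRZ : T_TRZ :=
  Pool.Agent.H19.G.TRZ.pf_TRZ 

theorem m_SCH : T_SCH :=
  Pool.Agent.H33.G.pf_SCH m_TRZ

theorem m_IVZ : T_IVZ :=
  Pool.Agent.H42.G.pf_IVZ m_TRZ

theorem m_WT1 : T_WT1 :=
  Pool.Agent.H33.G.pf_WT1 

theorem m_WT2 : T_WT2 :=
  Pool.Agent.H19.G.WT2.pf_WT2 m_WT1

theorem m_LCN : T_LCN :=
  Pool.Agent.H49.G.LCN.pf_LCN m_SCH m_IVZ m_WT2

theorem m_LOA : T_LOA :=
  Pool.Agent.H65.G.LOA.pf_LOA 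

theorem m_LOI : T_LOI :=
  Pool.Agent.H59.G.pf_LOI m_LOA

theorem m_SCL : T_SCL :=
  Pool.Agent.H65.G.SCL.pf_SCL m_LOA m_LOI

theorem m_PUB : T_PUB :=
  Pool.Agent.H91.G.pf_PUB 

theorem m_PUS : T_PUS :=
  Pool.Agent.H63.G.pf_PUS 

theorem m_PUX : T_PUX :=
  Pool.Agent.H63.G.pf_PUX 

theorem m_AVG : T_AVG :=
  Pool.Agent.H34.G.AVG.pf_AVG m_LOA m_LOI m_WT1 m_WT2

theorem m_CPS : T_CPS :=
  Pool.Agent.H63.G.pf_CPS 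

theorem m_SPK : T_SPK :=
  Pool.Agent.H64.G.pf_SPK m_LCN m_SCL m_LOA m_LOI m_PUB m_PUS m_PUX m_AVG m_CPS m_WT1

theorem m_WT3 : T_WT3 :=
  Pool.Agent.H18.G.pf_WT3 m_WT2

theorem m_SPW : T_SPW :=
  Pool.Agent.H64.G.pf_SPW m_LCN m_WT1 m_WT3

theorem m_PLN : T_PLN :=
  Pool.Agent.H51.G.PLN.pf_PLN m_TRZ

theorem m_BAS : T_BAS :=
  Pool.Agent.H49.G.BAS.pf_BAS m_SPK m_SPW m_PUX m_PLN

theorem m_BRN : T_BRN :=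
  Pool.Agent.H54.G.BRN.pf_BRN m_PUS m_CPS m_SCH

theorem m_RSC : T_RSC :=
  Pool.Agent.H88.G.RSC.pf_RSC m_LOA m_LOI m_SCL m_CPS

theorem m_LOB : T_LOB :=
  Pool.Agent.H19.G.LOB.pf_LOB m_LOA

theorem m_NAR : T_NAR :=
  Pool.Agent.H69.G.NAR.pf_NAR m_RSC m_PUB m_PUS m_LOA m_LOB m_LOI

theorem m_PTW : T_PTW :=
  Pool.Agent.H64.G.pf_PTW m_LCN m_SCL m_LOA m_LOI m_CPS m_WT1 m_SCH m_PLN

theorem m_AMU : T_AMU :=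
  Pool.Agent.H34.G.AMU.pf_AMU m_AVG m_PUB m_SCH m_CPS

theorem m_TLS : T_TLS :=
  Pool.Agent.H69.G.TLS.pf_TLS m_PTW m_AMU m_WT3 m_PUS

theorem m_DCP : T_DCP :=
  Pool.Agent.H92.G.DCP.pf_DCP m_TLS m_PTW m_AMU m_WT3 m_PUS m_LOB m_LOA m_CPS m_WT1

theorem m_AEN : T_AEN :=
  Pool.Agent.H92.G.AEN.pf_AEN m_WT1 m_WT3 m_LOA m_LOB m_PUS m_SCH m_CPS

theorem m_MOD : T_MOD :=
  Pool.Agent.H63.G.pf_MOD m_LOA m_LOI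

theorem m_PSX : T_PSX :=
  Pool.Agent.H18.G.pf_PSX 

theorem m_TRY : T_TRY :=
  Pool.Agent.H6.G.pf_TRY 

theorem m_DCY : T_DCY :=
  Pool.Agent.H1.G.pf_DCY m_TRY

theorem m_IVY : T_IVY :=
  Pool.Agent.H49.G.pf_IVY m_TRY

theorem m_BPD : T_BPD :=
  Pool.Agent.H63.G.pf_BPD 

theorem m_KER : T_KER :=
  Pool.Agent.H18.G.pf_KER m_DCY m_IVY m_BPD

theorem m_RLO : T_RLO :=
  Pool.Agent.H90.G.RLO.pf_RLO m_LOA m_LOB m_MOD m_PLN m_PSX m_KER m_PUB m_PUS m_WT1 m_WT2 m_WT3 m_AVG m_SCH m_CPS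

theorem m_CLR : T_CLR :=
  Pool.Agent.H39.G.pf_CLR m_RLO m_PUS m_PUB m_CPS m_AVG m_SCH m_LOA m_LOB

theorem m_ENB : T_ENB :=
  Pool.Agent.H1.G.ENB.pf_ENB m_CLR m_AVG m_LOA m_PUS m_WT1 m_SCH m_CPS

theorem m_PG1 : T_PG1 :=
  Pool.Agent.H22.G.B.pf_PG1 

theorem m_PG2 : T_PG2 :=
  Pool.Agent.H22.G.B.pf_PG2 

theorem m_PG3 : T_PG3 :=
  Pool.Agent.H22.G.B.pf_PG3 

theorem m_DRF : T_DRF :=
  Pool.Agent.H77.G.pf_DRF m_LOA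

theorem m_PKT : T_PKT :=
  Pool.Agent.H51.G.PKT.pf_PKT m_MOD m_DRF m_LOA m_CPS m_SCH

theorem m_LWX : T_LWX :=
  Pool.Agent.H77.G.pf_LWX m_SCH

theorem m_LO : T_LO :=
  Pool.Agent.H39.G.pf_LO m_MOD m_PLN m_LWX m_WT1 m_WT3 m_SCH

theorem m_WM : T_WM :=
  Pool.Agent.H18.G.pf_WM m_KER m_LOA m_LOB m_WT1 m_WT2 m_SCH

theorem m_SSA : T_SSA :=
  Pool.Agent.H91.G.pf_SSA m_LO m_WM m_AVG m_CLR m_PUS m_CPS m_SCH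

theorem m_KSP : T_KSP :=
  Pool.Agent.H64.G.pf_KSP m_KER m_WT2

theorem m_SSB : T_SSB :=
  Pool.Agent.H61.G.SSB.pf_SSB m_LO m_KSP m_SPK m_PUS m_PUB m_CPS m_LOA m_WT2 m_LOI

theorem m_SSC : T_SSC :=
  Pool.Agent.H26.G.SSC.pf_SSC m_PKT m_SSA m_SSB

theorem m_GBE : T_GBE :=
  Pool.Agent.H68.G.GBE.pf_GBE m_PKT m_PLN m_PTW m_WT3 m_PUS m_LOI m_SCH

theorem m_OEN : T_OEN :=
  Pool.Agent.H26.G.OEN.pf_OEN m_SSC m_GBE m_AMU m_PLN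

theorem m_CBN : T_CBN :=
  Pool.Agent.H69.G.CBN.pf_CBN m_WT3

theorem m_BDZ (hBD : Pool.Agent.H93.BD.T_MAIN) : T_BDZ :=
  Pool.Agent.H93.G.BDZ.pf_BDZ hBD m_SCH

theorem m_RDS (hBD : Pool.Agent.H93.BD.T_MAIN) : T_RDS :=
  Pool.Agent.H84.G.RDS.pf_RDS (m_BDZ hBD) m_SCL m_LOA m_LOI m_WT1 m_WT3 m_SCH

theorem m_RDT (hBD : Pool.Agent.H93.BD.T_MAIN) : T_RDT :=
  Pool.Agent.H26.G.RDT.pf_RDT (m_RDS hBD) m_LOB m_PUS m_SCH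

theorem m_RDA (hBD : Pool.Agent.H93.BD.T_MAIN) : T_RDA :=
  Pool.Agent.H84.G.RDA.pf_RDA (m_RDT hBD) m_SCH m_LOA m_WT2

theorem m_RDP (hBD : Pool.Agent.H93.BD.T_MAIN) : T_RDP :=
  Pool.Agent.H84.G.RDP.pf_RDP (m_RDA hBD) m_PKT m_PTW m_SPW m_LOA m_LOI m_WT1 m_WT2 m_WT3 m_LOB m_PUS m_LWX

theorem m_MSB : T_MSB :=
  Pool.Agent.H56.G.MSB.pf_MSB m_WT3 m_PUS

theorem m_TE1 (hBD : Pool.Agent.H93.BD.T_MAIN) : T_TE1 :=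
  Pool.Agent.H33.G.pf_TE1 (m_RDP hBD) m_MSB m_PTW m_CBN

theorem m_L2Q : T_L2Q :=
  Pool.Agent.H61.G.L2Q.pf_L2Q m_LWX m_PKT m_LO m_SPW m_PTW m_AMU m_WT1 m_WT2 m_WT3 m_PUS m_LOA

theorem m_TE2 : T_TE2 :=
  Pool.Agent.H33.G.pf_TE2 m_L2Q

theorem m_TE3 : T_TE3 :=
  Pool.Agent.H68.G.TE3.pf_TE3 Pool.Agent.H22.G.pf_LW m_CBN

theorem m_TEN (hBD : Pool.Agent.H93.BD.T_MAIN) : T_TEN2 :=
  Pool.Agent.H83.G.TEN.pf_TEN2 Pool.Agent.H22.G.pf_PG4 Pool.Agent.H22.G.pf_HG2 Pool.Agent.H22.G.pf_MU Pool.Agent.H22.G.pf_HB Pool.Agent.H22.G.pf_ALG m_CBN (m_TE1 hBD) m_TE2 m_TE3 m_TLS m_AMU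

theorem m_BRO (hBD : Pool.Agent.H93.BD.T_MAIN) : T_BRO :=
  Pool.Agent.H83.G.BRO.pf_BRO m_DCP m_TLS m_AMU m_AEN m_ENB m_PG1 m_PG2 m_PG3 m_OEN (m_TEN hBD) m_PSX m_LWX m_CBN m_WT3

theorem m_CPC : T_CPC :=
  Pool.Agent.H27.G.CPC.pf_CPC m_WM m_AVG m_PUB m_CPS m_WT1

theorem m_ENS : T_ENS :=
  Pool.Agent.H63.G.pf_ENS m_WT3 m_PLN m_PUS m_CPS m_WT1 m_SCH

theorem m_REC (hBD : Pool.Agent.H93.BD.T_MAIN) : T_REC :=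
  Pool.Agent.H90.G.pf_REC m_BAS m_BRN m_NAR (m_BRO hBD) m_CPC m_ENS m_PUX m_PUS m_CPS m_WT3 m_ENB

theorem m_MAIN (hBD : Pool.Agent.H93.BD.T_MAIN) : T_MAIN :=
  Pool.Agent.H88.G.MAIN.pf_MAIN (m_REC hBD) m_BAS

end Pool.Agent.H83.G.Chain
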