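import Pool.Agent.H83.G.TenC

/-! Theorem G: the broad part, preparations. -/

set_option autoImplicit false

namespace Pool.Agent.H83.G.BRO

open Pool.Agent.H83.G Pool.Agent.H83.G.TEN MeasureTheory Set
open scoped ENNReal NNReal RealInnerProductSpace

theorem Rg_mono {m : ℕ} {κ κ' c : ℝ} (h : κ ≤ κ') (hc : 0 ≤ c) {ζ : Z m} (hκ : κ ≤ 1 / 2)
    (hζ : ζ ∈ Rg m κ c) : ζ ∈ Rg m κ' c := by
  obtain ⟨h1, h2, h3, h4⟩ := hζ
  have h0 : 0 < ζ.1 := by linarith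
  refine ⟨by linarith, by linarith, h3.trans ?_, h4.trans ?_⟩
  · gcongr
  · gcongr

theorem Cls_mono {m L : ℕ} {κ κ' R A : ℝ} {G : Z m → ℂ} (h : κ ≤ κ') (hR : 0 < R)
    (hκ : κ ≤ 1 / 2) (hG : Cls L κ R A G) : Cls L κ' R A G :=
  ⟨hG.1, fun ζ hζ => Rg_mono h (by positivity) hκ (hG.2.1 ζ hζ), hG.2.2⟩

theorem Bd_mono {m L : ℕ} {κ κ' R g : ℝ} (h : κ ≤ κ') (hR : 0 < R)
    (hκ : κ ≤ 1 / 2) (hB : Bd m L κ' R g) : Bd m L κ R g := by
  intro A H G X hA hH hG hX hXH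
  exact hB A H G X hA hH (Cls_mono h hR hκ hG) hX hXH

/-- planks whose cap misses the support vanish -/
theorem Fp_zero {m : ℕ} {β : E m → ℂ} {ψ : Z m → ℝ} {R δ t : ℝ} {G : Z m → ℂ} {c : E m}
    (hβ : IsPU β) (hR : 0 < R) (hG : ∀ ζ, G ζ ≠ 0 → ‖ζ.1⁻¹ • ζ.2.1 - c‖ ≤ t) (W : Pk m)
    (hW : t + sR R < ‖ctr (sR R) W.1 - c‖) (z : Z m) : Fp β ψ R δ G W z = 0 := by
  have hs : 0 < sR R := by unfold sR; positivity
  have h1 : (fun ζ : Z m => cp β (ctr (sR R) W.1) (sR R) ζ * G ζ) = fun _ => 0 := by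
    funext ζ
    by_cases h : G ζ = 0
    · simp [h]
    · have h2 := hG ζ h
      have h3 : sR R ≤ ‖ζ.1⁻¹ • ζ.2.1 - ctr (sR R) W.1‖ := by
        have : ctr (sR R) W.1 - c = (ζ.1⁻¹ • ζ.2.1 - c) - (ζ.1⁻¹ • ζ.2.1 - ctr (sR R) W.1) := by
          abel
        rw [this] at hW
        have h4 := norm_sub_le (ζ.1⁻¹ • ζ.2.1 - c) (ζ.1⁻¹ • ζ.2.1 - ctr (sR R) W.1)
        linarith
      have h5 : cp β (ctr (sR R) W.1) (sR R) ζ = 0 := by
        unfold cp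
        apply hβ.2.1
        rw [norm_smul, norm_inv, Real.norm_of_nonneg hs.le, inv_mul_eq_div, le_div_iff₀ hs,
          one_mul]
        exact h3
      rw [h5, zero_mul]
  unfold Fp TP
  rw [h1]
  unfold TF
  simp

/-- iteration of a selection -/
theorem iter {α D : Type} {X₀ : Finset α} {Λ : ℝ} (hΛ : 1 ≤ Λ) :
    ∀ (j : ℕ) (P : Fin j → D → Finset α → Prop),
    (∀ i d X X', X' ⊆ X → P i d X → P i d X') →
    (∀ i, ∀ X ⊆ X₀, ∃ (d : D) (X' : Finset α), X' ⊆ X ∧ (X.card : ℝ) ≤ Λ * X'.card ∧ P i d X') →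
    ∀ X ⊆ X₀, ∃ (d : Fin j → D) (X' : Finset α), X' ⊆ X ∧ (X.card : ℝ) ≤ Λ ^ j * X'.card ∧
      ∀ i, P i (d i) X' := by
  intro j
  induction j with
  | zero =>
    intro P _ _ X _
    exact ⟨fun i => i.elim0, X, Finset.Subset.refl _, by simp, fun i => i.elim0⟩
  | succ j ih =>
    intro P hmono h X hX
    obtain ⟨d, X₁, h1, h2, h3⟩ := ih (fun i => P i.castSucc) (fun i => hmono _) (fun i => h _) X hX
    obtain ⟨d', X₂, g1, g2, g3⟩ := h (Fin.last j) X₁ (h1.trans hX)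
    refine ⟨Fin.snoc (α := fun _ => D) d d', X₂, g1.trans h1, ?_, ?_⟩
    · calc (X.card : ℝ) ≤ Λ ^ j * X₁.card := h2
        _ ≤ Λ ^ j * (Λ * X₂.card) := by gcongr
        _ = Λ ^ (j + 1) * X₂.card := by ring
    · intro i
      refine Fin.lastCases ?_ (fun i => ?_) i
      · simpa using g3
      · simpa using hmono _ _ _ _ g1 (h3 i)

/-- number of points -/
theorem card_sep {m : ℕ} (hWT3 : T_WT3) : ∃ C : ℝ, 1 ≤ C ∧ ∀ (R : ℝ) (z₀ : Z m)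
    (X : Finset (Z m)), 1 ≤ R → Sep X → (∀ z ∈ X, ‖z - z₀‖ ≤ R) →
    (X.card : ℝ) ≤ C * R ^ (2 * ((m : ℝ) + 2)) := by
  obtain ⟨C, -, -, -, h4, -⟩ := hWT3 m (m + 3) le_rfl
  refine ⟨2 ^ (m + 3) * C + 1, by
    have : (0 : ℝ) ≤ C := C.2
    have h2 : (0 : ℝ) ≤ 2 ^ (m + 3) * C := by positivity
    linarith, fun R z₀ X hR hX hXz => ?_⟩
  have hR0 : 0 < R := by linarith
  have h1 := h4 X z₀ hX
  have h2 : ENNReal.ofReal ((X.card : ℝ) * ((1 + R) ^ (m + 3))⁻¹) ≤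
      ∑ z ∈ X, ENNReal.ofReal (wt (m + 3) (z - z₀)) := by
    rw [← ENNReal.ofReal_sum_of_nonneg (fun z _ => by unfold wt; positivity)]
    apply ENNReal.ofReal_le_ofReal
    rw [← nsmul_eq_mul]
    refine Finset.card_nsmul_le_sum _ _ _ (fun z hz => ?_)
    unfold wt
    have := hXz z hz
    gcongr
  have h3 : ENNReal.ofReal ((X.card : ℝ) * ((1 + R) ^ (m + 3))⁻¹) ≤ C := h2.trans h1
  have h5 : (X.card : ℝ) * ((1 + R) ^ (m + 3))⁻¹ ≤ C := by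
    have := ENNReal.toReal_mono (by simp) h3
    rw [ENNReal.toReal_ofReal (by positivity)] at this
    simpa using this
  rw [← div_eq_mul_inv, div_le_iff₀ (by positivity)] at h5
  have hC : (0 : ℝ) ≤ C := C.2
  calc (X.card : ℝ) ≤ C * (1 + R) ^ (m + 3) := h5
    _ ≤ C * (2 * R) ^ (m + 3) := by gcongr; linarith
    _ = 2 ^ (m + 3) * C * R ^ (m + 3) := by rw [mul_pow]; ring
    _ ≤ (2 ^ (m + 3) * C + 1) * R ^ (2 * ((m : ℝ) + 2)) := by
        gcongr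
        · linarith
        · rw [← Real.rpow_natCast]
          refine Real.rpow_le_rpow_of_exponent_le hR ?_
          push_cast; have : (0:ℝ) ≤ m := by positivity
          linarith

end Pool.Agent.H83.G.BRO
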