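import Pool.Agent.H83.G.BroA

/-! Theorem G: the broad part, pigeonholes. -/

set_option autoImplicit false

namespace Pool.Agent.H83.G.BRO

open Pool.Agent.H83.G Pool.Agent.H83.G.TEN MeasureTheory Set
open scoped ENNReal NNReal RealInnerProductSpace

/-- planks of one family -/
theorem famA {m L : ℕ} {β : E m → ℂ} {ψ : Z m → ℝ} {δ K CD κ R A H : ℝ} {G : Z m → ℂ}
    {c : E m} {z₀ : Z m} {X : Finset (Z m)} (hβ : IsPU β) (hκ : κ ≤ 3 / 8)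
    (hR1 : 1 ≤ R) (hG : Cls L κ R A G)
    (hGc : ∀ ζ, G ζ ≠ 0 → ‖ζ.1⁻¹ • ζ.2.1 - c‖ ≤ 1 / K)
    (hXz : ∀ z ∈ X, ‖z - z₀‖ ≤ R) (hXH : ∀ z ∈ X, H ≤ ‖TF G z‖)
    (hsmall : CD * A * R ^ (-1 : ℝ) ≤ H / 2)
    (hD : ∃ S : Finset (Pk m),
      (∀ W ∈ S, W.1 ∈ Ks m (sR R) ∧ ∃ z, ‖z - z₀‖ ≤ R ∧ near R δ W z) ∧
      (S.card : ℝ) ≤ CD * R ^ (2 * ((m : ℝ) + 2)) ∧
      ∀ z, ‖z - z₀‖ ≤ R → ‖TF G z - ∑ W ∈ S, Fp β ψ R δ G W z‖ ≤ CD * A * R ^ (-1 : ℝ)) :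
    ∃ S : Finset (Pk m),
      (∀ W ∈ S, W.1 ∈ Ks m (sR R) ∧ (∃ z, ‖z - z₀‖ ≤ R ∧ near R δ W z) ∧
        ‖ctr (sR R) W.1‖ ≤ 3 ∧ ‖ctr (sR R) W.1 - c‖ ≤ 1 / K + sR R) ∧
      (S.card : ℝ) ≤ CD * R ^ (2 * ((m : ℝ) + 2)) ∧
      ∀ z ∈ X, H / 2 ≤ ‖∑ W ∈ S, Fp β ψ R δ G W z‖ := by
  classical
  have hR0 : 0 < R := by linarith
  have hsR : sR R ≤ 1 := by
    unfold sR
    exact inv_le_one_of_one_le₀ (Real.one_le_sqrt.2 hR1)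
  obtain ⟨S0, h1, h2, h3⟩ := hD
  refine ⟨S0.filter (fun W => ‖ctr (sR R) W.1‖ ≤ 3 ∧ ‖ctr (sR R) W.1 - c‖ ≤ 1 / K + sR R),
    ?_, ?_, ?_⟩
  · intro W hW
    rw [Finset.mem_filter] at hW
    exact ⟨(h1 W hW.1).1, (h1 W hW.1).2, hW.2.1, hW.2.2⟩
  · refine le_trans ?_ h2
    exact_mod_cast Finset.card_le_card (Finset.filter_subset _ _)
  · intro z hz
    have e1 : ∑ W ∈ S0.filter (fun W => ‖ctr (sR R) W.1‖ ≤ 3 ∧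
        ‖ctr (sR R) W.1 - c‖ ≤ 1 / K + sR R), Fp β ψ R δ G W z =
        ∑ W ∈ S0, Fp β ψ R δ G W z := by
      refine Finset.sum_subset (Finset.filter_subset _ _) (fun W hW hW' => ?_)
      by_cases h4 : ‖ctr (sR R) W.1 - c‖ ≤ 1 / K + sR R
      · have h5 : 3 < ‖ctr (sR R) W.1‖ := by
          by_contra h6
          exact hW' (Finset.mem_filter.2 ⟨hW, not_lt.1 h6, h4⟩)
        refine Fp_zero (t := 2) (c := 0) hβ hR0 (fun ζ hζ => ?_) W ?_ z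
        · rw [sub_zero, norm_smul, norm_inv]
          obtain ⟨g1, g2, g3, g4⟩ := hG.2.1 ζ hζ
          have g0 : 0 < ζ.1 := by linarith
          rw [Real.norm_of_nonneg g0.le, inv_mul_le_iff₀ g0]
          refine g3.trans ?_
          nlinarith
        · rw [sub_zero]; linarith
      · exact Fp_zero hβ hR0 hGc W (not_le.1 h4) z
    rw [e1]
    have e2 := h3 z (hXz z hz)
    have e3 := hXH z hz
    have e4 : ‖TF G z‖ ≤ ‖TF G z - ∑ W ∈ S0, Fp β ψ R δ G W z‖ +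
        ‖∑ W ∈ S0, Fp β ψ R δ G W z‖ := by
      have := norm_add_le (TF G z - ∑ W ∈ S0, Fp β ψ R δ G W z) (∑ W ∈ S0, Fp β ψ R δ G W z)
      rwa [sub_add_cancel] at this
    linarith

open Classical in
/-- outcome of the first pigeonhole -/
def P1 {m : ℕ} (N : ℕ) (β : E m → ℂ) (ψ : Z m → ℝ) (R δ : ℝ) (G : Z m → ℂ) (S : Finset (Pk m))
    (n : ℕ) (a₀ H : ℝ) (d : Finset (Pk m) × ℝ × ℕ) (X' : Finset (Z m)) : Prop :=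
  d.1 ⊆ S ∧ a₀ ≤ d.2.1 ∧ 1 ≤ d.2.2 ∧
    (∀ z ∈ X', H ≤ 4 * (n : ℝ) ^ 2 * ‖∑ W ∈ d.1, Fp β ψ R δ G W z‖) ∧
    (∀ W ∈ d.1, d.2.1 ≤ al N β R δ G W ∧ al N β R δ G W ≤ 2 * d.2.1) ∧
    ∀ W ∈ d.1, d.2.2 ≤ (d.1.filter (fun W' => tb R W' = tb R W)).card ∧
      (d.1.filter (fun W' => tb R W' = tb R W)).card ≤ 2 * d.2.2

/-- outcome of the third pigeonhole -/
def P3 {m : ℕ} (β : E m → ℂ) (ψ : Z m → ℝ) (R r δ : ℝ) (G : Z m → ℂ) (S : Finset (Pk m))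
    (QQ : Finset (Zi m)) (n : ℕ) (H : ℝ) (d : ℕ × ℕ) (X' : Finset (Z m)) : Prop :=
  ∀ z ∈ X', H ≤ 2 * ((n : ℝ) + 1) ^ 2 *
    ‖∑ W ∈ SB QQ R r δ d.1 d.2 S (bl R r (cb (Real.sqrt R) z)), Fp β ψ R δ G W z‖

open Classical in
/-- the three pigeonholes for three families -/
theorem pigeon (hPG1 : T_PG1) (hPG2 : T_PG2) (hPG3 : T_PG3) {m : ℕ} {N : ℕ} {β : E m → ℂ}
    {ψ : Z m → ℝ} {R r δ : ℝ} {G : Fin 3 → Z m → ℂ} (S : Fin 3 → Finset (Pk m)) (n : ℕ)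
    (a₀ H : ℝ) (X : Finset (Z m)) (ha₀ : 0 < a₀) (hH : 0 < H) (hn : 1 ≤ n)
    (hSn : ∀ i, (S i).card ≤ 2 ^ n) (hXn : X.card ≤ 2 ^ n)
    (hal : ∀ i, ∀ W ∈ S i, al N β R δ (G i) W ≤ 2 ^ n * a₀)
    (hX1 : ∀ i, ∀ z ∈ X, ∀ S' ⊆ S i, (∀ W ∈ S', al N β R δ (G i) W ≤ a₀) →
      ∑ W ∈ S', ‖Fp β ψ R δ (G i) W z‖ ≤ H / 2)
    (hX2 : ∀ i, ∀ z ∈ X, ∀ S' ⊆ S i, (∀ W ∈ S', ¬ Inc R δ (tb R W) (cb (Real.sqrt R) z)) →
      ∑ W ∈ S', ‖Fp β ψ R δ (G i) W z‖ ≤ H / (4 * (n : ℝ) ^ 2) / 2)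
    (hXH : ∀ i, ∀ z ∈ X, H ≤ ‖∑ W ∈ S i, Fp β ψ R δ (G i) W z‖) :
    ∃ (S' : Fin 3 → Finset (Pk m)) (a : Fin 3 → ℝ) (b : Fin 3 → ℕ) (l k : Fin 3 → ℕ) (ν : ℕ)
      (QQ : Finset (Zi m)) (X' : Finset (Z m)), X' ⊆ X ∧ QQ ⊆ X.image (cb (Real.sqrt R)) ∧
      (X.card : ℝ) ≤ 64 * ((n : ℝ) + 1) ^ 13 * X'.card ∧
      (∀ z ∈ X', ∀ i, H ≤ 8 * ((n : ℝ) + 1) ^ 4 * ‖∑ W ∈ SB QQ R r δ (l i) (k i) (S' i)
        (bl R r (cb (Real.sqrt R) z)), Fp β ψ R δ (G i) W z‖) ∧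
      (∀ i, S' i ⊆ S i ∧ a₀ ≤ a i ∧ 1 ≤ b i ∧
        (∀ W ∈ S' i, a i ≤ al N β R δ (G i) W ∧ al N β R δ (G i) W ≤ 2 * a i) ∧
        ∀ W ∈ S' i, b i ≤ ((S' i).filter (fun W' => tb R W' = tb R W)).card ∧
          ((S' i).filter (fun W' => tb R W' = tb R W)).card ≤ 2 * b i) ∧
      1 ≤ ν ∧ (ν : ℝ) * QQ.card ≤ ((n : ℝ) + 1) ^ 6 * X'.card ∧
      (∀ q, (X'.filter (fun z => cb (Real.sqrt R) z = q)).card ≤ 2 * ν) ∧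
      ∀ z ∈ X', cb (Real.sqrt R) z ∈ QQ := by
  have hn1 : (1 : ℝ) ≤ n := by exact_mod_cast hn
  have hn0 : (0 : ℝ) < n := by linarith
  -- first
  obtain ⟨d, X₁, hX₁, hc₁, hd⟩ := iter (X₀ := X) (Λ := 4 * (n : ℝ) ^ 2) (by nlinarith) 3
    (fun i => P1 N β ψ R δ (G i) (S i) n a₀ H)
    (fun i d Y Y' hY h => ⟨h.1, h.2.1, h.2.2.1, fun z hz => h.2.2.2.1 z (hY hz), h.2.2.2.2⟩)
    (fun i Y hY => by
      obtain ⟨S', Y', a, b, g1, g2, g3, g4, g5, g6, g7, g8⟩ := hPG1 (Pk m) (Z m) (Pk m) n (S i) Y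
        (fun W z => Fp β ψ R δ (G i) W z) (al N β R δ (G i)) (tb R) a₀ H ha₀ hH hn (hSn i)
        (hal i) (fun z hz => hX1 i z (hY hz)) (fun z hz => hXH i z (hY hz))
      refine ⟨(S', a, b), Y', g2, by exact_mod_cast g5, g1, g3, g4, g6, g7, ?_⟩
      intro W hW
      have := g8 W hW
      convert this)
    X (Finset.Subset.refl _)
  -- second
  obtain ⟨X₂, ν, hX₂, hν, hc₂, hν1, hν2⟩ := hPG2 (Z m) (Zi m) n X₁ (cb (Real.sqrt R))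
    ((Finset.card_le_card hX₁).trans hXn)
  set QQ := X₂.image (cb (Real.sqrt R)) with hQQ
  have hQn : QQ.card ≤ 2 ^ n :=
    Finset.card_image_le.trans ((Finset.card_le_card (hX₂.trans hX₁)).trans hXn)
  -- third
  obtain ⟨e, X₃, hX₃, hc₃, he⟩ := iter (X₀ := X₂) (Λ := ((n : ℝ) + 1) ^ 2) (by nlinarith) 3
    (fun i => P3 β ψ R r δ (G i) (d i).1 QQ n (H / (4 * (n : ℝ) ^ 2)))
    (fun i d Y Y' hY h => fun z hz => h z (hY hz))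
    (fun i Y hY => by
      obtain ⟨l, k, Y', g1, g2, g3⟩ := hPG3 m n R r δ (H / (4 * (n : ℝ) ^ 2)) QQ (d i).1 Y
        (fun W z => Fp β ψ R δ (G i) W z) (by positivity) hQn
        (fun z hz => Finset.mem_image_of_mem _ (hY hz))
        (fun z hz S' hS' hW => hX2 i z (hX₁ (hX₂ (hY hz))) S' (hS'.trans (hd i).1) hW)
        (fun z hz => by
          have := (hd i).2.2.2.1 z (hX₂ (hY hz))
          rw [div_le_iff₀ (by positivity)]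
          linarith)
      exact ⟨(l, k), Y', g1, by exact_mod_cast g2, g3⟩)
    X₂ (Finset.Subset.refl _)
  refine ⟨fun i => (d i).1, fun i => (d i).2.1, fun i => (d i).2.2, fun i => (e i).1,
    fun i => (e i).2, ν, QQ, X₃, (hX₃.trans hX₂).trans hX₁,
    Finset.image_subset_image (hX₂.trans hX₁), ?_, ?_, ?_, hν, ?_, ?_, ?_⟩
  · have c2 : (X₁.card : ℝ) ≤ ((n : ℝ) + 1) * X₂.card := by exact_mod_cast hc₂
    calc (X.card : ℝ) ≤ (4 * (n : ℝ) ^ 2) ^ 3 * X₁.card := hc₁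
      _ ≤ (4 * ((n : ℝ) + 1) ^ 2) ^ 3 * (((n : ℝ) + 1) * ((((n : ℝ) + 1) ^ 2) ^ 3 * X₃.card)) := by
          gcongr
          · linarith
          · refine c2.trans ?_
            gcongr
      _ = 64 * ((n : ℝ) + 1) ^ 13 * X₃.card := by ring
  · intro z hz i
    have h1 := he i z hz
    rw [div_le_iff₀ (by positivity)] at h1
    refine h1.trans ?_
    set y := ‖∑ W ∈ SB QQ R r δ (e i).1 (e i).2 (d i).1 (bl R r (cb (Real.sqrt R) z)),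
      Fp β ψ R δ (G i) W z‖ with hy
    have hy0 : 0 ≤ y := norm_nonneg _
    calc 2 * ((n : ℝ) + 1) ^ 2 * y * (4 * (n : ℝ) ^ 2)
        ≤ 2 * ((n : ℝ) + 1) ^ 2 * y * (4 * ((n : ℝ) + 1) ^ 2) := by
          gcongr; linarith
      _ = 8 * ((n : ℝ) + 1) ^ 4 * y := by ring
  · intro i
    exact ⟨(hd i).1, (hd i).2.1, (hd i).2.2.1, (hd i).2.2.2.2.1, (hd i).2.2.2.2.2⟩
  · -- ν QQ ≤
    have h1 : (QQ.card : ℝ) * ν ≤ X₂.card := by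
      refine card_tb X₂ (cb (Real.sqrt R)) ν (fun z hz => ?_)
      refine Nat.cast_le.2 (le_trans (hν1 z hz) (le_of_eq ?_))
      congr
    calc (ν : ℝ) * QQ.card = QQ.card * ν := by ring
      _ ≤ X₂.card := h1
      _ ≤ (((n : ℝ) + 1) ^ 2) ^ 3 * X₃.card := hc₃
      _ = ((n : ℝ) + 1) ^ 6 * X₃.card := by ring
  · intro q
    have h1 := hν2 q
    refine le_trans (Finset.card_le_card ?_) h1
    intro z hz
    simp only [Finset.mem_filter] at hz ⊢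
    exact ⟨hX₃ hz.1, hz.2⟩
  · intro z hz
    exact Finset.mem_image_of_mem _ (hX₃ hz)

end Pool.Agent.H83.G.BRO
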