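import Mathlib

/-!
Local smoothing beyond decoupling (MP_ee74d2_an, Theorem G): definitions.

Dimension `d = m + 1`, space-time `Z m = ℝ × ℝ^m × ℝ` (sup norm) with light cone coordinates
`z = (v, y, w)`, frequencies `ζ = (a, ξ, b)`, the cone is `b = |ξ|²/a`. `e x = exp(2πix)`.
-/

set_option autoImplicit false

namespace Pool.Agent.H83.G

open MeasureTheory Set
open scoped ENNReal NNReal RealInnerProductSpace

/-- `ℝ^m` -/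
abbrev E (m : ℕ) := EuclideanSpace ℝ (Fin m)

/-- space-time (and its dual), with the sup norm of the three components -/
abbrev Z (m : ℕ) := ℝ × E m × ℝ

/-- the lattice of indices -/
abbrev Zi (m : ℕ) := ℤ × (Fin m → ℤ) × ℤ

/-- indices of planks: `(k, l)`, `k` is the index of the cap -/
abbrev Pk (m : ℕ) := (Fin m → ℤ) × Zi m

section

variable {m : ℕ}

/-- `e x = exp(2πix)` -/
noncomputable def e (x : ℝ) : ℂ := Complex.exp (((2 * Real.pi * x : ℝ) : ℂ) * Complex.I)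

/-- the pairing -/
noncomputable def ph (z ζ : Z m) : ℝ := z.1 * ζ.1 + ⟪z.2.1, ζ.2.1⟫ + z.2.2 * ζ.2.2

/-- smooth with compact support -/
def TC (G : Z m → ℂ) : Prop := ContDiff ℝ (⊤ : ℕ∞) G ∧ HasCompactSupport G

/-- inverse Fourier transform -/
noncomputable def TF (G : Z m → ℂ) (z : Z m) : ℂ := ∫ ζ : Z m, e (ph z ζ) * G ζ

/-- polynomial weight -/
noncomputable def wt (N : ℕ) (z : Z m) : ℝ := ((1 + ‖z‖) ^ N)⁻¹

/-- Lorentz rescaling adapted to the cap of centre `η` and radius `s` -/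
noncomputable def Lo (η : E m) (s : ℝ) (z : Z m) : Z m :=
  (z.1 + ⟪z.2.1, η⟫ + z.2.2 * ‖η‖ ^ 2, s • (z.2.1 + (2 * z.2.2) • η), s ^ 2 * z.2.2)

/-- the dual map: `ph z (Ld η s ζ) = ph (Lo η s z) ζ` -/
noncomputable def Ld (η : E m) (s : ℝ) (ζ : Z m) : Z m :=
  (ζ.1, s • ζ.2.1 + ζ.1 • η, s ^ 2 * ζ.2.2 + 2 * s * ⟪ζ.2.1, η⟫ + ζ.1 * ‖η‖ ^ 2)

/-- the plank of centre `z₀`, sides `r × (r/s)^m × r/s²` -/
def pl (η : E m) (s r : ℝ) (z₀ : Z m) : Set (Z m) := {z | ‖Lo η s (z - z₀)‖ ≤ r}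

/-- the frequency region: `c`-neighbourhood of the cone over the unit ball -/
def Rg (m : ℕ) (κ c : ℝ) : Set (Z m) :=
  {ζ | 1 - κ ≤ ζ.1 ∧ ζ.1 ≤ 4 + κ ∧ ‖ζ.2.1‖ ≤ (1 + κ) * ζ.1 ∧
    |ζ.2.2 - ‖ζ.2.1‖ ^ 2 / ζ.1| ≤ (1 + κ) * c}

/-- normalized bumps with `L` derivatives -/
def Bp (m L : ℕ) : Set (E m → ℂ) :=
  {φ | ContDiff ℝ (⊤ : ℕ∞) φ ∧ (∀ x, 1 ≤ ‖x‖ → φ x = 0) ∧
    ∀ j ≤ L, ∀ x, ‖iteratedFDeriv ℝ j φ x‖ ≤ 1}

/-- cap multiplier -/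
noncomputable def cp (φ : E m → ℂ) (η : E m) (s : ℝ) (ζ : Z m) : ℂ :=
  φ (s⁻¹ • (ζ.1⁻¹ • ζ.2.1 - η))

/-- `TF` of the part of `G` in the cap -/
noncomputable def TP (φ : E m → ℂ) (η : E m) (s : ℝ) (G : Z m → ℂ) (z : Z m) : ℂ :=
  TF (fun ζ => cp φ η s ζ * G ζ) z

/-- the class of functions at scale `R` with amplitude `A` -/
def Cls (L : ℕ) (κ R A : ℝ) (G : Z m → ℂ) : Prop :=
  TC G ∧ (∀ ζ, G ζ ≠ 0 → ζ ∈ Rg m κ R⁻¹) ∧
  ∀ φ ∈ Bp m L, ∀ (η : E m) (s r : ℝ) (z₀ : Z m), 0 < s → s ≤ 1 → 1 ≤ r → r ≤ R * s ^ 2 →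
    ∫⁻ z in pl η s r z₀, ‖TP φ η s G z‖ₑ ^ 2 ≤
      ENNReal.ofReal (A ^ 2 * (R * s ^ 2 / r) ^ m * (r / s) ^ (m + 2))

/-- `1`-separated finite sets -/
def Sep (X : Finset (Z m)) : Prop := ∀ z ∈ X, ∀ z' ∈ X, z ≠ z' → 1 ≤ ‖z - z'‖

/-- the exponent: `p = 2 + 8/(3m)` -/
noncomputable def xm (m : ℕ) : ℝ := 8 / (3 * (m : ℝ))

/-- the level set estimate at scale `R` with constant `g`; note `m * xm m / 2 = 4/3` -/
def Bd (m L : ℕ) (κ R g : ℝ) : Prop :=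
  ∀ (A H : ℝ) (G : Z m → ℂ) (X : Finset (Z m)), 0 < A → 0 < H → Cls L κ R A G → Sep X →
    (∀ z ∈ X, H ≤ ‖TF G z‖) →
    (X.card : ℝ) * H ^ (2 + xm m) ≤ g * A ^ xm m * R ^ (1 / 3 : ℝ) * ∫ ζ, ‖G ζ‖ ^ 2

/-- centres of the caps of radius `s` -/
noncomputable def ctr (s : ℝ) (k : Fin m → ℤ) : E m :=
  (s / ((m : ℝ) + 1)) • WithLp.toLp 2 (fun i => (k i : ℝ))

/-- the caps of radius `s` which meet `|ξ| ≤ 3a/2`, and a few more -/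
noncomputable def Ks (m : ℕ) (s : ℝ) : Finset (Fin m → ℤ) :=
  Fintype.piFinset fun _ => Finset.Icc (-⌈3 * ((m : ℝ) + 1) / s⌉) ⌈3 * ((m : ℝ) + 1) / s⌉

/-- partition functions: `∑ₖ β(x - k/(m+1)) = 1` -/
def IsPU (β : E m → ℂ) : Prop :=
  ContDiff ℝ (⊤ : ℕ∞) β ∧ (∀ x, 1 ≤ ‖x‖ → β x = 0) ∧
  (∀ x, ∃ r : ℝ, 0 ≤ r ∧ r ≤ 1 ∧ β x = (r : ℂ)) ∧ ∀ x, HasSum (fun k => β (x - ctr 1 k)) 1

/-- the point of space-time with integer coordinates -/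
noncomputable def zc (l : Zi m) : Z m :=
  ((l.1 : ℝ), WithLp.toLp 2 (fun i => (l.2.1 i : ℝ)), (l.2.2 : ℝ))

/-- band limited partition functions: `∑ₗ ψ(z - l) = 1` -/
def IsPsi (Ψ : Z m → ℂ) (ψ : Z m → ℝ) : Prop :=
  TC Ψ ∧ (∀ ζ, Ψ ζ ≠ 0 → ‖ζ‖ ≤ 1 / 1000) ∧ (∀ z, (ψ z : ℂ) = TF Ψ z) ∧ (∀ z, 0 ≤ ψ z) ∧
  ∀ z, HasSum (fun l : Zi m => ψ (z - zc l)) 1

/-- band limited functions at least `1` on a ball -/
def IsLow (Ξ : Z m → ℂ) (χ : Z m → ℝ) : Prop :=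
  TC Ξ ∧ (∀ ζ, Ξ ζ ≠ 0 → ‖ζ‖ ≤ 1 / 1000) ∧ (∀ z, (χ z : ℂ) = TF Ξ z) ∧ (∀ z, 0 ≤ χ z) ∧
  ∀ z, ‖z‖ ≤ 2 * (m : ℝ) + 4 → 1 ≤ χ z

/-- the radius `R^{-1/2}` of the small caps -/
noncomputable def sR (R : ℝ) : ℝ := (Real.sqrt R)⁻¹

/-- coordinates of the fat planks of the cap `k` -/
noncomputable def fc (R δ : ℝ) (k : Fin m → ℤ) (z : Z m) : Z m :=
  R ^ (-δ) • Lo (ctr (sR R) k) (sR R) z

/-- the point `z` is near the plank `W` -/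
def near (R δ : ℝ) (W : Pk m) (z : Z m) : Prop := ‖fc R δ W.1 z - zc W.2‖ ≤ R ^ δ

/-- wave packets -/
noncomputable def Fp (β : E m → ℂ) (ψ : Z m → ℝ) (R δ : ℝ) (G : Z m → ℂ) (W : Pk m) (z : Z m) : ℂ :=
  TP β (ctr (sR R) W.1) (sR R) G z * (ψ (fc R δ W.1 z - zc W.2) : ℂ)

/-- square of the amplitude of a wave packet -/
noncomputable def al2 (N : ℕ) (β : E m → ℂ) (R δ : ℝ) (G : Z m → ℂ) (W : Pk m) : ℝ≥0∞ :=
  ENNReal.ofReal (R ^ (-(δ * ((m : ℝ) + 2))) * sR R ^ (m + 2)) *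
    ∫⁻ z, ‖TP β (ctr (sR R) W.1) (sR R) G z‖ₑ ^ 2 *
      ENNReal.ofReal (wt N (fc R δ W.1 z - zc W.2))

/-- amplitude of a wave packet -/
noncomputable def al (N : ℕ) (β : E m → ℂ) (R δ : ℝ) (G : Z m → ℂ) (W : Pk m) : ℝ :=
  Real.sqrt (al2 N β R δ G W).toReal

/-- the tube (sides `R^{1/2}, .., R^{1/2}, R`) which contains the plank `W` -/
noncomputable def tb (R : ℝ) (W : Pk m) : Pk m :=
  (W.1, (W.2.1 / ⌈Real.sqrt R⌉, W.2.2.1, W.2.2.2))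

/-- index of the cube of side `ρ` which contains `z` -/
noncomputable def cb (ρ : ℝ) (z : Z m) : Zi m :=
  (⌊z.1 / ρ⌋, fun i => ⌊z.2.1 i / ρ⌋, ⌊z.2.2 / ρ⌋)

/-- index of the cube of side `r` which contains the corner of the cube `q` of side `R^{1/2}` -/
noncomputable def bl (R r : ℝ) (q : Zi m) : Zi m := cb r (Real.sqrt R • zc q)

/-- incidences of tubes and (fat) cubes of side `R^{1/2}`: the tube `T` passes at distance at most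
`(m+1) R^{1/2+δ}` of the corner of the cube `q` -/
def Inc (R δ : ℝ) (T : Pk m) (q : Zi m) : Prop :=
  ∃ (W : Pk m) (z : Z m), tb R W = T ∧
    ‖z - Real.sqrt R • zc q‖ ≤ ((m : ℝ) + 1) * R ^ (1 / 2 + δ) ∧ near R δ W z

/-- number of cubes of `QQ` in the ball `B` on the tube `T` -/
noncomputable def mu (QQ : Finset (Zi m)) (R r δ : ℝ) (T : Pk m) (B : Zi m) : ℕ := by
  classical
  exact (QQ.filter (fun q => bl R r q = B ∧ Inc R δ T q)).card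

/-- number of balls in which the tube `T` has about `2^l` cubes of `QQ` -/
noncomputable def nB (QQ : Finset (Zi m)) (R r δ : ℝ) (l : ℕ) (T : Pk m) : ℕ := by
  classical
  exact ((QQ.image (bl R r)).filter
    (fun B => 2 ^ l ≤ mu QQ R r δ T B ∧ mu QQ R r δ T B < 2 ^ (l + 1))).card

/-- shading classes: `T` has about `2^l` cubes of `QQ` in `B`, and about `2^k` such balls -/
def Sh (QQ : Finset (Zi m)) (R r δ : ℝ) (l k : ℕ) (T : Pk m) (B : Zi m) : Prop :=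
  2 ^ l ≤ mu QQ R r δ T B ∧ mu QQ R r δ T B < 2 ^ (l + 1) ∧ 2 ^ k ≤ nB QQ R r δ l T ∧
    nB QQ R r δ l T < 2 ^ (k + 1)

/-- the planks of `S` whose tube is in the shading class in the ball `B` -/
noncomputable def SB (QQ : Finset (Zi m)) (R r δ : ℝ) (l k : ℕ) (S : Finset (Pk m)) (B : Zi m) :
    Finset (Pk m) := by
  classical
  exact S.filter (fun W => Sh QQ R r δ l k (tb R W) B)

/-- multiplicity of the planks of `S`, with weights -/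
noncomputable def MS (N : ℕ) (R δ : ℝ) (S : Finset (Pk m)) (z : Z m) : ℝ :=
  ∑ W ∈ S, wt N (fc R δ W.1 z - zc W.2)

end

end Pool.Agent.H83.G
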