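import Pool.Agent.H83.G.TenA

/-! Theorem G: the two-ends case. -/

set_option autoImplicit false

namespace Pool.Agent.H83.G.TEN

open Pool.Agent.H83.G MeasureTheory Set
open scoped ENNReal NNReal RealInnerProductSpace

open Classical in
theorem count_near {m : ℕ} (S : Finset (Pk m)) (QQ : Finset (Zi m)) (R r δ : ℝ) (l k : ℕ)
    (z : Z m) (B : Zi m) (D : ℝ) (hD : 0 ≤ D)
    (hnear : ∀ W : Pk m, near R δ W z → Inc R δ (tb R W) (cb (Real.sqrt R) z))
    (hHG : ∀ (k : Fin m → ℤ) (S : Finset (Pk m)), (∀ W ∈ S, W.1 = k ∧ near R δ W z) →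
      (S.card : ℝ) ≤ D) :
    ((((SB QQ R r δ l k S B).filter (fun W => near R δ W z)).card : ℕ) : ℝ) ≤
      (((S.image (tb R)).filter (fun T => Inc R δ T (cb (Real.sqrt R) z) ∧
        Sh QQ R r δ l k T B)).card : ℝ) * D := by
  set F := (SB QQ R r δ l k S B).filter (fun W => near R δ W z) with hF
  have h1 : (F.card : ℝ) ≤ ((F.image (tb R)).card : ℝ) * D := by
    refine card_tb' F (tb R) D (fun W hW => ?_)
    refine hHG W.1 _ (fun W' hW' => ?_)
    rw [Finset.mem_filter] at hW'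
    refine ⟨?_, ?_⟩
    · have := congrArg Prod.fst hW'.2
      simpa [tb] using this
    · exact (Finset.mem_filter.1 hW'.1).2
  refine h1.trans ?_
  refine mul_le_mul_of_nonneg_right ?_ hD
  have h2 : F.image (tb R) ⊆ (S.image (tb R)).filter (fun T => Inc R δ T (cb (Real.sqrt R) z) ∧
        Sh QQ R r δ l k T B) := by
    intro T hT
    obtain ⟨W, hW, rfl⟩ := Finset.mem_image.1 hT
    rw [hF, Finset.mem_filter] at hW
    have h3 : W ∈ S ∧ Sh QQ R r δ l k (tb R W) B := by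
      have := hW.1
      unfold SB at this
      simpa using this
    rw [Finset.mem_filter]
    exact ⟨Finset.mem_image_of_mem _ h3.1, hnear W hW.2, h3.2⟩
  exact_mod_cast Finset.card_le_card h2

theorem mem_SB {m : ℕ} {S : Finset (Pk m)} {QQ : Finset (Zi m)} {R r δ : ℝ} {l k : ℕ}
    {B : Zi m} {W : Pk m} : W ∈ SB QQ R r δ l k S B ↔ W ∈ S ∧ Sh QQ R r δ l k (tb R W) B := by
  unfold SB
  simp

open Classical in
/-- there are planks near the points -/
theorem near_pos {m : ℕ} {β : E m → ℂ} {ψ : Z m → ℝ} {δ R A H b₀ C₇ : ℝ} {G : Z m → ℂ}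
    (hb₀ : 0 < b₀) (hA : 0 < A) (hR1 : 1 ≤ R) (hδ' : δ ≤ 1 / 100) (hC₇ : 0 < C₇)
    (hAH : b₀ * A ≤ R ^ δ * H) (e9 : C₇ / b₀ < R ^ δ) (S : Finset (Pk m)) (z : Z m)
    (h7 : (∀ W ∈ S, ¬ near R δ W z) → ∑ W ∈ S, ‖Fp β ψ R δ G W z‖ ≤ C₇ * A * R ^ (-1 : ℝ))
    (hH : H ≤ ‖∑ W ∈ S, Fp β ψ R δ G W z‖) :
    1 ≤ (S.filter (fun W => near R δ W z)).card := by
  by_contra hcon
  have e0 : S.filter (fun W => near R δ W z) = ∅ := by
    rw [← Finset.card_eq_zero]; omega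
  have e1 : ∀ W ∈ S, ¬ near R δ W z := by
    intro W hW hn
    have : W ∈ S.filter (fun W => near R δ W z) := Finset.mem_filter.2 ⟨hW, hn⟩
    rw [e0] at this
    simp at this
  exact neg_contra b₀ A R δ H C₇ hb₀ hA hR1 hδ' hC₇ hAH e9
    ((hH.trans (norm_sum_le _ _)).trans (h7 e1))

open Classical in
theorem tubes_pos {m : ℕ} (S : Finset (Pk m)) (QQ : Finset (Zi m)) (R r δ : ℝ) (l k : ℕ)
    (z : Z m) (B : Zi m)
    (hnear : ∀ W : Pk m, near R δ W z → Inc R δ (tb R W) (cb (Real.sqrt R) z))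
    (h : 1 ≤ ((SB QQ R r δ l k S B).filter (fun W => near R δ W z)).card) :
    1 ≤ ((S.image (tb R)).filter (fun T => Inc R δ T (cb (Real.sqrt R) z) ∧
        Sh QQ R r δ l k T B)).card := by
  rw [Nat.one_le_iff_ne_zero, Finset.card_ne_zero] at h ⊢
  obtain ⟨W, hW⟩ := h
  rw [Finset.mem_filter] at hW
  refine ⟨tb R W, ?_⟩
  rw [Finset.mem_filter]
  exact ⟨Finset.mem_image_of_mem _ (mem_SB.1 hW.1).1, hnear W hW.2, (mem_SB.1 hW.1).2⟩

open Classical in
/-- the hypotheses of the hairbrush inequality for the shading classes -/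
theorem sh_counts {m : ℕ} (QQ : Finset (Zi m)) (R r δ : ℝ) (l k : ℕ) (T : Pk m) (B : Zi m)
    (h : Sh QQ R r δ l k T B) :
    (2 ^ l ≤ (QQ.filter fun q => bl R r q = B ∧ Inc R δ T q).card ∧
    (QQ.filter fun q => bl R r q = B ∧ Inc R δ T q).card < 2 ^ (l + 1)) ∧
    2 ^ k ≤ ((QQ.image (bl R r)).filter fun B' => Sh QQ R r δ l k T B').card ∧
    ((QQ.image (bl R r)).filter fun B' => Sh QQ R r δ l k T B').card < 2 ^ (k + 1) := by
  have e1 : mu QQ R r δ T B = (QQ.filter fun q => bl R r q = B ∧ Inc R δ T q).card := by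
    unfold mu; congr
  have e2 : nB QQ R r δ l T =
      ((QQ.image (bl R r)).filter fun B' => Sh QQ R r δ l k T B').card := by
    unfold nB
    apply congrArg Finset.card
    ext B'
    simp only [Finset.mem_filter]
    constructor
    · rintro ⟨a1, a2, a3⟩
      exact ⟨a1, a2, a3, h.2.2.1, h.2.2.2⟩
    · rintro ⟨a1, a2, a3, -⟩
      exact ⟨a1, a2, a3⟩
  rw [← e1, ← e2]
  exact ⟨⟨h.1, h.2.1⟩, h.2.2.1, h.2.2.2⟩

end Pool.Agent.H83.G.TEN
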