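import Pool.Agent.H83.G.Targets1

/-!
Theorem G (MP_ee74d2_an): targets of groups C (class) and P (wave packets).
`lo m = 100 (m + 2)` is the exponent of the losses `R^(lo m * δ)`.
-/

set_option autoImplicit false

namespace Pool.Agent.H83.G

open MeasureTheory Set
open scoped ENNReal NNReal RealInnerProductSpace

/-- the exponent of the losses -/
noncomputable def lo (m : ℕ) : ℝ := 100 * ((m : ℝ) + 2)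

/-! ### class -/

/-- RSC: rescaling of a cap -/
def T_RSC : Prop := ∀ (m L : ℕ), ∃ C : ℝ, 1 ≤ C ∧ ∀ (κ R A : ℝ) (G : Z m → ℂ) (φ : E m → ℂ)
  (η : E m) (s : ℝ), φ ∈ Bp m L → 0 ≤ κ → κ ≤ 1 / 2 → 0 < A → 0 < s → s ≤ 1 → 1 ≤ R * s ^ 2 →
  Cls L κ R A G → ∃ G' : Z m → ℂ, Cls L κ (R * s ^ 2) (C * A) G' ∧
  (∀ z, TF G' (Lo η s z) = TP φ η s G z) ∧
  ∫ ζ, ‖G' ζ‖ ^ 2 = s ^ (m + 2) * ∫ ζ, ‖cp φ η s ζ * G ζ‖ ^ 2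

/-- CLR: square functions of caps of radius `σ` -/
def T_CLR : Prop := ∀ (m L : ℕ) (β : E m → ℂ) (δ D : ℝ), IsPU β → 0 < δ → 1 ≤ D →
  ∃ C : ℝ, 0 < C ∧ ∀ (κ R A : ℝ) (G : Z m → ℂ) (σ s r : ℝ) (η : E m) (z₀ : Z m)
  (I : Finset (Fin m → ℤ)), 0 ≤ κ → κ ≤ 1 / 2 → 1 ≤ R → 0 < A → Cls L κ R A G →
  sR R ≤ σ → σ ≤ s → 0 < s → s ≤ 1 → 1 ≤ r → r ≤ R * s ^ 2 → s ≤ r * σ →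
  (∀ k ∈ I, ‖ctr σ k - η‖ ≤ D * s) →
  ∑ k ∈ I, ∫⁻ z in pl η s r z₀, ‖TP β (ctr σ k) σ G z‖ₑ ^ 2 ≤
    ENNReal.ofReal (C * R ^ δ * (A ^ 2 * (R * s ^ 2 / r) ^ m * (r / s) ^ (m + 2)))

/-- SPK: sup bounds -/
def T_SPK : Prop := ∀ (m L : ℕ) (β : E m → ℂ), IsPU β → ∃ C : ℝ, 0 < C ∧
  ∀ (κ R A : ℝ) (G : Z m → ℂ), 0 ≤ κ → κ ≤ 1 / 2 → 1 ≤ R → 0 < A → Cls L κ R A G →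
  (∀ k z, ‖TP β (ctr (sR R) k) (sR R) G z‖ ≤ C * A) ∧ ∀ z, ‖TF G z‖ ≤ C * A * R ^ ((m : ℝ) / 2)

/-- CPC: pieces in caps of fixed radius stay in the class -/
def T_CPC : Prop := ∀ (m L : ℕ) (β : E m → ℂ) (K : ℝ), IsPU β → 1 ≤ K → ∃ C : ℝ, 1 ≤ C ∧
  ∀ (κ R A : ℝ) (G : Z m → ℂ) (c : E m), 0 ≤ κ → κ ≤ 1 / 2 → 1 ≤ R → 0 < A → ‖c‖ ≤ 4 * m + 4 →
  Cls L κ R A G → Cls L κ R (C * A) (fun ζ => cp β c K⁻¹ ζ * G ζ)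

/-- the hypotheses of the stability lemma: `G'` is a family of pieces, `G' k` near the cap `k` of
radius `R^{-1/2}`, pointwise dominated by the pieces of `G` -/
def Sub {m : ℕ} (β : E m → ℂ) (D R : ℝ) (G : Z m → ℂ) (G' : (Fin m → ℤ) → Z m → ℂ)
    (I : Finset (Fin m → ℤ)) : Prop :=
  (∀ k ∈ I, TC (G' k)) ∧
  (∀ k ∈ I, ∀ ζ, G' k ζ ≠ 0 → 1 / 4 ≤ ζ.1 ∧ ζ.1 ≤ 8 ∧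
    ‖ζ.1⁻¹ • ζ.2.1 - ctr (sR R) k‖ ≤ D * sR R) ∧
  ∀ k ∈ I, ∀ z, ‖TF (G' k) z‖ ≤ D * ‖TP β (ctr (sR R) k) (sR R) G z‖

/-- SSA: stability of sub-sums, wide planks -/
def T_SSA : Prop := ∀ (m L : ℕ) (β : E m → ℂ) (δ D : ℝ), IsPU β → 0 < δ → 1 ≤ D →
  2 * m + 6 ≤ L → ∃ C : ℝ, 0 < C ∧ ∀ (κ R A : ℝ) (G : Z m → ℂ) (G' : (Fin m → ℤ) → Z m → ℂ)
  (I : Finset (Fin m → ℤ)), 0 ≤ κ → κ ≤ 1 / 2 → 1 ≤ R → 0 < A → Cls L κ R A G →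
  Sub β D R G G' I → ∀ φ ∈ Bp m L, ∀ (η : E m) (s r : ℝ) (z₀ : Z m), 0 < s → s ≤ 1 → 1 ≤ r →
  r ≤ R * s ^ 2 → Real.sqrt R ≤ r / s →
  ∫⁻ z in pl η s r z₀, ‖TP φ η s (fun ζ => ∑ k ∈ I, G' k ζ) z‖ₑ ^ 2 ≤
    ENNReal.ofReal (C * R ^ δ * (A ^ 2 * (R * s ^ 2 / r) ^ m * (r / s) ^ (m + 2)))

/-- SSB: stability of sub-sums, narrow planks -/
def T_SSB : Prop := ∀ (m L : ℕ) (β : E m → ℂ) (D : ℝ), IsPU β → 1 ≤ D →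
  2 * m + 6 ≤ L → ∃ C : ℝ, 0 < C ∧ ∀ (κ R A : ℝ) (G : Z m → ℂ) (G' : (Fin m → ℤ) → Z m → ℂ)
  (I : Finset (Fin m → ℤ)), 0 ≤ κ → κ ≤ 1 / 2 → 1 ≤ R → 0 < A → Cls L κ R A G →
  Sub β D R G G' I → ∀ φ ∈ Bp m L, ∀ (η : E m) (s r : ℝ) (z₀ : Z m), 0 < s → s ≤ 1 → 1 ≤ r →
  r ≤ R * s ^ 2 → r / s ≤ Real.sqrt R →
  ∫⁻ z in pl η s r z₀, ‖TP φ η s (fun ζ => ∑ k ∈ I, G' k ζ) z‖ₑ ^ 2 ≤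
    ENNReal.ofReal (C * (A ^ 2 * (R * s ^ 2 / r) ^ m * (r / s) ^ (m + 2)))

/-- DRF: drift of the supports -/
def T_DRF : Prop := ∀ m : ℕ, ∃ C : ℝ, 1 ≤ C ∧ ∀ (κ R r δ : ℝ) (k : Fin m → ℤ)
  (ζ₁ ζ₂ ζ₃ : Z m), 0 ≤ κ → κ ≤ 3 / 8 → 0 < δ → δ ≤ 1 / 4 → 1 ≤ R → C ≤ R ^ δ → Real.sqrt R ≤ r →
  r ≤ R / C ∨ ζ₃ = 0 ∧ r = R → ζ₁ ∈ Rg m κ R⁻¹ →
  ‖ζ₁.1⁻¹ • ζ₁.2.1 - ctr (sR R) k‖ ≤ sR R → ‖ζ₂‖ ≤ 1 / 1000 → ‖ζ₃‖ ≤ 1 / 1000 →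
  ∀ ζ, ζ = ζ₁ + R ^ (-δ) • Ld (ctr (sR R) k) (sR R) ζ₂ + r⁻¹ • ζ₃ →
  ζ ∈ Rg m (κ + C * R ^ (-δ)) r⁻¹ ∧ ‖ζ.1⁻¹ • ζ.2.1 - ctr (sR R) k‖ ≤ 2 * sR R ∧
  1 / 4 ≤ ζ.1 ∧ ζ.1 ≤ 8

/-- PKT: sums of wave packets of a cap are band limited -/
def T_PKT : Prop := ∀ (m : ℕ) (β : E m → ℂ) (Ψ Ξ : Z m → ℂ) (ψ χ : Z m → ℝ), IsPU β →
  IsPsi Ψ ψ → IsLow Ξ χ → ∃ C : ℝ, 1 ≤ C ∧ ∀ (κ R r δ : ℝ) (G : Z m → ℂ) (S : Finset (Pk m))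
  (z₁ : Z m), 0 ≤ κ → κ ≤ 3 / 8 → 0 < δ → δ ≤ 1 / 4 → 1 ≤ R → C ≤ R ^ δ → TC G →
  (∀ ζ, G ζ ≠ 0 → ζ ∈ Rg m κ R⁻¹) →
  (∃ G' : (Fin m → ℤ) → Z m → ℂ, (∀ k, TC (G' k)) ∧
    (∀ k ζ, G' k ζ ≠ 0 → ζ ∈ Rg m (κ + C * R ^ (-δ)) R⁻¹ ∧
      ‖ζ.1⁻¹ • ζ.2.1 - ctr (sR R) k‖ ≤ 2 * sR R) ∧
    (∀ k z, TF (G' k) z = ∑ W ∈ S.filter (fun W => W.1 = k), Fp β ψ R δ G W z) ∧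
    ∀ k z, ‖TF (G' k) z‖ ≤ C * ‖TP β (ctr (sR R) k) (sR R) G z‖) ∧
  (Real.sqrt R ≤ r → r ≤ R / C → ∃ G' : (Fin m → ℤ) → Z m → ℂ, (∀ k, TC (G' k)) ∧
    (∀ k ζ, G' k ζ ≠ 0 → ζ ∈ Rg m (κ + C * R ^ (-δ)) r⁻¹ ∧
      ‖ζ.1⁻¹ • ζ.2.1 - ctr (sR R) k‖ ≤ 2 * sR R) ∧
    (∀ k z, TF (G' k) z = (χ (r⁻¹ • (z - z₁)) : ℂ) *
      ∑ W ∈ S.filter (fun W => W.1 = k), Fp β ψ R δ G W z) ∧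
    ∀ k z, ‖TF (G' k) z‖ ≤ C * ‖TP β (ctr (sR R) k) (sR R) G z‖)

/-- SSC: stability of the class under localized sub-sums -/
def T_SSC : Prop := ∀ (m L : ℕ) (β : E m → ℂ) (Ψ Ξ : Z m → ℂ) (ψ χ : Z m → ℝ) (δ δ' : ℝ),
  IsPU β → IsPsi Ψ ψ → IsLow Ξ χ → 0 < δ → δ ≤ 1 / 4 → 0 < δ' → 2 * m + 6 ≤ L →
  ∃ C : ℝ, 1 ≤ C ∧ ∀ (κ R r A : ℝ) (G : Z m → ℂ) (S : Finset (Pk m)) (z₁ : Z m), 0 ≤ κ →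
  κ ≤ 3 / 8 → 1 ≤ R → C ≤ R ^ δ → Real.sqrt R ≤ r → r ≤ R / C → 0 < A → Cls L κ R A G →
  ∃ G' : Z m → ℂ, Cls L (κ + C * R ^ (-δ)) r (C * R ^ δ' * A * (R / r) ^ ((m : ℝ) / 2)) G' ∧
  ∀ z, TF G' z = (χ (r⁻¹ • (z - z₁)) : ℂ) * ∑ W ∈ S, Fp β ψ R δ G W z

/-! ### wave packets -/

/-- energy near the ball of radius `R` and centre `z₀` -/
noncomputable def Er {m : ℕ} (N : ℕ) (β : E m → ℂ) (R δ : ℝ) (G : Z m → ℂ) (z₀ : Z m) : ℝ≥0∞ :=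
  ∑ k ∈ Ks m (sR R), ∫⁻ z, ‖TP β (ctr (sR R) k) (sR R) G z‖ₑ ^ 2 *
    ENNReal.ofReal (wt N (R ^ (-(1 + 2 * δ)) • (z - z₀)))

/-- PTW: pointwise bound of the wave packets -/
def T_PTW : Prop := ∀ (m N N' : ℕ) (β : E m → ℂ) (Ψ : Z m → ℂ) (ψ : Z m → ℝ) (δ : ℝ), IsPU β →
  IsPsi Ψ ψ → 0 ≤ δ → ∃ C : ℝ, 0 < C ∧ ∀ (R : ℝ) (G : Z m → ℂ) (W : Pk m) (z : Z m), 1 ≤ R →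
  TC G → (∀ ζ, G ζ ≠ 0 → ζ ∈ Rg m (1 / 2) R⁻¹) →
  ‖Fp β ψ R δ G W z‖ ≤ C * R ^ (δ * ((m : ℝ) + 2) / 2) * al N β R δ G W *
    wt N' (fc R δ W.1 z - zc W.2)

/-- AMU: amplitudes are bounded by `A`; finiteness -/
def T_AMU : Prop := ∀ (m L N : ℕ) (β : E m → ℂ) (δ : ℝ), IsPU β → 0 ≤ δ → m + 3 ≤ N →
  ∃ C : ℝ, 0 < C ∧ ∀ (κ R A : ℝ) (G : Z m → ℂ) (W : Pk m), 0 ≤ κ → κ ≤ 1 / 2 → 1 ≤ R → 0 < A →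
  Cls L κ R A G → al N β R δ G W ≤ C * A ∧
  al2 N β R δ G W = ENNReal.ofReal (al N β R δ G W ^ 2)

/-- AEN: amplitudes and energy -/
def T_AEN : Prop := ∀ (m N N' : ℕ) (β : E m → ℂ) (δ : ℝ), IsPU β → 0 ≤ δ → N' + m + 3 ≤ N →
  ∃ C : ℝ≥0, ∀ (R : ℝ) (G : Z m → ℂ) (z₀ : Z m) (S : Finset (Pk m)), 1 ≤ R → TC G →
  (∀ ζ, G ζ ≠ 0 → ζ ∈ Rg m (1 / 2) R⁻¹) →
  (∀ W ∈ S, W.1 ∈ Ks m (sR R) ∧ ∃ z, ‖z - z₀‖ ≤ R ∧ near R δ W z) →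
  ∑ W ∈ S, al2 N β R δ G W * ENNReal.ofReal (R ^ (((m : ℝ) + 2) / 2)) ≤
    C * Er N' β R δ G z₀

/-- ENB: the energy near a ball is bounded by the class -/
def T_ENB : Prop := ∀ (m L N : ℕ) (β : E m → ℂ) (δ : ℝ), IsPU β → 0 < δ → m + 3 ≤ N →
  ∃ C : ℝ, 0 < C ∧ ∀ (κ R A : ℝ) (G : Z m → ℂ) (z₀ : Z m), 0 ≤ κ → κ ≤ 1 / 2 → 1 ≤ R → 0 < A →
  Cls L κ R A G →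
  Er N β R δ G z₀ ≤ ENNReal.ofReal (C * R ^ (lo m * δ) * (A ^ 2 * R ^ ((m : ℝ) + 2)))

/-- ENS: sum of the energies near balls -/
def T_ENS : Prop := ∀ (m N : ℕ) (β : E m → ℂ) (δ : ℝ), IsPU β → 0 ≤ δ → m + 3 ≤ N →
  ∃ C : ℝ, 0 < C ∧ ∀ (R : ℝ) (G : Z m → ℂ), 1 ≤ R → TC G →
  (∀ ζ, G ζ ≠ 0 → ζ ∈ Rg m (1 / 2) R⁻¹) →
  ∑' j : Zi m, Er N β R δ G ((R / ((m : ℝ) + 1)) • zc j) ≤ ENNReal.ofReal (C * R ^ (lo m * δ) * ∫ ζ, ‖G ζ‖ ^ 2)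

/-- TLS: planks far from the point -/
def T_TLS : Prop := ∀ (m L N : ℕ) (β : E m → ℂ) (Ψ : Z m → ℂ) (ψ : Z m → ℝ) (δ M : ℝ), IsPU β →
  IsPsi Ψ ψ → 0 < δ → δ ≤ 1 / 4 → m + 3 ≤ N → ∃ C : ℝ, 0 < C ∧ ∀ (κ R A : ℝ) (G : Z m → ℂ)
  (S : Finset (Pk m)) (z : Z m), 0 ≤ κ → κ ≤ 1 / 2 → 1 ≤ R → 0 < A → Cls L κ R A G →
  (∀ W ∈ S, W.1 ∈ Ks m (sR R)) →
  ((∀ W ∈ S, ¬ near R δ W z) → ∑ W ∈ S, ‖Fp β ψ R δ G W z‖ ≤ C * A * R ^ (-M)) ∧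
  ∀ a : ℝ, 0 ≤ a → (∀ W ∈ S, al N β R δ G W ≤ a) →
    ∑ W ∈ S, ‖Fp β ψ R δ G W z‖ ≤ C * R ^ ((m : ℝ) + 2) * a

/-- DCP: wave packet decomposition in a ball -/
def T_DCP : Prop := ∀ (m L : ℕ) (β : E m → ℂ) (Ψ : Z m → ℂ) (ψ : Z m → ℝ) (δ M : ℝ), IsPU β →
  IsPsi Ψ ψ → 0 < δ → δ ≤ 1 / 4 → ∃ C : ℝ, 0 < C ∧ ∀ (κ R A : ℝ) (G : Z m → ℂ) (z₀ : Z m),
  0 ≤ κ → κ ≤ 1 / 2 → 1 ≤ R → 0 < A → Cls L κ R A G → ∃ S : Finset (Pk m),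
  (∀ W ∈ S, W.1 ∈ Ks m (sR R) ∧ ∃ z, ‖z - z₀‖ ≤ R ∧ near R δ W z) ∧
  (S.card : ℝ) ≤ C * R ^ (2 * ((m : ℝ) + 2)) ∧
  ∀ z, ‖z - z₀‖ ≤ R → ‖TF G z - ∑ W ∈ S, Fp β ψ R δ G W z‖ ≤ C * A * R ^ (-M)

/-- GBE: energy of localized sub-sums -/
def T_GBE : Prop := ∀ (m N : ℕ) (β : E m → ℂ) (Ψ Ξ : Z m → ℂ) (ψ χ : Z m → ℝ) (δ : ℝ), IsPU β →
  IsPsi Ψ ψ → IsLow Ξ χ → 0 < δ → δ ≤ 1 / 4 → m + 3 ≤ N → ∃ C : ℝ, 1 ≤ C ∧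
  ∀ (κ R r : ℝ) (G : Z m → ℂ) (S : Finset (Pk m)) (z₁ : Z m), 0 ≤ κ → κ ≤ 3 / 8 → 1 ≤ R → C ≤ R ^ δ →
  Real.sqrt R ≤ r → r ≤ R / C → TC G → (∀ ζ, G ζ ≠ 0 → ζ ∈ Rg m κ R⁻¹) →
  (∀ W ∈ S, W.1 ∈ Ks m (sR R)) →
  ∫⁻ z, ‖(χ (r⁻¹ • (z - z₁)) : ℂ) * ∑ W ∈ S, Fp β ψ R δ G W z‖ₑ ^ 2 ≤
    ENNReal.ofReal (C * R ^ (lo m * δ) * (r / R)) *
      ∑ W ∈ S, al2 N β R δ G W * ENNReal.ofReal (R ^ (((m : ℝ) + 2) / 2))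

/-- L2Q: local energy on a cube of side `R^{1/2}`; `S'` are the planks whose tube meets the
cube -/
def T_L2Q : Prop := ∀ (m L N : ℕ) (β : E m → ℂ) (Ψ : Z m → ℂ) (ψ : Z m → ℝ) (δ M : ℝ), IsPU β →
  IsPsi Ψ ψ → 0 < δ → δ ≤ 1 / 4 → m + 3 ≤ N → ∃ C : ℝ, 1 ≤ C ∧ ∀ (κ R A a : ℝ) (G : Z m → ℂ)
  (S S' : Finset (Pk m)) (q : Zi m) (X : Finset (Z m)), 0 ≤ κ → κ ≤ 3 / 8 → 1 ≤ R → C ≤ R ^ δ → 0 < A →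
  0 ≤ a → Cls L κ R A G → Sep X → (∀ z ∈ X, cb (Real.sqrt R) z = q) →
  (∀ W ∈ S, W.1 ∈ Ks m (sR R) ∧ al N β R δ G W ≤ a) → S' ⊆ S →
  (∀ W ∈ S, Inc R δ (tb R W) q → W ∈ S') →
  ∑ z ∈ X, ‖∑ W ∈ S, Fp β ψ R δ G W z‖ ^ 2 ≤
    C * R ^ (lo m * δ) * a ^ 2 * S'.card * R ^ (((m : ℝ) + 1) / 2) + C * A ^ 2 * S.card * R ^ (-M)

end Pool.Agent.H83.G
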