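import Pool.Agent.H83.G.Targets2

/-!
Theorem G (MP_ee74d2_an): targets of groups R (refined decoupling with planks) and I (pigeonholes,
one end, two ends, narrow part, recursion, induction). `lb m = 10^5 (m + 2)^2` is the exponent of
the large losses.
-/

set_option autoImplicit false

namespace Pool.Agent.H83.G

open MeasureTheory Set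
open scoped ENNReal NNReal RealInnerProductSpace

/-- the exponent of the large losses -/
noncomputable def lb (m : ℕ) : ℝ := 100000 * ((m : ℝ) + 2) ^ 2

/-! ### refined decoupling -/

/-- BDZ: decoupling of caps of radius `1/K` of the cone, narrow in `a`, on balls of radius `K²` -/
def T_BDZ : Prop := ∀ (m N : ℕ) (P ε D : ℝ), 1 ≤ m → 2 ≤ P → m * (P - 2) < 4 → 0 < ε → 1 ≤ D →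
  ∃ C : ℝ, 0 < C ∧ ∀ (K a₀ : ℝ) (ι : Type) (T : Finset ι) (c : ι → E m) (G : ι → Z m → ℂ)
  (x : Z m), 1 ≤ K → 1 / 4 ≤ a₀ → a₀ ≤ 8 → (∀ t ∈ T, ‖c t‖ ≤ D) →
  (∀ (y : E m), ∀ J ⊆ T, (∀ t ∈ J, ‖y - c t‖ ≤ K⁻¹) → (J.card : ℝ) ≤ D) → (∀ t ∈ T, TC (G t)) →
  (∀ t ∈ T, ∀ ζ, G t ζ ≠ 0 → |ζ.1 - a₀| ≤ D * K⁻¹ ^ 2 ∧ 1 / 4 ≤ ζ.1 ∧ ζ.1 ≤ 8 ∧
    ‖ζ.1⁻¹ • ζ.2.1 - c t‖ ≤ D * K⁻¹ ∧ |ζ.2.2 - ‖ζ.2.1‖ ^ 2 / ζ.1| ≤ D * K⁻¹ ^ 2) →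
  ∫⁻ z in {z : Z m | ‖K⁻¹ ^ 2 • z - x‖ ≤ 1}, ‖∑ t ∈ T, TF (G t) z‖ₑ ^ P ≤
    ENNReal.ofReal (C * K ^ ε) * (∑ t ∈ T, (∫⁻ z, ‖TF (G t) z‖ₑ ^ P *
      ENNReal.ofReal (wt N (K⁻¹ ^ 2 • z - x))) ^ (2 / P)) ^ (P / 2)

/-- slowly varying weights at the scale of the plank `(η, s, ρ)` -/
def Slow {m : ℕ} (C₁ : ℝ) (N₁ : ℕ) (η : E m) (s ρ : ℝ) (M : Z m → ℝ≥0∞) : Prop :=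
  ∀ z z', M z ≤ ENNReal.ofReal (C₁ * (1 + ‖ρ⁻¹ • Lo η s (z - z')‖) ^ N₁) * M z'

/-- RDS: one step of the refined decoupling -/
def T_RDS : Prop := ∀ (m N₁ : ℕ) (P ε D C₁ : ℝ), 1 ≤ m → 2 ≤ P → m * (P - 2) < 4 → 0 < ε →
  1 ≤ D → 0 ≤ C₁ → ∃ C : ℝ, 0 < C ∧ ∀ (K a₀ s : ℝ) (η : E m) (ι : Type) (T : Finset ι)
  (c : ι → E m) (G : ι → Z m → ℂ) (M : ι → Z m → ℝ≥0∞), 1 ≤ K → 1 / 4 ≤ a₀ → a₀ ≤ 8 → 0 < s →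
  (∀ t ∈ T, ‖c t - η‖ ≤ D * s) →
  (∀ (y : E m), ∀ J ⊆ T, (∀ t ∈ J, ‖y - c t‖ ≤ s * K⁻¹) → (J.card : ℝ) ≤ D) →
  (∀ t ∈ T, TC (G t)) →
  (∀ t ∈ T, ∀ ζ, G t ζ ≠ 0 → |ζ.1 - a₀| ≤ D * K⁻¹ ^ 2 ∧ 1 / 4 ≤ ζ.1 ∧ ζ.1 ≤ 8 ∧
    ‖ζ.1⁻¹ • ζ.2.1 - c t‖ ≤ D * (s * K⁻¹) ∧
    |ζ.2.2 - ‖ζ.2.1‖ ^ 2 / ζ.1| ≤ D * (s * K⁻¹) ^ 2) →
  (∀ t ∈ T, Measurable (M t) ∧ Slow C₁ N₁ η s (K ^ 2) (M t) ∧ ∀ z, M t z ≠ 0 ∧ M t z ≠ ⊤) →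
  ∫⁻ z, ‖∑ t ∈ T, TF (G t) z‖ₑ ^ P * (∑ t ∈ T, M t z) ^ (1 - P / 2) ≤
    ENNReal.ofReal (C * K ^ ε) * ∑ t ∈ T, ∫⁻ z, ‖TF (G t) z‖ₑ ^ P * M t z ^ (1 - P / 2)

/-- RDT: all scales, narrow in `a` -/
def T_RDT : Prop := ∀ (m N₁ J : ℕ) (P ε D C₁ : ℝ), 1 ≤ m → 2 ≤ P → m * (P - 2) < 4 → 0 < ε →
  1 ≤ D → 0 ≤ C₁ → 1 ≤ J → ∃ C : ℝ, 0 < C ∧ ∀ (R a₀ : ℝ) (I : Finset (Fin m → ℤ))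
  (G : (Fin m → ℤ) → Z m → ℂ) (M : (Fin m → ℤ) → Z m → ℝ≥0∞), 1 ≤ R → 1 / 4 ≤ a₀ → a₀ ≤ 8 →
  I ⊆ Ks m (sR R) → (∀ k ∈ I, TC (G k)) →
  (∀ k ∈ I, ∀ ζ, G k ζ ≠ 0 → |ζ.1 - a₀| ≤ D * R ^ (-(1 / (J : ℝ))) ∧ 1 / 4 ≤ ζ.1 ∧ ζ.1 ≤ 8 ∧
    ‖ζ.1⁻¹ • ζ.2.1 - ctr (sR R) k‖ ≤ D * sR R ∧
    |ζ.2.2 - ‖ζ.2.1‖ ^ 2 / ζ.1| ≤ D * sR R ^ 2) →
  (∀ k ∈ I, Measurable (M k) ∧ Slow C₁ N₁ (ctr (sR R) k) (sR R) (R ^ (1 / (J : ℝ))) (M k) ∧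
    ∀ z, M k z ≠ 0 ∧ M k z ≠ ⊤) →
  ∫⁻ z, ‖∑ k ∈ I, TF (G k) z‖ₑ ^ P * (∑ k ∈ I, M k z) ^ (1 - P / 2) ≤
    ENNReal.ofReal (C * R ^ ε) * ∑ k ∈ I, ∫⁻ z, ‖TF (G k) z‖ₑ ^ P * M k z ^ (1 - P / 2)

/-- RDA: refined decoupling with planks -/
def T_RDA : Prop := ∀ (m N₁ J : ℕ) (P D C₁ : ℝ), 1 ≤ m → 2 ≤ P → m * (P - 2) < 4 → 1 ≤ D →
  0 ≤ C₁ → 1 ≤ J → ∃ C : ℝ, 0 < C ∧ ∀ (R : ℝ) (I : Finset (Fin m → ℤ))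
  (G : (Fin m → ℤ) → Z m → ℂ) (M : (Fin m → ℤ) → Z m → ℝ≥0∞), 1 ≤ R →
  I ⊆ Ks m (sR R) → (∀ k ∈ I, TC (G k)) →
  (∀ k ∈ I, ∀ ζ, G k ζ ≠ 0 → 1 / 2 ≤ ζ.1 ∧ ζ.1 ≤ 6 ∧
    ‖ζ.1⁻¹ • ζ.2.1 - ctr (sR R) k‖ ≤ D * sR R ∧
    |ζ.2.2 - ‖ζ.2.1‖ ^ 2 / ζ.1| ≤ D * sR R ^ 2) →
  (∀ k ∈ I, Measurable (M k) ∧ Slow C₁ N₁ (ctr (sR R) k) (sR R) (R ^ (1 / (J : ℝ))) (M k) ∧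
    ∀ z, M k z ≠ 0 ∧ M k z ≠ ⊤) →
  ∫⁻ z, ‖∑ k ∈ I, TF (G k) z‖ₑ ^ P * (∑ k ∈ I, M k z) ^ (1 - P / 2) ≤
    ENNReal.ofReal (C * R ^ ((P + 1) / (J : ℝ))) *
      ∑ k ∈ I, ∫⁻ z, ‖TF (G k) z‖ₑ ^ P * M k z ^ (1 - P / 2)

/-- RDP: the same for wave packets at separated points -/
def T_RDP : Prop := ∀ (m N : ℕ) (β : E m → ℂ) (Ψ : Z m → ℂ) (ψ : Z m → ℝ) (δ P : ℝ), 1 ≤ m →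
  IsPU β → IsPsi Ψ ψ → 0 < δ → δ ≤ 1 / 4 → m + 3 ≤ N → 2 ≤ P → m * (P - 2) < 4 →
  ∃ C : ℝ, 1 ≤ C ∧ ∀ (κ R a H M₁ : ℝ) (G : Z m → ℂ) (S : Finset (Pk m)) (X : Finset (Z m)),
  0 ≤ κ → κ ≤ 3 / 8 → 1 ≤ R → C ≤ R ^ δ → TC G → (∀ ζ, G ζ ≠ 0 → ζ ∈ Rg m κ R⁻¹) → 0 ≤ a → 0 < H →
  0 < M₁ → Sep X → (∀ W ∈ S, W.1 ∈ Ks m (sR R) ∧ al N β R δ G W ≤ a) →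
  (∀ z ∈ X, H ≤ ‖∑ W ∈ S, Fp β ψ R δ G W z‖ ∧ MS N R δ S z ≤ M₁) →
  (X.card : ℝ) * H ^ P ≤
    C * R ^ (lo m * δ) * M₁ ^ (P / 2 - 1) * a ^ P * S.card * R ^ (((m : ℝ) + 2) / 2)

/-! ### induction on scales -/

/-- BAS: trivial bounds -/
def T_BAS : Prop := ∀ (m L : ℕ), 1 ≤ m → ∃ C : ℝ, 0 < C ∧
  (∀ κ R : ℝ, 0 ≤ κ → κ ≤ 1 / 2 → 1 ≤ R → Bd m L κ R (C * R)) ∧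
  ∀ (κ R A H : ℝ) (G : Z m → ℂ) (X : Finset (Z m)), 0 ≤ κ → κ ≤ 1 / 2 → 1 ≤ R → 0 < A → 0 < H →
    H ≤ A → Cls L κ R A G → Sep X → (∀ z ∈ X, H ≤ ‖TF G z‖) →
    (X.card : ℝ) * H ^ (2 + xm m) ≤ C * A ^ xm m * ∫ ζ, ‖G ζ‖ ^ 2

/-- BRN: broad or narrow -/
def T_BRN : Prop := ∀ (m : ℕ) (β : E m → ℂ), IsPU β → ∃ c : ℝ, 0 < c ∧ c ≤ 1 ∧
  ∀ (K : ℝ) (G : Z m → ℂ) (z : Z m), 1 ≤ K → TC G →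
  (∀ ζ, G ζ ≠ 0 → 1 / 4 ≤ ζ.1 ∧ ‖ζ.2.1‖ ≤ 3 / 2 * ζ.1) →
  (∃ k ∈ Ks m K⁻¹, c * ‖TF G z‖ ≤ ‖TP β (ctr K⁻¹ k) K⁻¹ G z‖) ∨
  ∃ k : Fin 3 → (Fin m → ℤ), (∀ i, k i ∈ Ks m K⁻¹) ∧
    (∀ i j, i ≠ j → 4 / K ≤ ‖ctr K⁻¹ (k i) - ctr K⁻¹ (k j)‖) ∧
    ∀ i, c * K⁻¹ ^ m * ‖TF G z‖ ≤ ‖TP β (ctr K⁻¹ (k i)) K⁻¹ G z‖

/-- NAR: the narrow part -/
def T_NAR : Prop := ∀ (m L : ℕ) (β : E m → ℂ) (c : ℝ), 1 ≤ m → IsPU β → 0 < c →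
  ∃ C : ℝ, 0 < C ∧ ∀ (K κ R A H g : ℝ) (G : Z m → ℂ) (X : Finset (Z m)), 1 ≤ K → 0 ≤ κ →
  κ ≤ 1 / 2 → K ^ 2 ≤ R → 0 < A → 0 < H → 0 ≤ g → Bd m L κ (R / K ^ 2) g → Cls L κ R A G →
  Sep X → (∀ z ∈ X, ∃ k ∈ Ks m K⁻¹, c * H ≤ ‖TP β (ctr K⁻¹ k) K⁻¹ G z‖) →
  (X.card : ℝ) * H ^ (2 + xm m) ≤
    C * K ^ (-(2 / 3) : ℝ) * g * A ^ xm m * R ^ (1 / 3 : ℝ) * ∫ ζ, ‖G ζ‖ ^ 2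

/-- OEN: one end -/
def T_OEN : Prop := ∀ (m L N : ℕ) (β : E m → ℂ) (Ψ Ξ : Z m → ℂ) (ψ χ : Z m → ℝ) (δ ε₀ : ℝ),
  1 ≤ m → IsPU β → IsPsi Ψ ψ → IsLow Ξ χ → 0 < δ → δ ≤ 1 / 4 → 0 < ε₀ → ε₀ ≤ 1 / 2 →
  2 * m + 6 ≤ L → 2 * m + 6 ≤ N → ∃ C : ℝ, 1 ≤ C ∧ ∀ (κ R A H g : ℝ) (G : Z m → ℂ)
  (S : Finset (Pk m)) (QQ : Finset (Zi m)) (l k : ℕ) (X : Finset (Z m)), 0 ≤ κ → κ ≤ 3 / 8 →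
  1 ≤ R → C ≤ R ^ δ → C ≤ R ^ ε₀ → 0 < A → 0 < H → 0 ≤ g →
  Bd m L (κ + C * R ^ (-δ)) (R ^ (1 - ε₀)) g → Cls L κ R A G → Sep X →
  (∀ W ∈ S, W.1 ∈ Ks m (sR R)) →
  (∀ z ∈ X, cb (Real.sqrt R) z ∈ QQ ∧ H ≤ ‖∑ W ∈ SB QQ R (R ^ (1 - ε₀)) δ l k S
    (bl R (R ^ (1 - ε₀)) (cb (Real.sqrt R) z)), Fp β ψ R δ G W z‖) →
  (X.card : ℝ) * H ^ (2 + xm m) ≤ C * R ^ (2 * lo m * δ) * 2 ^ k * g * A ^ xm m *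
    R ^ (1 / 3 : ℝ) * ∑ W ∈ S, al N β R δ G W ^ 2 * R ^ (((m : ℝ) + 2) / 2)

/-- TEN: two ends -/
def T_TEN : Prop := ∀ (m L : ℕ) (β : E m → ℂ) (Ψ : Z m → ℂ) (ψ : Z m → ℝ) (K δ ε₀ b₀ B : ℝ),
  4 ≤ m → IsPU β → IsPsi Ψ ψ → 1 ≤ K → 0 < δ → δ ≤ 1 / 100 → 0 < ε₀ → ε₀ ≤ 1 / 4 → 0 < b₀ →
  1 ≤ B → ∃ N₀ : ℕ, ∀ N : ℕ, N₀ ≤ N → ∃ C : ℝ, 1 ≤ C ∧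
  ∀ (κ R A H En : ℝ) (G : Fin 3 → Z m → ℂ) (c : Fin 3 → E m) (z₀ : Z m)
  (S : Fin 3 → Finset (Pk m)) (a b : Fin 3 → ℝ) (l k : Fin 3 → ℕ) (QQ : Finset (Zi m)) (ν : ℝ)
  (X : Finset (Z m)), 0 ≤ κ → κ ≤ 3 / 8 → 1 ≤ R → C ≤ R ^ δ → 0 < A → 0 < H → b₀ * A ≤ R ^ δ * H →
  0 < En → (∀ i, Cls L κ R A (G i)) → (∀ i, ‖c i‖ ≤ 4 * m + 4) →
  (∀ i j, i ≠ j → 4 / K ≤ ‖c i - c j‖) →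
  Sep X → (∀ z ∈ X, ‖z - z₀‖ ≤ R) →
  (∀ i, ∀ W ∈ S i, W.1 ∈ Ks m (sR R) ∧ (∃ z, ‖z - z₀‖ ≤ R ∧ near R δ W z) ∧
    ‖ctr (sR R) W.1‖ ≤ 3 ∧ ‖ctr (sR R) W.1 - c i‖ ≤ 1 / K + sR R ∧
    a i ≤ al N β R δ (G i) W ∧
    al N β R δ (G i) W ≤ 2 * a i) →
  (∀ i, ((S i).card : ℝ) ≤ B * R ^ (2 * ((m : ℝ) + 2))) →
  (∀ i, 0 < a i ∧ 1 ≤ b i) →
  (∀ i, ∀ W ∈ S i, b i ≤ (((S i).filter (fun W' => tb R W' = tb R W)).card : ℝ) ∧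
    (((S i).filter (fun W' => tb R W' = tb R W)).card : ℝ) ≤ 2 * b i) →
  (∀ i, ∑ W ∈ S i, al N β R δ (G i) W ^ 2 * R ^ (((m : ℝ) + 2) / 2) ≤ En) →
  En ≤ B * R ^ (lo m * δ) * (A ^ 2 * R ^ ((m : ℝ) + 2)) →
  0 < ν → ν * QQ.card ≤ R ^ δ * X.card →
  (∀ q, ((X.filter (fun z => cb (Real.sqrt R) z = q)).card : ℝ) ≤ 2 * ν) →
  (∀ z ∈ X, cb (Real.sqrt R) z ∈ QQ) →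
  (∀ q ∈ QQ, ‖Real.sqrt R • zc q - z₀‖ ≤ ((m : ℝ) + 2) * R) →
  (∀ i, C ≤ (2 : ℝ) ^ k i) →
  (∀ z ∈ X, ∀ i, H ≤ ‖∑ W ∈ SB QQ R (R ^ (1 - ε₀)) δ (l i) (k i) (S i)
    (bl R (R ^ (1 - ε₀)) (cb (Real.sqrt R) z)), Fp β ψ R δ (G i) W z‖) →
  (X.card : ℝ) * H ^ (2 + xm m) ≤
    C * R ^ (lb m * (δ + ε₀)) * A ^ xm m * R ^ (1 / 3 : ℝ) * En

/-- BRO: the broad part in a ball of radius `R` -/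
def T_BRO : Prop := ∀ (m L : ℕ) (β : E m → ℂ) (K δ ε₀ ε₁ b₀ : ℝ), 4 ≤ m → 2 * m + 6 ≤ L →
  IsPU β → 1 ≤ K → 0 < δ → δ ≤ 1 / 100 → 0 < ε₀ → ε₀ ≤ 1 / 4 → 0 < ε₁ → 0 < b₀ →
  ∃ C : ℝ, 1 ≤ C ∧ ∀ (κ R A H g : ℝ) (G : Fin 3 → Z m → ℂ) (c : Fin 3 → E m) (z₀ : Z m)
  (X : Finset (Z m)), 0 ≤ κ → κ ≤ 3 / 8 → C ≤ R → 0 < A → 0 < H → b₀ * A ≤ H → 1 ≤ g →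
  (∀ i, Cls L κ R A (G i)) → (∀ i, ‖c i‖ ≤ 4 * m + 4) →
  (∀ i, ∀ ζ, G i ζ ≠ 0 → ‖ζ.1⁻¹ • ζ.2.1 - c i‖ ≤ 1 / K) →
  (∀ i j, i ≠ j → 4 / K ≤ ‖c i - c j‖) →
  Sep X → (∀ z ∈ X, ‖z - z₀‖ ≤ R) → (∀ z ∈ X, ∀ i, H ≤ ‖TF (G i) z‖) →
  Bd m L (κ + C * R ^ (-δ)) (R ^ (1 - ε₀)) g →
  (X.card : ℝ) * H ^ (2 + xm m) ≤
    C * (R ^ (ε₁ + lb m * δ) * g + R ^ (lb m * (δ + ε₀))) * A ^ xm m * R ^ (1 / 3 : ℝ) *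
      (∑ i, Er (m + 3) β R δ (G i) z₀).toReal

/-- REC: the recursion -/
def T_REC : Prop := ∀ (m L : ℕ), 4 ≤ m → 2 * m + 6 ≤ L → ∃ C₁ : ℝ, 0 < C₁ ∧
  ∀ (K δ ε₀ ε₁ : ℝ), 1 ≤ K → 0 < δ → δ ≤ 1 / 100 → 0 < ε₀ → ε₀ ≤ 1 / 4 → 0 < ε₁ →
  ∃ C₂ : ℝ, 1 ≤ C₂ ∧ ∀ (κ R g₁ g₂ : ℝ), 0 ≤ κ → κ ≤ 3 / 8 → C₂ ≤ R → 0 ≤ g₁ → 1 ≤ g₂ →
  Bd m L κ (R / K ^ 2) g₁ → Bd m L (κ + C₂ * R ^ (-δ)) (R ^ (1 - ε₀)) g₂ →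
  Bd m L κ R (C₁ * K ^ (-(2 / 3) : ℝ) * g₁ + C₂ * R ^ (ε₁ + 2 * lb m * δ) * g₂ +
    C₂ * R ^ (2 * lb m * (δ + ε₀)))

/-- MAIN: the level set estimate at all scales -/
def T_MAIN : Prop := ∀ (m L : ℕ) (ε : ℝ), 4 ≤ m → 2 * m + 6 ≤ L → 0 < ε → ∃ C : ℝ, 0 < C ∧
  ∀ R : ℝ, 1 ≤ R → Bd m L (1 / 4) R (C * R ^ ε)

end Pool.Agent.H83.G
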