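import Pool.Agent.H83.G.Targets3

/-!
Theorem G (MP_ee74d2_an): targets of the pigeonholing steps.
-/

set_option autoImplicit false

namespace Pool.Agent.H83.G

open MeasureTheory Set
open scoped ENNReal NNReal RealInnerProductSpace

open scoped Classical in
/-- PG1: dyadic amplitudes and dyadic numbers of planks per tube -/
def T_PG1 : Prop := ∀ (α β γ : Type) (n : ℕ) (S : Finset α) (X : Finset β) (f : α → β → ℂ)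
  (al : α → ℝ) (tb : α → γ) (a₀ H : ℝ), 0 < a₀ → 0 < H → 1 ≤ n → S.card ≤ 2 ^ n →
  (∀ W ∈ S, al W ≤ 2 ^ n * a₀) →
  (∀ z ∈ X, ∀ S' ⊆ S, (∀ W ∈ S', al W ≤ a₀) → ∑ W ∈ S', ‖f W z‖ ≤ H / 2) →
  (∀ z ∈ X, H ≤ ‖∑ W ∈ S, f W z‖) →
  ∃ (S' : Finset α) (X' : Finset β) (a : ℝ) (b : ℕ), S' ⊆ S ∧ X' ⊆ X ∧ a₀ ≤ a ∧ 1 ≤ b ∧
    X.card ≤ 4 * n ^ 2 * X'.card ∧ (∀ z ∈ X', H ≤ 4 * (n : ℝ) ^ 2 * ‖∑ W ∈ S', f W z‖) ∧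
    (∀ W ∈ S', a ≤ al W ∧ al W ≤ 2 * a) ∧
    ∀ W ∈ S', b ≤ (S'.filter (fun W' => tb W' = tb W)).card ∧
      (S'.filter (fun W' => tb W' = tb W)).card ≤ 2 * b

open scoped Classical in
/-- PG2: cubes with about the same number of points -/
def T_PG2 : Prop := ∀ (β ι : Type) (n : ℕ) (X : Finset β) (c : β → ι), X.card ≤ 2 ^ n →
  ∃ (X' : Finset β) (ν : ℕ), X' ⊆ X ∧ 1 ≤ ν ∧ X.card ≤ (n + 1) * X'.card ∧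
    (∀ z ∈ X', ν ≤ (X'.filter (fun z' => c z' = c z)).card) ∧
    ∀ q, (X'.filter (fun z' => c z' = q)).card ≤ 2 * ν

/-- PG3: shading classes -/
def T_PG3 : Prop := ∀ (m n : ℕ) (R r δ H : ℝ) (QQ : Finset (Zi m)) (S : Finset (Pk m))
  (X : Finset (Z m)) (f : Pk m → Z m → ℂ), 0 < H → QQ.card ≤ 2 ^ n →
  (∀ z ∈ X, cb (Real.sqrt R) z ∈ QQ) →
  (∀ z ∈ X, ∀ S' ⊆ S, (∀ W ∈ S', ¬ Inc R δ (tb R W) (cb (Real.sqrt R) z)) →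
    ∑ W ∈ S', ‖f W z‖ ≤ H / 2) →
  (∀ z ∈ X, H ≤ ‖∑ W ∈ S, f W z‖) →
  ∃ (l k : ℕ) (X' : Finset (Z m)), X' ⊆ X ∧ X.card ≤ (n + 1) ^ 2 * X'.card ∧
    ∀ z ∈ X', H ≤ 2 * ((n : ℝ) + 1) ^ 2 *
      ‖∑ W ∈ SB QQ R r δ l k S (bl R r (cb (Real.sqrt R) z)), f W z‖

/-- PG4: dyadic values of a function -/
def T_PG4 : Prop := ∀ (β : Type) (n : ℕ) (X : Finset β) (g : β → ℕ),
  (∀ z ∈ X, 1 ≤ g z ∧ g z < 2 ^ n) →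
  ∃ (X' : Finset β) (v : ℕ), X' ⊆ X ∧ 1 ≤ v ∧ X.card ≤ n * X'.card ∧
    ∀ z ∈ X', v ≤ g z ∧ g z < 2 * v

end Pool.Agent.H83.G
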