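import Pool.Agent.H83.G.TenB

/-! Theorem G: the two-ends case, assembly. -/

set_option autoImplicit false

namespace Pool.Agent.H83.G.TEN

open Pool.Agent.H83.G MeasureTheory Set
open scoped ENNReal NNReal RealInnerProductSpace

open Classical in
theorem pf_TEN2 (hPG4 : Pool.Agent.H22.G.T_PG4) (hHG2 : Pool.Agent.H22.G.T_HG2)
    (hMU : Pool.Agent.H22.G.T_MU) (hHB : Pool.Agent.H22.G.T_HB) (hALG : Pool.Agent.H22.G.T_ALG)
    (hCBN : T_CBN) (hTE1 : T_TE1) (hTE2 : T_TE2) (hTE3 : T_TE3) (hTLS : T_TLS)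
    (hAMU : T_AMU) : T_TEN2 := by
  intro m L β Ψ ψ K δ ε₀ b₀ B hm hβ hΨ hK hδ hδ' hε hε' hb₀ hB
  have hm1 : 1 ≤ m := by omega
  obtain ⟨N₁, hN₁⟩ := hTE1 m L β Ψ ψ δ ε₀ B hm hβ hΨ hδ hδ' hε hε' hB
  refine ⟨max N₁ (m + 3), fun N hN => ?_⟩
  have hNm : m + 3 ≤ N := (le_max_right _ _).trans hN
  obtain ⟨C₁, hC₁, h1⟩ := hN₁ N ((le_max_left _ _).trans hN)
  obtain ⟨C₂, hC₂, h2⟩ := hTE2 m L β Ψ ψ δ b₀ B hm1 hβ hΨ hδ hδ' hb₀ hB N hNm
  obtain ⟨C₃, hC₃, h3⟩ := hTE3 m K hm1 hK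
  obtain ⟨C₄, hC₄, h4⟩ := hHB m K hK
  obtain ⟨C₅, hC₅, h5⟩ := hMU m
  obtain ⟨C₆, hC₆, h6⟩ := hHG2 m
  obtain ⟨C₇, hC₇, h7⟩ := hTLS m L N β Ψ ψ δ 1 hβ hΨ hδ (by linarith) hNm
  obtain ⟨C₈, hC₈, h8⟩ := hAMU m L N β δ hβ hδ.le hNm
  obtain ⟨C₉, hC₉, h9⟩ := logn (2 * ((m : ℝ) + 2)) B δ (by positivity) hB hδ 6
  obtain ⟨hcb, hinc, C₀, hC₀, -, -⟩ := hCBN m
  obtain ⟨CL, C, k0, k1, k2, k3, k4, k5, k6, k8, kB, hC1, g1, g2, g4, g7, gK, g9⟩ :=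
    consts K b₀ B C₁ C₂ C₃ C₄ C₅ C₆ C₇ C₈ C₉ hK hb₀ hB hC₁ hC₂ hC₃ hC₄ hC₅ hC₆ hC₇ hC₈ hC₉
  refine ⟨C, hC1, ?_⟩
  intro κ R A H En G c z₀ S a b l k QQ ν X hκ0 hκ hR1 hCR hA hH hAH hEn hG hc hsep hX hXz hS
    hScard hab hb hE hEB hν hνQ hνX hXQ hQz hk hXF
  have hR0 : 0 < R := lt_of_lt_of_le one_pos hR1
  have hRδ : 1 ≤ R ^ δ := hC1.trans hCR
  have hκ' : κ ≤ 1 / 2 := hκ.trans (by norm_num)
  -- caps
  have hsq : 2 * K ≤ Real.sqrt R := by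
    have e2 : R ^ δ ≤ R ^ (1 / 2 : ℝ) :=
      Real.rpow_le_rpow_of_exponent_le hR1 (hδ'.trans (by norm_num))
    rw [Real.sqrt_eq_rpow]; exact gK.trans (hCR.trans e2)
  have hsR : sR R ≤ 1 / (2 * K) := by
    unfold sR
    rw [one_div]
    exact inv_anti₀ (by linarith) hsq
  have hS3 : ∀ i, ∀ W ∈ S i, ‖ctr (sR R) W.1‖ ≤ 3 := fun i W hW => (hS i W hW).2.2.1
  have hSsep : ∀ i j, i ≠ j → ∀ W ∈ S i, ∀ W' ∈ S j,
      1 / K ≤ ‖ctr (sR R) W.1 - ctr (sR R) W'.1‖ := fun i j hij W hW W' hW' =>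
    sep_caps K (sR R) _ _ (c i) (c j) hK hsR (hS i W hW).2.2.2.1 (hS j W' hW').2.2.2.1
      (hsep i j hij)
  have e9 : C₇ / b₀ < R ^ δ := g7.trans_le hCR
  -- numbers
  obtain ⟨n, hn1, hn2⟩ := h9 R hR1
  have hSn : ∀ i, (S i).card ≤ 2 ^ n := by
    intro i
    have := (hScard i).trans hn1
    exact_mod_cast this
  have hnear : ∀ (z : Z m) (W : Pk m), near R δ W z → Inc R δ (tb R W) (cb (Real.sqrt R) z) :=
    fun z W hW => hinc R δ W z hR1 hδ.le hW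
  have hv₁1 : ∀ i, ∀ z ∈ X, 1 ≤ ((SB QQ R (R ^ (1 - ε₀)) δ (l i) (k i) (S i)
      (bl R (R ^ (1 - ε₀)) (cb (Real.sqrt R) z))).filter (fun W => near R δ W z)).card := by
    intro i z hz
    refine near_pos hb₀ hA hR1 hδ' hC₇ hAH e9 _ z ?_ (hXF z hz i)
    exact (h7 κ R A (G i) _ z hκ0 hκ' hR1 hA (hG i)
      (fun W hW => (hS i W (mem_SB.1 hW).1).1)).1
  have hv₂1 : ∀ i, ∀ z ∈ X, 1 ≤ (((S i).image (tb R)).filter (fun T =>
      Inc R δ T (cb (Real.sqrt R) z) ∧ Sh QQ R (R ^ (1 - ε₀)) δ (l i) (k i) T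
        (bl R (R ^ (1 - ε₀)) (cb (Real.sqrt R) z)))).card := by
    intro i z hz
    exact tubes_pos (S i) QQ R _ δ (l i) (k i) z _ (hnear z) (hv₁1 i z hz)
  -- pigeonhole
  obtain ⟨X₁, M₁, hX₁, hM₁, hX₁c, hX₁M⟩ := pg hPG4 n 3 X
    (fun i z => ((SB QQ R (R ^ (1 - ε₀)) δ (l i) (k i) (S i)
      (bl R (R ^ (1 - ε₀)) (cb (Real.sqrt R) z))).filter (fun W => near R δ W z)).card)
    (fun z hz i => ⟨hv₁1 i z hz, by
      refine le_trans (Finset.card_le_card ?_) (hSn i)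
      intro W hW
      exact (mem_SB.1 (Finset.mem_filter.1 hW).1).1⟩)
  obtain ⟨X₂, M₂, hX₂, hM₂, hX₂c, hX₂M⟩ := pg hPG4 n 3 X₁
    (fun i z => (((S i).image (tb R)).filter (fun T =>
      Inc R δ T (cb (Real.sqrt R) z) ∧ Sh QQ R (R ^ (1 - ε₀)) δ (l i) (k i) T
        (bl R (R ^ (1 - ε₀)) (cb (Real.sqrt R) z)))).card)
    (fun z hz i => ⟨hv₂1 i z (hX₁ hz), by
      refine le_trans (Finset.card_le_card (Finset.filter_subset _ _)) ?_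
      exact Finset.card_image_le.trans (hSn i)⟩)
  have hX₂X : X₂ ⊆ X := hX₂.trans hX₁
  have hXc' : (X.card : ℝ) ≤ C₉ * R ^ δ * X₂.card := by
    have a1 : X.card ≤ (n + 1) ^ 3 * ((n + 1) ^ 3 * X₂.card) :=
      hX₁c.trans (Nat.mul_le_mul_left _ hX₂c)
    have a2 : (X.card : ℝ) ≤ ((n : ℝ) + 1) ^ 3 * (((n : ℝ) + 1) ^ 3 * X₂.card) := by
      exact_mod_cast a1
    calc (X.card : ℝ) ≤ ((n : ℝ) + 1) ^ 3 * (((n : ℝ) + 1) ^ 3 * X₂.card) := a2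
      _ = ((n : ℝ) + 1) ^ 6 * X₂.card := by ring
      _ ≤ C₉ * R ^ δ * X₂.card := mul_le_mul_of_nonneg_right hn2 (by positivity)
  have hX₂M₁ : ∀ z ∈ X₂, ∀ i, (M₁ i : ℝ) ≤ (((SB QQ R (R ^ (1 - ε₀)) δ (l i) (k i) (S i)
      (bl R (R ^ (1 - ε₀)) (cb (Real.sqrt R) z))).filter (fun W => near R δ W z)).card : ℝ) ∧
      (((SB QQ R (R ^ (1 - ε₀)) δ (l i) (k i) (S i)
      (bl R (R ^ (1 - ε₀)) (cb (Real.sqrt R) z))).filter (fun W => near R δ W z)).card : ℝ) ≤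
        2 * (M₁ i : ℝ) := by
    intro z hz i
    have := hX₁M z (hX₂ hz) i
    exact ⟨by exact_mod_cast this.1, by exact_mod_cast this.2.le⟩
  have hX₂M₂ : ∀ z ∈ X₂, ∀ i, (M₂ i : ℝ) ≤ ((((S i).image (tb R)).filter (fun T =>
      Inc R δ T (cb (Real.sqrt R) z) ∧ Sh QQ R (R ^ (1 - ε₀)) δ (l i) (k i) T
        (bl R (R ^ (1 - ε₀)) (cb (Real.sqrt R) z)))).card : ℝ) ∧
      ((((S i).image (tb R)).filter (fun T =>
      Inc R δ T (cb (Real.sqrt R) z) ∧ Sh QQ R (R ^ (1 - ε₀)) δ (l i) (k i) T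
        (bl R (R ^ (1 - ε₀)) (cb (Real.sqrt R) z)))).card : ℝ) ≤ 2 * (M₂ i : ℝ) := by
    intro z hz i
    have := hX₂M z hz i
    exact ⟨by exact_mod_cast this.1, by exact_mod_cast this.2.le⟩
  have hM₁' : ∀ i, (1 : ℝ) ≤ (M₁ i : ℝ) := fun i => by exact_mod_cast hM₁ i
  have hM₂' : ∀ i, (1 : ℝ) ≤ (M₂ i : ℝ) := fun i => by exact_mod_cast hM₂ i
  clear hX₁M hX₂M hX₁c hX₂c hv₁1 hv₂1
  -- empty case
  rcases Finset.eq_empty_or_nonempty X₂ with hemp | ⟨z₁, hz₁⟩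
  · have h0 : (X.card : ℝ) = 0 := by
      rw [hemp] at hXc'
      have a1 : (0 : ℝ) ≤ X.card := by positivity
      simp only [Finset.card_empty, Nat.cast_zero, mul_zero] at hXc'
      linarith
    rw [h0, zero_mul]
    positivity
  have hN0 : (0 : ℝ) < X₂.card := by
    have : 0 < X₂.card := Finset.card_pos.2 ⟨z₁, hz₁⟩
    exact_mod_cast this
  have hQ0 : (0 : ℝ) < (X₂.image (cb (Real.sqrt R))).card := by
    have : 0 < (X₂.image (cb (Real.sqrt R))).card :=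
      Finset.card_pos.2 ⟨_, Finset.mem_image_of_mem _ hz₁⟩
    exact_mod_cast this
  have hSne : ∀ i, ∃ W, W ∈ S i := by
    intro i
    have a1 : (1 : ℝ) ≤ _ := (hM₂' i).trans (hX₂M₂ z₁ hz₁ i).1
    have a2 : 0 < (((S i).image (tb R)).filter (fun T =>
      Inc R δ T (cb (Real.sqrt R) z₁) ∧ Sh QQ R (R ^ (1 - ε₀)) δ (l i) (k i) T
        (bl R (R ^ (1 - ε₀)) (cb (Real.sqrt R) z₁)))).card := by
      have : (0 : ℝ) < _ := lt_of_lt_of_le one_pos a1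
      exact_mod_cast this
    obtain ⟨T, hT⟩ := Finset.card_pos.1 a2
    obtain ⟨W, hW, -⟩ := Finset.mem_image.1 (Finset.mem_filter.1 hT).1
    exact ⟨W, hW⟩
  have ht0 : ∀ i, (0 : ℝ) < ((S i).image (tb R)).card := by
    intro i
    obtain ⟨W, hW⟩ := hSne i
    have : 0 < ((S i).image (tb R)).card := Finset.card_pos.2 ⟨_, Finset.mem_image_of_mem _ hW⟩
    exact_mod_cast this
  have hX₂sep : Sep X₂ := fun z hz z' hz' => hX z (hX₂X hz) z' (hX₂X hz')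
  refine final_num m δ ε₀ R CL C C₉ A En X.card X₂.card H (1000 * ((m : ℝ) + 2)) hm hδ hε hR1 hA
    hEn hC₉ rfl g9 k0 hH hXc' ?_
  refine core hALG m hm δ ε₀ R CL C₁ C₂ C₃ C₄ C₅ C₆ C₈ C₉ B A En X₂.card
    (X₂.image (cb (Real.sqrt R))).card H (1000 * ((m : ℝ) + 2)) (fun i => (M₁ i : ℝ))
    (fun i => (M₂ i : ℝ)) (fun i => (((S i).image (tb R)).card : ℝ)) b a
    (fun i => ((S i).card : ℝ)) rfl hδ hε hR1 hA hEn hN0 hQ0 hH k0 k1 k2 k3 k4 k5 k6 k8 kB hC₁ hC₂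
    hC₃ hC₄ hC₅ hC₆ hC₉ hB (fun i => lt_of_lt_of_le one_pos (hM₁' i))
    (fun i => lt_of_lt_of_le one_pos (hM₂' i)) ht0
    (fun i => lt_of_lt_of_le one_pos (hab i).2) (fun i => (hab i).1) ?_ hEB ?_ ?_ ?_ ?_ ?_ ?_ ?_ ?_
    hC₈
  · intro i
    exact ineqE (S i) (tb R) (fun W => al N β R δ (G i) W) m (a i) (b i) R En hR1 (hab i).1
      (fun W hW => (hb i W hW).1) (fun W hW => (hS i W hW).2.2.2.2.1) (hE i)
  · -- MU
    intro i
    refine h5 R δ (M₂ i) z₀ ((S i).image (tb R)) (X₂.image (cb (Real.sqrt R)))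
      (fun T q => Sh QQ R (R ^ (1 - ε₀)) δ (l i) (k i) T (bl R (R ^ (1 - ε₀)) q)) hR1 hδ.le
      ?_ ?_ ?_
    · intro T hT
      obtain ⟨W, hW, rfl⟩ := Finset.mem_image.1 hT
      exact hS3 i W hW
    · intro q hq
      obtain ⟨z, hz, rfl⟩ := Finset.mem_image.1 hq
      exact hQz _ (hXQ z (hX₂X hz))
    · intro q hq
      obtain ⟨z, hz, rfl⟩ := Finset.mem_image.1 hq
      exact (hX₂M₂ z hz i).1
  · -- HB
    intro i j hij
    have hQcard : (QQ.card : ℝ) ≤ 2 * (C₉ * R ^ (2 * δ)) * (X₂.image (cb (Real.sqrt R))).card := by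
      have a1 : (X₂.card : ℝ) ≤ (X₂.image (cb (Real.sqrt R))).card * (2 * ν) := by
        refine card_tb' X₂ (cb (Real.sqrt R)) (2 * ν) (fun z hz => ?_)
        refine le_trans ?_ (hνX (cb (Real.sqrt R) z))
        have : (X₂.filter (fun z' => cb (Real.sqrt R) z' = cb (Real.sqrt R) z)) ⊆
          X.filter (fun z' => cb (Real.sqrt R) z' = cb (Real.sqrt R) z) :=
          Finset.filter_subset_filter _ hX₂X
        have b1 := Finset.card_le_card this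
        have b2 : ((X₂.filter (fun z' => cb (Real.sqrt R) z' = cb (Real.sqrt R) z)).card : ℝ) ≤
          ((X.filter (fun z' => cb (Real.sqrt R) z' = cb (Real.sqrt R) z)).card : ℝ) := by
          exact_mod_cast b1
        convert b2
      have a2 : ν * QQ.card ≤ ν * (2 * (C₉ * R ^ (2 * δ)) *
          (X₂.image (cb (Real.sqrt R))).card) := by
        calc ν * QQ.card ≤ R ^ δ * X.card := hνQ
          _ ≤ R ^ δ * (C₉ * R ^ δ * X₂.card) := by gcongr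
          _ ≤ R ^ δ * (C₉ * R ^ δ * ((X₂.image (cb (Real.sqrt R))).card * (2 * ν))) := by gcongr
          _ = ν * (2 * (C₉ * (R ^ δ * R ^ δ)) * (X₂.image (cb (Real.sqrt R))).card) := by ring
          _ = _ := by rw [← Real.rpow_add hR0, two_mul δ]
      exact le_of_mul_le_mul_left a2 hν
    have key := h4 R δ ε₀ (2 * (C₉ * R ^ (2 * δ))) (M₂ i) (M₂ j) z₀ ((S i).image (tb R))
      ((S j).image (tb R)) QQ (X₂.image (cb (Real.sqrt R)))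
      (Sh QQ R (R ^ (1 - ε₀)) δ (l i) (k i)) (Sh QQ R (R ^ (1 - ε₀)) δ (l j) (k j)) (k j) (l j)
      hR1 hδ.le hε.le (by linarith) (by positivity) (by positivity) (by positivity) ?_ ?_ ?_ hQz
      ?_ hQcard ?_ ?_ ?_ ?_ (g4.trans (hk j))
    · exact key
    · intro T hT
      obtain ⟨W, hW, rfl⟩ := Finset.mem_image.1 hT
      exact hS3 i W hW
    · intro T hT
      obtain ⟨W, hW, rfl⟩ := Finset.mem_image.1 hT
      exact hS3 j W hW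
    · intro T hT T' hT'
      obtain ⟨W, hW, rfl⟩ := Finset.mem_image.1 hT
      obtain ⟨W', hW', rfl⟩ := Finset.mem_image.1 hT'
      exact hSsep i j hij W hW W' hW'
    · intro q hq
      obtain ⟨z, hz, rfl⟩ := Finset.mem_image.1 hq
      exact hXQ z (hX₂X hz)
    · intro q hq
      obtain ⟨z, hz, rfl⟩ := Finset.mem_image.1 hq
      exact (hX₂M₂ z hz i).1
    · intro q hq
      obtain ⟨z, hz, rfl⟩ := Finset.mem_image.1 hq
      exact (hX₂M₂ z hz j).1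
    · intro T _ B' hB'
      exact (sh_counts QQ R (R ^ (1 - ε₀)) δ (l j) (k j) T B' hB').1
    · intro T _ B' hB'
      exact (sh_counts QQ R (R ^ (1 - ε₀)) δ (l j) (k j) T B' hB').2
  · -- LW
    exact h3 R (R ^ (1 - ε₀)) δ S b (fun i => (M₂ i : ℝ)) (fun i => (M₁ i : ℝ)) QQ l k X₂ hR1 hδ.le
      hX₂sep hS3 hSsep
      (fun i => ⟨lt_of_lt_of_le one_pos (hab i).2, lt_of_lt_of_le one_pos (hM₂' i),
        lt_of_lt_of_le one_pos (hM₁' i)⟩)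
      (fun i W hW => (hb i W hW).2) (fun z hz i => (hX₂M₂ z hz i).2)
      (fun z hz i => (hX₂M₁ z hz i).1)
  · -- L2
    intro i
    exact h2 κ R (R ^ (1 - ε₀)) A H (a i) (b i) (M₂ i) (G i) (S i) QQ (l i) (k i) X₂ hκ0 hκ hR1
      (g2.trans hCR) hA hH hAH (hab i).1 (hab i).2 (lt_of_lt_of_le one_pos (hM₂' i)) (hG i)
      hX₂sep (fun W hW => ⟨(hS i W hW).1, (hS i W hW).2.2.2.2.2⟩) (hScard i)
      (fun W hW => (hb i W hW).2) (fun z hz => (hX₂M₂ z hz i).2)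
      (fun z hz => hXF z (hX₂X hz) i)
  · -- RD
    intro i
    exact h1 κ R A H (a i) (M₁ i) (G i) z₀ (S i) QQ (l i) (k i) X₂ hκ0 hκ hR1 (g1.trans hCR) hA hH
      (hab i).1 (hM₁' i) (hG i) hX₂sep (fun z hz => hXz z (hX₂X hz))
      (fun W hW => ⟨(hS i W hW).1, (hS i W hW).2.2.2.2.2⟩) (hScard i)
      (fun z hz => hXQ z (hX₂X hz)) hQz (fun z hz => (hX₂M₁ z hz i).2)
      (fun z hz => hXF z (hX₂X hz) i)
  · intro i
    exact card_tb' (S i) (tb R) (2 * b i) (fun W hW => (hb i W hW).2)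
  · -- M1 ≤ M
    intro i
    have a1 := count_near (S i) QQ R (R ^ (1 - ε₀)) δ (l i) (k i) z₁
      (bl R (R ^ (1 - ε₀)) (cb (Real.sqrt R) z₁)) (C₆ * R ^ (((m : ℝ) + 2) * δ)) (by positivity)
      (hnear z₁) (fun k' S' hS' => (h6 R δ hR1 hδ.le).1 k' z₁ S' hS')
    refine ((hX₂M₁ z₁ hz₁ i).1.trans a1).trans ?_
    exact mul_le_mul_of_nonneg_right (hX₂M₂ z₁ hz₁ i).2 (by positivity)
  · intro i
    obtain ⟨W, hW⟩ := hSne i
    exact (hS i W hW).2.2.2.2.1.trans (h8 κ R A (G i) W hκ0 hκ' hR1 hA (hG i)).1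

end Pool.Agent.H83.G.TEN
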